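import Mathlib

set_option autoImplicit false

/-!
Dimensions and lattice points.
-/

namespace Run7.h684.VC

open MvPolynomial Finset Module

theorem card_anti (r N : ℕ) :
    ((Finset.univ : Finset (Fin (r + 1))).finsuppAntidiag N).card = (N + r).choose r := by
  rw [card_finsuppAntidiag_nat_eq_choose, Finset.card_univ, Fintype.card_fin]
  have h : r + 1 + N - 1 = N + r := by omega
  rw [h]
  exact Nat.choose_symm_add

theorem mem_anti {r N : ℕ} {b : Fin (r + 1) →₀ ℕ} :
    b ∈ (Finset.univ : Finset (Fin (r + 1))).finsuppAntidiag N ↔ b.degree = N := by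
  rw [mem_finsuppAntidiag, Finsupp.degree_eq_sum]
  constructor
  · rintro ⟨h, -⟩
    exact h
  · intro h
    exact ⟨h, Finset.subset_univ _⟩

/-- the dimension of the space of forms -/
theorem finrank_hom (K : Type) [Field K] (r N : ℕ) :
    finrank K (homogeneousSubmodule (Fin (r + 1)) K N) = (N + r).choose r := by
  classical
  set A := (Finset.univ : Finset (Fin (r + 1))).finsuppAntidiag N with hA
  have hmem : ∀ b : A, monomial b.1 (1 : K) ∈ homogeneousSubmodule (Fin (r + 1)) K N := fun b => by
    rw [mem_homogeneousSubmodule]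
    exact isHomogeneous_monomial _ (mem_anti.1 b.2)
  let e : A → homogeneousSubmodule (Fin (r + 1)) K N := fun b => ⟨monomial b.1 1, hmem b⟩
  have hli : LinearIndependent K e := by
    apply LinearIndependent.of_comp (homogeneousSubmodule (Fin (r + 1)) K N).subtype
    have h1 : LinearIndependent K (fun b : Fin (r + 1) →₀ ℕ => (monomial b (1 : K) :
        MvPolynomial (Fin (r + 1)) K)) := by
      have := (basisMonomials (Fin (r + 1)) K).linearIndependent
      simpa using this
    exact h1.comp _ Subtype.val_injective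
  have hsp : ⊤ ≤ Submodule.span K (Set.range e) := by
    rintro ⟨p, hp⟩ -
    rw [mem_homogeneousSubmodule] at hp
    have h1 : (⟨p, (mem_homogeneousSubmodule N p).2 hp⟩ :
        homogeneousSubmodule (Fin (r + 1)) K N) = ∑ b : A, coeff b.1 p • e b := by
      apply Subtype.ext
      rw [Submodule.coe_sum]
      show p = ∑ b : A, coeff b.1 p • (monomial b.1 (1 : K))
      rw [Finset.sum_coe_sort A (fun b => coeff b p • monomial b (1 : K))]
      conv_lhs => rw [p.as_sum]
      have hsub : p.support ⊆ A := by
        intro b hb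
        rw [hA, mem_anti]
        have h2 := hp (mem_support_iff.1 hb)
        exact (DFunLike.congr_fun (Finsupp.degree_eq_weight_one (σ := Fin (r + 1)) (R := ℕ)) b).trans
          h2
      rw [← Finset.sum_subset hsub]
      · refine Finset.sum_congr rfl fun b _ => ?_
        rw [smul_monomial, smul_eq_mul, mul_one]
      · intro b _ hb
        rw [notMem_support_iff.1 hb, zero_smul]
    rw [h1]
    exact Submodule.sum_mem _ fun b _ => Submodule.smul_mem _ _ (Submodule.subset_span ⟨b, rfl⟩)
  rw [finrank_eq_card_basis (Basis.mk hli hsp), Fintype.card_coe, hA, card_anti]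

/-- the sum of the exponents of one variable over all monomials of degree `N` -/
theorem sum_exp (r N : ℕ) (a : Fin (r + 1)) :
    (r + 1) * ∑ b ∈ (Finset.univ : Finset (Fin (r + 1))).finsuppAntidiag N, b a =
      N * (N + r).choose r := by
  classical
  set A := (Finset.univ : Finset (Fin (r + 1))).finsuppAntidiag N with hA
  have hsym : ∀ a' : Fin (r + 1), ∑ b ∈ A, b a' = ∑ b ∈ A, b a := by
    intro a'
    refine Finset.sum_bij' (fun b _ => b.mapDomain (Equiv.swap a a'))
      (fun b _ => b.mapDomain (Equiv.swap a a')) ?_ ?_ ?_ ?_ ?_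
    · intro b hb
      rw [hA, mem_anti] at hb ⊢
      rw [← hb, Finsupp.degree_eq_sum, Finsupp.degree_eq_sum]
      have h3 : ∀ x, b.mapDomain (Equiv.swap a a') x = b (Equiv.swap a a' x) := by
        intro x
        have h4 := Finsupp.mapDomain_apply (Equiv.swap a a').injective b (Equiv.swap a a' x)
        rw [Equiv.swap_apply_self] at h4
        exact h4
      simp only [h3]
      exact Equiv.sum_comp (Equiv.swap a a') b
    · intro b hb
      rw [hA, mem_anti] at hb ⊢
      rw [← hb, Finsupp.degree_eq_sum, Finsupp.degree_eq_sum]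
      have h3 : ∀ x, b.mapDomain (Equiv.swap a a') x = b (Equiv.swap a a' x) := by
        intro x
        have h4 := Finsupp.mapDomain_apply (Equiv.swap a a').injective b (Equiv.swap a a' x)
        rw [Equiv.swap_apply_self] at h4
        exact h4
      simp only [h3]
      exact Equiv.sum_comp (Equiv.swap a a') b
    · intro b _
      rw [← Finsupp.mapDomain_comp]
      have : (Equiv.swap a a' : Fin (r + 1) → Fin (r + 1)) ∘ (Equiv.swap a a') = id := by
        funext x
        simp
      rw [this, Finsupp.mapDomain_id]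
    · intro b _
      rw [← Finsupp.mapDomain_comp]
      have : (Equiv.swap a a' : Fin (r + 1) → Fin (r + 1)) ∘ (Equiv.swap a a') = id := by
        funext x
        simp
      rw [this, Finsupp.mapDomain_id]
    · intro b _
      have h1 := Finsupp.mapDomain_apply (Equiv.swap a a').injective b a'
      rw [Equiv.swap_apply_right] at h1
      exact h1.symm
  have h1 : ∑ a' : Fin (r + 1), ∑ b ∈ A, b a' = N * (N + r).choose r := by
    rw [Finset.sum_comm]
    have h2 : ∀ b ∈ A, ∑ a' : Fin (r + 1), b a' = N := by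
      intro b hb
      rw [hA, mem_anti, Finsupp.degree_eq_sum] at hb
      exact hb
    rw [Finset.sum_congr rfl h2, Finset.sum_const, hA, card_anti, smul_eq_mul, mul_comm]
  rw [Finset.sum_congr rfl fun a' _ => hsym a', Finset.sum_const, Finset.card_univ,
    Fintype.card_fin, smul_eq_mul] at h1
  exact h1

theorem pow_low' {x y : ℝ} (hy : 0 ≤ y) (hxy : y ≤ x) (p : ℕ) :
    (p + 1) * (x - y) * y ^ p ≤ x ^ (p + 1) - y ^ (p + 1) := by
  induction p with
  | zero => simp
  | succ p ih =>
    have h1 : x ^ (p + 1 + 1) - y ^ (p + 1 + 1) =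
        y * (x ^ (p + 1) - y ^ (p + 1)) + (x - y) * x ^ (p + 1) := by ring
    have h2 := mul_le_mul_of_nonneg_left ih hy
    have h3 : (x - y) * y ^ (p + 1) ≤ (x - y) * x ^ (p + 1) :=
      mul_le_mul_of_nonneg_left (pow_le_pow_left₀ hy hxy _) (by linarith)
    push_cast
    rw [h1]
    calc _ = y * ((p + 1) * (x - y) * y ^ p) + (x - y) * y ^ (p + 1) := by ring
      _ ≤ _ := add_le_add h2 h3

theorem pow_up' {x y : ℝ} (hy : 0 ≤ y) (hxy : y ≤ x) (p : ℕ) :
    x ^ (p + 1) - y ^ (p + 1) ≤ (p + 1) * (x - y) * x ^ p := by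
  induction p with
  | zero => simp
  | succ p ih =>
    have hx : 0 ≤ x := hy.trans hxy
    have h1 : x ^ (p + 1 + 1) - y ^ (p + 1 + 1) =
        x * (x ^ (p + 1) - y ^ (p + 1)) + (x - y) * y ^ (p + 1) := by ring
    have h2 := mul_le_mul_of_nonneg_left ih hx
    have h3 : (x - y) * y ^ (p + 1) ≤ (x - y) * x ^ (p + 1) :=
      mul_le_mul_of_nonneg_left (pow_le_pow_left₀ hy hxy _) (by linarith)
    push_cast
    rw [h1]
    calc _ ≤ x * ((p + 1) * (x - y) * x ^ p) + (x - y) * x ^ (p + 1) := add_le_add h2 h3
      _ = _ := by ring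

/-- lattice points in a simplex -/
theorem count_fun (r : ℕ) (y : Fin r → ℕ) (hy : ∀ j, 1 ≤ y j) (t : ℕ)
    (B : Finset (Fin r → ℕ)) (hB : ∀ b ∈ B, ∑ j, y j * b j < t) :
    (B.card : ℝ) * (r.factorial * ∏ j, (y j : ℝ)) ≤ ((t : ℝ) + ∑ j, (y j : ℝ)) ^ r := by
  classical
  induction r generalizing t with
  | zero =>
    have : B.card ≤ 1 := by
      rw [Finset.card_le_one]
      intro a _ b _
      exact Subsingleton.elim _ _
    have h : (B.card : ℝ) ≤ 1 := by exact_mod_cast this
    simpa using h
  | succ r ih =>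
    -- the fibres
    have h1 : ∀ s : ℕ, s * y 0 < t → ((B.filter fun b => b 0 = s).card : ℝ) *
        (r.factorial * ∏ j : Fin r, (y j.succ : ℝ)) ≤
        ((t : ℝ) - s * y 0 + ∑ j : Fin r, (y j.succ : ℝ)) ^ r := by
      intro s hs
      have h2 := ih (fun j => y j.succ) (fun j => hy _) (t - s * y 0)
        ((B.filter fun b => b 0 = s).image fun b j => b j.succ) (by
          intro b hb
          obtain ⟨b', hb', rfl⟩ := Finset.mem_image.1 hb
          obtain ⟨h3, h4⟩ := Finset.mem_filter.1 hb'
          have h5 := hB b' h3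
          rw [Fin.sum_univ_succ, h4, mul_comm (y 0)] at h5
          show ∑ j : Fin r, y j.succ * b' j.succ < t - s * y 0
          omega)
      have h3 : ((B.filter fun b => b 0 = s).image fun b j => b (Fin.succ j)).card =
          (B.filter fun b => b 0 = s).card := by
        apply Finset.card_image_of_injOn
        intro b hb b' hb' hbb'
        have hb0 := (Finset.mem_filter.1 hb).2
        have hb0' := (Finset.mem_filter.1 hb').2
        funext j
        refine Fin.cases ?_ (fun j => ?_) j
        · rw [hb0, hb0']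
        · exact congrFun hbb' j
      rw [h3, Nat.cast_sub hs.le] at h2
      push_cast at h2
      exact h2
    have h0 : ∀ b ∈ B, b 0 ∈ (range t).filter fun s => s * y 0 < t := by
      intro b hb
      have h5 := hB b hb
      rw [Fin.sum_univ_succ] at h5
      have h6 : b 0 * y 0 < t := by
        rw [mul_comm]
        omega
      have h7 : b 0 ≤ b 0 * y 0 := Nat.le_mul_of_pos_right _ (hy 0)
      exact Finset.mem_filter.2 ⟨Finset.mem_range.2 (by omega), h6⟩
    have hcard := Finset.card_eq_sum_card_fiberwise (f := fun b : Fin (r + 1) → ℕ => b 0) h0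
    set P : ℝ := r.factorial * ∏ j : Fin r, (y j.succ : ℝ) with hP
    set Y : ℝ := ∑ j : Fin r, (y j.succ : ℝ) with hY
    have hY0 : 0 ≤ Y := Finset.sum_nonneg fun _ _ => Nat.cast_nonneg _
    have hy0 : (1 : ℝ) ≤ y 0 := by exact_mod_cast hy 0
    -- telescoping
    have htel : ∀ m : ℕ, (∀ s < m, s * y 0 < t) →
        ∑ s ∈ range m, ((r : ℝ) + 1) * y 0 * ((t : ℝ) - s * y 0 + Y) ^ r ≤
          ((t : ℝ) + y 0 + Y) ^ (r + 1) - ((t : ℝ) - (m : ℝ) * y 0 + y 0 + Y) ^ (r + 1) := by
      intro m
      induction m with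
      | zero =>
        intro _
        simp
      | succ m ihm =>
        intro hm
        rw [Finset.sum_range_succ]
        have h2 := ihm fun s hs => hm s (by omega)
        have h3 : ((m * y 0 : ℕ) : ℝ) < t := by exact_mod_cast hm m (by omega)
        push_cast at h3
        have h4 := pow_low' (x := (t : ℝ) - m * y 0 + y 0 + Y) (y := (t : ℝ) - m * y 0 + Y)
          (by linarith) (by linarith) r
        push_cast
        have e1 : (t : ℝ) - (m + 1) * y 0 + y 0 + Y = t - m * y 0 + Y := by ring
        have e2 : (t : ℝ) - m * y 0 + y 0 + Y - (t - m * y 0 + Y) = y 0 := by ring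
        rw [e2] at h4
        rw [e1]
        linarith
    -- the set of the first coordinates
    obtain ⟨m, hm⟩ : ∃ m, (range t).filter (fun s => s * y 0 < t) = range m := by
      by_cases ht : t = 0
      · exact ⟨0, by simp [ht]⟩
      refine ⟨(t - 1) / y 0 + 1, ?_⟩
      ext s
      simp only [Finset.mem_filter, Finset.mem_range]
      rw [Nat.lt_succ_iff, Nat.le_div_iff_mul_le (hy 0)]
      constructor
      · rintro ⟨-, h⟩
        omega
      · intro h
        have h7 : s ≤ s * y 0 := Nat.le_mul_of_pos_right _ (hy 0)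
        omega
    have hm' : ∀ s < m, s * y 0 < t := by
      intro s hs
      have : s ∈ (range t).filter (fun s => s * y 0 < t) := by
        rw [hm]
        exact Finset.mem_range.2 hs
      exact (Finset.mem_filter.1 this).2
    have hnon : 0 ≤ ((t : ℝ) - (m : ℝ) * y 0 + y 0 + Y) := by
      rcases Nat.eq_zero_or_pos m with h | h
      · rw [h]
        push_cast
        have : (0 : ℝ) ≤ t := Nat.cast_nonneg t
        linarith
      · have h3 : (((m - 1) * y 0 : ℕ) : ℝ) < t := by exact_mod_cast hm' (m - 1) (by omega)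
        rw [Nat.cast_mul, Nat.cast_sub h] at h3
        push_cast at h3
        nlinarith
    have h8 : (B.card : ℝ) * P ≤ ∑ s ∈ range m, ((t : ℝ) - s * y 0 + Y) ^ r := by
      rw [hcard, hm]
      push_cast
      rw [Finset.sum_mul]
      refine Finset.sum_le_sum fun s hs => h1 s (hm' s (Finset.mem_range.1 hs))
    have h9 := htel m hm'
    rw [← Finset.mul_sum] at h9
    rw [Fin.sum_univ_succ, Fin.prod_univ_succ, Nat.factorial_succ]
    push_cast
    have h10 : (B.card : ℝ) * (((r : ℝ) + 1) * r.factorial * (y 0 * ∏ j : Fin r, (y j.succ : ℝ))) =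
        ((r : ℝ) + 1) * y 0 * (B.card * P) := by
      rw [hP]
      ring
    rw [h10, ← hY]
    have h11 : ((r : ℝ) + 1) * y 0 * (B.card * P) ≤
        ((r : ℝ) + 1) * y 0 * ∑ s ∈ range m, ((t : ℝ) - s * y 0 + Y) ^ r :=
      mul_le_mul_of_nonneg_left h8 (by positivity)
    have h12 : 0 ≤ ((t : ℝ) - (m : ℝ) * y 0 + y 0 + Y) ^ (r + 1) := pow_nonneg hnon _
    have e3 : (t : ℝ) + (y 0 + Y) = t + y 0 + Y := by ring
    rw [e3]
    linarith

theorem count_le (r : ℕ) (y : Fin r → ℕ) (hy : ∀ j, 1 ≤ y j) (t : ℕ)
    (B : Finset (Fin r →₀ ℕ)) :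
    ((B.filter fun b => ∑ j, y j * b j < t).card : ℝ) * (r.factorial * ∏ j, (y j : ℝ)) ≤
      ((t : ℝ) + ∑ j, (y j : ℝ)) ^ r := by
  classical
  have h := count_fun r y hy t ((B.filter fun b => ∑ j, y j * b j < t).image
      fun (b : Fin r →₀ ℕ) => (b : Fin r → ℕ)) (by
    intro b hb
    obtain ⟨b', hb', rfl⟩ := Finset.mem_image.1 hb
    exact (Finset.mem_filter.1 hb').2)
  rw [Finset.card_image_of_injective _ (fun a b h => Finsupp.ext (congrFun h))] at h
  exact h

end Run7.h684.VC
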