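import Mathlib

set_option autoImplicit false

/-!
Bases adapted to two filtrations, and the superadditivity of the sum of the orders.
-/

namespace Run7.h684.VC

open Finset Module

variable {K : Type} [Field K]

theorem finrank_map_mkQ {V : Type} [AddCommGroup V] [Module K V] [FiniteDimensional K V]
    (e : V) (he : e ≠ 0) (W : Submodule K V) :
    (e ∈ W → finrank K (W.map (Submodule.span K {e}).mkQ) + 1 = finrank K W) ∧
    (e ∉ W → finrank K (W.map (Submodule.span K {e}).mkQ) = finrank K W) := by
  set L := Submodule.span K {e} with hL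
  set φ : W →ₗ[K] (V ⧸ L) := L.mkQ.domRestrict W with hφ
  have hr : LinearMap.range φ = W.map L.mkQ := by
    ext x
    constructor
    · rintro ⟨w, rfl⟩
      exact ⟨w.1, w.2, rfl⟩
    · rintro ⟨w, hw, rfl⟩
      exact ⟨⟨w, hw⟩, rfl⟩
  have h1 := LinearMap.finrank_range_add_finrank_ker φ
  rw [hr] at h1
  have hk : ∀ w : W, w ∈ LinearMap.ker φ ↔ w.1 ∈ L := by
    intro w
    rw [LinearMap.mem_ker]
    show L.mkQ w.1 = 0 ↔ _
    rw [Submodule.mkQ_apply, Submodule.Quotient.mk_eq_zero]
  constructor
  · intro heW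
    have h2 : LinearMap.ker φ = Submodule.span K {(⟨e, heW⟩ : W)} := by
      ext w
      rw [hk, hL, Submodule.mem_span_singleton, Submodule.mem_span_singleton]
      constructor
      · rintro ⟨a, ha⟩
        exact ⟨a, Subtype.ext ha⟩
      · rintro ⟨a, ha⟩
        exact ⟨a, congrArg Subtype.val ha⟩
    rw [h2, finrank_span_singleton (by
      intro h
      exact he (congrArg Subtype.val h))] at h1
    exact h1
  · intro heW
    have h2 : LinearMap.ker φ = ⊥ := by
      rw [eq_bot_iff]
      intro w hw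
      rw [hk, hL, Submodule.mem_span_singleton] at hw
      obtain ⟨a, ha⟩ := hw
      by_cases ha0 : a = 0
      · rw [ha0, zero_smul] at ha
        exact (Submodule.mem_bot K).2 (Subtype.ext ha.symm)
      · exfalso
        apply heW
        have h3 : e = a⁻¹ • w.1 := by
          rw [← ha, smul_smul, inv_mul_cancel₀ ha0, one_smul]
        rw [h3]
        exact W.smul_mem _ w.2
    rw [h2, finrank_bot, add_zero] at h1
    exact h1

/-- a basis adapted to two filtrations -/
theorem adapted (d : ℕ) : ∀ (V : Type) [AddCommGroup V] [Module K V] [FiniteDimensional K V]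
    (_ : finrank K V = d) (A B : ℕ → Submodule K V) (_ : Antitone A) (_ : Antitone B)
    (_ : A 0 = ⊤) (_ : B 0 = ⊤) (T1 T2 : ℕ), ∃ (e : Fin d → V) (α β : Fin d → ℕ),
      LinearIndependent K e ∧ (∀ i, α i ≤ T1 ∧ β i ≤ T2 ∧ e i ∈ A (α i) ∧ e i ∈ B (β i)) ∧
      ∑ i, α i = ∑ t ∈ range T1, finrank K (A (t + 1)) ∧
      ∑ i, β i = ∑ t ∈ range T2, finrank K (B (t + 1)) := by
  classical
  induction d with
  | zero =>
    intro V _ _ _ hV A B _ _ _ _ T1 T2
    have h0 : ∀ W : Submodule K V, finrank K W = 0 := fun W => by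
      have := Submodule.finrank_le W
      omega
    refine ⟨Fin.elim0, Fin.elim0, Fin.elim0, linearIndependent_empty_type, fun i => i.elim0,
      ?_, ?_⟩
    · simp [h0]
    · simp [h0]
  | succ d ih =>
    intro V _ _ _ hV A B hA hB hA0 hB0 T1 T2
    have hnt : Nontrivial V := by
      apply Module.nontrivial_of_finrank_pos (R := K)
      omega
    -- the last steps
    have h1 := Nat.findGreatest_spec (P := fun s => A s ≠ ⊥) (m := 0) (n := T1) (Nat.zero_le _)
      (by rw [hA0]; exact top_ne_bot)
    have h1' : ∀ s, Nat.findGreatest (fun s => A s ≠ ⊥) T1 < s → s ≤ T1 → A s = ⊥ :=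
      fun s hs hs' => by
        have := Nat.findGreatest_is_greatest hs hs'
        push Not at this
        exact this
    have h1'' := Nat.findGreatest_le (P := fun s => A s ≠ ⊥) T1
    set α0 := Nat.findGreatest (fun s => A s ≠ ⊥) T1 with hα0
    have h2 := Nat.findGreatest_spec (P := fun s => A α0 ⊓ B s ≠ ⊥) (m := 0) (n := T2)
      (Nat.zero_le _) (by rw [hB0, inf_top_eq]; exact h1)
    have h2' : ∀ s, Nat.findGreatest (fun s => A α0 ⊓ B s ≠ ⊥) T2 < s → s ≤ T2 →
        A α0 ⊓ B s = ⊥ := fun s hs hs' => by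
        have := Nat.findGreatest_is_greatest hs hs'
        push Not at this
        exact this
    have h2'' := Nat.findGreatest_le (P := fun s => A α0 ⊓ B s ≠ ⊥) T2
    set β0 := Nat.findGreatest (fun s => A α0 ⊓ B s ≠ ⊥) T2 with hβ0
    obtain ⟨e0, he0, hne⟩ := Submodule.exists_mem_ne_zero_of_ne_bot h2
    obtain ⟨heA, heB⟩ := Submodule.mem_inf.1 he0
    set L := Submodule.span K {e0} with hL
    have hfr : finrank K (V ⧸ L) = d := by
      have h3 := Submodule.finrank_quotient_add_finrank L
      have h4 : finrank K L = 1 := by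
        rw [hL]
        exact finrank_span_singleton hne
      omega
    have heA' : ∀ s, s ≤ α0 → e0 ∈ A s := fun s hs => hA hs heA
    have heB' : ∀ s, s ≤ β0 → e0 ∈ B s := fun s hs => hB hs heB
    obtain ⟨e, α, β, hli, hmem, hα, hβ⟩ := ih (V ⧸ L) hfr (fun s => (A s).map L.mkQ)
      (fun s => (B s).map L.mkQ) (fun s t hst => Submodule.map_mono (hA hst))
      (fun s t hst => Submodule.map_mono (hB hst))
      (by show (A 0).map L.mkQ = ⊤; rw [hA0, Submodule.map_top, Submodule.range_mkQ])
      (by show (B 0).map L.mkQ = ⊤; rw [hB0, Submodule.map_top, Submodule.range_mkQ]) T1 T2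
    have hlift : ∀ i, ∃ b : V, b ∈ A (α i) ∧ b ∈ B (β i) ∧ L.mkQ b = e i := by
      intro i
      obtain ⟨hi1, hi2, ⟨a, ha, hae⟩, ⟨b, hb, hbe⟩⟩ := hmem i
      by_cases hαi : α i ≤ α0
      · refine ⟨b, ?_, hb, hbe⟩
        have h3 : a - b ∈ L := by
          rw [← Submodule.Quotient.mk_eq_zero, ← Submodule.mkQ_apply, map_sub, hae, hbe, sub_self]
        rw [hL, Submodule.mem_span_singleton] at h3
        obtain ⟨κ, hκ⟩ := h3
        have h4 : b = a - κ • e0 := by rw [hκ]; abel
        rw [h4]
        exact (A (α i)).sub_mem ha ((A (α i)).smul_mem _ (heA' _ hαi))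
      · exfalso
        have h3 := h1' (α i) (not_le.1 hαi) hi1
        rw [h3] at ha
        have ha0 : a = 0 := (Submodule.mem_bot K).1 ha
        rw [ha0, map_zero] at hae
        exact hli.ne_zero i hae.symm
    choose b hbA hbB hbe using hlift
    refine ⟨Fin.cons e0 b, Fin.cons α0 α, Fin.cons β0 β, ?_, ?_, ?_, ?_⟩
    · rw [linearIndependent_finCons]
      have hbli : LinearIndependent K b := by
        apply LinearIndependent.of_comp L.mkQ
        have : (L.mkQ : V → V ⧸ L) ∘ b = e := funext hbe
        rw [this]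
        exact hli
      refine ⟨hbli, fun hmem => ?_⟩
      obtain ⟨κ, hκ⟩ := (Submodule.mem_span_range_iff_exists_fun K).1 hmem
      have h3 : ∑ i, κ i • e i = 0 := by
        have h4 := congrArg L.mkQ hκ
        rw [map_sum] at h4
        simp only [map_smul, hbe] at h4
        rw [h4, Submodule.mkQ_apply, Submodule.Quotient.mk_eq_zero]
        exact Submodule.mem_span_singleton_self e0
      have h4 := Fintype.linearIndependent_iff.1 hli κ h3
      simp only [h4, zero_smul, Finset.sum_const_zero] at hκ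
      exact hne hκ.symm
    · intro i
      refine Fin.cases ?_ (fun i => ?_) i
      · simp only [Fin.cons_zero]
        exact ⟨h1'', h2'', heA, heB⟩
      · simp only [Fin.cons_succ]
        exact ⟨(hmem i).1, (hmem i).2.1, hbA i, hbB i⟩
    · rw [Fin.sum_univ_succ]
      simp only [Fin.cons_zero, Fin.cons_succ]
      rw [hα]
      have h3 : ∀ t ∈ range T1, finrank K (A (t + 1)) =
          finrank K ((A (t + 1)).map L.mkQ) + if t < α0 then 1 else 0 := by
        intro t ht
        by_cases hta : t < α0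
        · rw [if_pos hta]
          exact ((finrank_map_mkQ e0 hne (A (t + 1))).1 (heA' _ hta)).symm
        · rw [if_neg hta, add_zero]
          have h4 := h1' (t + 1) (by omega) (Finset.mem_range.1 ht)
          rw [h4, Submodule.map_bot, finrank_bot, finrank_bot]
      rw [Finset.sum_congr rfl h3, Finset.sum_add_distrib, Finset.sum_ite, Finset.sum_const_zero,
        add_zero, Finset.sum_const, smul_eq_mul, mul_one, add_comm]
      congr 1
      have h5 : (range T1).filter (fun t => t < α0) = range α0 := by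
        ext t
        simp only [Finset.mem_filter, Finset.mem_range]
        omega
      rw [h5, card_range]
    · rw [Fin.sum_univ_succ]
      simp only [Fin.cons_zero, Fin.cons_succ]
      rw [hβ]
      have h3 : ∀ t ∈ range T2, finrank K (B (t + 1)) =
          finrank K ((B (t + 1)).map L.mkQ) + if t < β0 then 1 else 0 := by
        intro t ht
        by_cases hta : t < β0
        · rw [if_pos hta]
          exact ((finrank_map_mkQ e0 hne (B (t + 1))).1 (heB' _ hta)).symm
        · rw [if_neg hta, add_zero]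
          have h4 := h2' (t + 1) (by omega) (Finset.mem_range.1 ht)
          have h5 : e0 ∉ B (t + 1) := by
            intro h
            have h6 : e0 ∈ A α0 ⊓ B (t + 1) := ⟨heA, h⟩
            rw [h4, Submodule.mem_bot] at h6
            exact hne h6
          exact ((finrank_map_mkQ e0 hne (B (t + 1))).2 h5).symm
      rw [Finset.sum_congr rfl h3, Finset.sum_add_distrib, Finset.sum_ite, Finset.sum_const_zero,
        add_zero, Finset.sum_const, smul_eq_mul, mul_one, add_comm]
      congr 1
      have h5 : (range T2).filter (fun t => t < β0) = range β0 := by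
        ext t
        simp only [Finset.mem_filter, Finset.mem_range]
        omega
      rw [h5, card_range]

section weights

variable {V : Type} [AddCommGroup V] [Module K V] {β : Type}

/-- the vectors whose coordinates of weight less than `t` vanish -/
def Wf (c : β → V →ₗ[K] K) (B : Finset β) (ω : β → ℕ) (t : ℕ) : Submodule K V where
  carrier := {v | ∀ b ∈ B, ω b < t → c b v = 0}
  zero_mem' := fun b _ _ => map_zero _
  add_mem' := fun hu hv b hb ht => by rw [map_add, hu b hb ht, hv b hb ht, add_zero]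
  smul_mem' := fun a v hv b hb ht => by rw [map_smul, hv b hb ht, smul_zero]

theorem mem_Wf {c : β → V →ₗ[K] K} {B : Finset β} {ω : β → ℕ} {t : ℕ} {v : V} :
    v ∈ Wf c B ω t ↔ ∀ b ∈ B, ω b < t → c b v = 0 := Iff.rfl

/-- the sum of the dimensions -/
noncomputable def Sf (c : β → V →ₗ[K] K) (B : Finset β) (ω : β → ℕ) (T : ℕ) : ℕ :=
  ∑ t ∈ range T, finrank K (Wf c B ω (t + 1))

theorem Wf_anti (c : β → V →ₗ[K] K) (B : Finset β) (ω : β → ℕ) : Antitone (Wf c B ω) :=
  fun _ _ hst _ hv b hb ht => hv b hb (ht.trans_le hst)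

theorem Wf_zero (c : β → V →ₗ[K] K) (B : Finset β) (ω : β → ℕ) : Wf c B ω 0 = ⊤ :=
  eq_top_iff.2 fun _ _ _ _ h => absurd h (Nat.not_lt_zero _)

theorem sum_min (m T : ℕ) (o : Fin m → ℕ) (ho : ∀ i, o i ≤ T) :
    ∑ t ∈ range T, ((univ : Finset (Fin m)).filter fun i => t + 1 ≤ o i).card = ∑ i, o i := by
  classical
  simp only [Finset.card_filter]
  rw [Finset.sum_comm]
  refine Finset.sum_congr rfl fun i _ => ?_
  rw [← Finset.card_filter]
  have : (range T).filter (fun t => t + 1 ≤ o i) = range (o i) := by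
    ext t
    simp only [Finset.mem_filter, Finset.mem_range]
    have := ho i
    omega
  rw [this, card_range]

theorem card_le_finrank [FiniteDimensional K V] {m : ℕ} (e : Fin m → V)
    (he : LinearIndependent K e) (W : Submodule K V) (s : Finset (Fin m))
    (hs : ∀ i ∈ s, e i ∈ W) : s.card ≤ finrank K W := by
  have h1 : LinearIndependent K (fun i : s => (⟨e i.1, hs i.1 i.2⟩ : W)) := by
    apply LinearIndependent.of_comp W.subtype
    exact he.comp _ Subtype.val_injective
  have h2 := h1.fintype_card_le_finrank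
  rwa [Fintype.card_coe] at h2

theorem sum_le_Sf [FiniteDimensional K V] (c : β → V →ₗ[K] K) (B : Finset β) (ω : β → ℕ)
    (T : ℕ) {m : ℕ} (e : Fin m → V) (he : LinearIndependent K e) (o : Fin m → ℕ)
    (ho : ∀ i, o i ≤ T) (hmem : ∀ i, e i ∈ Wf c B ω (o i)) : ∑ i, o i ≤ Sf c B ω T := by
  classical
  rw [← sum_min m T o ho, Sf]
  refine Finset.sum_le_sum fun t _ => card_le_finrank e he _ _ fun i hi => ?_
  exact Wf_anti c B ω (Finset.mem_filter.1 hi).2 (hmem i)

theorem Sf_add [FiniteDimensional K V] (c : β → V →ₗ[K] K) (B : Finset β) (ω₁ ω₂ : β → ℕ)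
    (T₁ T₂ : ℕ) : Sf c B ω₁ T₁ + Sf c B ω₂ T₂ ≤ Sf c B (fun b => ω₁ b + ω₂ b) (T₁ + T₂) := by
  obtain ⟨e, α, β', hli, hmem, hα, hβ⟩ := adapted (K := K) (finrank K V) V rfl (Wf c B ω₁)
    (Wf c B ω₂) (Wf_anti c B ω₁) (Wf_anti c B ω₂) (Wf_zero c B ω₁) (Wf_zero c B ω₂) T₁ T₂
  have h1 := sum_le_Sf c B (fun b => ω₁ b + ω₂ b) (T₁ + T₂) e hli (fun i => α i + β' i)
    (fun i => add_le_add (hmem i).1 (hmem i).2.1) (fun i b hb ht => by
      obtain ⟨-, -, h1, h2⟩ := hmem i
      by_cases h3 : ω₁ b < α i
      · exact h1 b hb h3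
      · exact h2 b hb (by simp only at ht; omega))
  rw [Finset.sum_add_distrib, hα, hβ] at h1
  exact h1

theorem Sf_mono [FiniteDimensional K V] (c : β → V →ₗ[K] K) (B : Finset β) (ω : β → ℕ)
    {T T' : ℕ} (h : T ≤ T') : Sf c B ω T ≤ Sf c B ω T' :=
  Finset.sum_le_sum_of_subset_of_nonneg (Finset.range_subset_range.2 h) fun _ _ _ => Nat.zero_le _

theorem exists_basis [FiniteDimensional K V] (c : β → V →ₗ[K] K) (B : Finset β) (ω : β → ℕ)
    (T : ℕ) : ∃ (e : Fin (finrank K V) → V) (o : Fin (finrank K V) → ℕ),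
      LinearIndependent K e ∧ (∀ i, o i ≤ T ∧ e i ∈ Wf c B ω (o i)) ∧
      ∑ i, o i = Sf c B ω T := by
  obtain ⟨e, α, β', hli, hmem, hα, -⟩ := adapted (K := K) (finrank K V) V rfl (Wf c B ω)
    (fun _ => ⊤) (Wf_anti c B ω) (fun _ _ _ => le_rfl) (Wf_zero c B ω) rfl T 0
  exact ⟨e, α, hli, fun i => ⟨(hmem i).1, (hmem i).2.2.1⟩, hα⟩

/-- the codimension is at most the number of conditions -/
theorem finrank_Wf [FiniteDimensional K V] (c : β → V →ₗ[K] K) (B : Finset β) (ω : β → ℕ)
    (t : ℕ) : finrank K V ≤ finrank K (Wf c B ω t) + (B.filter fun b => ω b < t).card := by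
  classical
  set s := B.filter fun b => ω b < t with hs
  let φ : V →ₗ[K] (s → K) := LinearMap.pi fun b => c b.1
  have h1 := LinearMap.finrank_range_add_finrank_ker φ
  have h2 : LinearMap.ker φ = Wf c B ω t := by
    ext v
    rw [LinearMap.mem_ker, mem_Wf]
    constructor
    · intro h b hb ht
      exact congrFun h ⟨b, Finset.mem_filter.2 ⟨hb, ht⟩⟩
    · intro h
      funext b
      exact h b.1 (Finset.mem_filter.1 b.2).1 (Finset.mem_filter.1 b.2).2
  have h3 : finrank K (LinearMap.range φ) ≤ s.card := by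
    have := Submodule.finrank_le (LinearMap.range φ)
    rw [Module.finrank_pi, Fintype.card_coe] at this
    exact this
  rw [h2] at h1
  omega

end weights

end Run7.h684.VC
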