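import Mathlib

set_option autoImplicit false

/-!
Local coordinates at a point where forms meet transversally: the coordinates of a point as
polynomials in the values of the forms, up to terms of high order.
-/

namespace Run7.h684.VC

open MvPolynomial Finset

/-- Taylor's formula of order two -/
theorem taylor2 {K A : Type} [Field K] [CommRing A] [Algebra K A] {n : ℕ} (I : Ideal A)
    (ξ η : Fin n → A) (hη : ∀ a, η a ∈ I) (P : MvPolynomial (Fin n) K) :
    aeval (fun a => ξ a + η a) P - aeval ξ P - ∑ a, aeval ξ (pderiv a P) * η a ∈ I ^ 2 := by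
  classical
  induction P using MvPolynomial.induction_on with
  | C c => simp
  | add p q hp hq =>
    have h := (I ^ 2).add_mem hp hq
    have e : aeval (fun a => ξ a + η a) (p + q) - aeval ξ (p + q) -
        ∑ a, aeval ξ (pderiv a (p + q)) * η a =
        (aeval (fun a => ξ a + η a) p - aeval ξ p - ∑ a, aeval ξ (pderiv a p) * η a) +
        (aeval (fun a => ξ a + η a) q - aeval ξ q - ∑ a, aeval ξ (pderiv a q) * η a) := by
      simp only [map_add, add_mul, Finset.sum_add_distrib]
      ring
    rw [e]
    exact h
  | mul_X p i hp =>
    have hsum : ∑ a, aeval ξ (pderiv a p) * η a ∈ I :=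
      I.sum_mem fun a _ => I.mul_mem_left _ (hη a)
    have hdiff : aeval (fun a => ξ a + η a) p - aeval ξ p ∈ I := by
      have h2 := Ideal.pow_le_self (two_ne_zero) hp
      have h3 := I.add_mem h2 hsum
      rwa [sub_add_cancel] at h3
    have e : aeval (fun a => ξ a + η a) (p * X i) - aeval ξ (p * X i) -
        ∑ a, aeval ξ (pderiv a (p * X i)) * η a =
        (aeval (fun a => ξ a + η a) p - aeval ξ p - ∑ a, aeval ξ (pderiv a p) * η a) * ξ i +
        (aeval (fun a => ξ a + η a) p - aeval ξ p) * η i := by
      have h1 : ∀ a, aeval ξ (pderiv a (p * X i)) * η a =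
          aeval ξ (pderiv a p) * η a * ξ i + (if i = a then aeval ξ p * η a else 0) := by
        intro a
        rw [Derivation.leibniz, pderiv_X, map_add, smul_eq_mul, smul_eq_mul, map_mul, map_mul,
          aeval_X]
        by_cases h : i = a
        · subst h
          simp
          ring
        · simp [h]
          ring
      rw [Finset.sum_congr rfl fun a _ => h1 a, Finset.sum_add_distrib, Finset.sum_ite_eq,
        if_pos (Finset.mem_univ _), ← Finset.sum_mul, map_mul, map_mul, aeval_X, aeval_X]
      ring
    rw [e]
    refine (I ^ 2).add_mem ((I ^ 2).mul_mem_right _ hp) ?_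
    rw [pow_two]
    exact Ideal.mul_mem_mul hdiff (hη i)

section

variable {K : Type} [Field K] {n r : ℕ}

/-- the constant term of a composition -/
theorem const_aeval (ξ : Fin n → MvPolynomial (Fin r) K) (y : Fin n → K)
    (h0 : ∀ a, ξ a - C (y a) ∈ idealOfVars (Fin r) K) (P : MvPolynomial (Fin n) K) :
    aeval ξ P - C (eval y P) ∈ idealOfVars (Fin r) K := by
  induction P using MvPolynomial.induction_on with
  | C c => simp [algebraMap_eq]
  | add p q hp hq =>
    have e : aeval ξ (p + q) - C (eval y (p + q)) =
        (aeval ξ p - C (eval y p)) + (aeval ξ q - C (eval y q)) := by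
      simp only [map_add]
      ring
    rw [e]
    exact Ideal.add_mem _ hp hq
  | mul_X p i hp =>
    have e : aeval ξ (p * X i) - C (eval y (p * X i)) =
        (aeval ξ p - C (eval y p)) * ξ i + C (eval y p) * (ξ i - C (y i)) := by
      simp only [map_mul, aeval_X, eval_X]
      ring
    rw [e]
    exact Ideal.add_mem _ (Ideal.mul_mem_right _ _ hp) (Ideal.mul_mem_left _ _ (h0 i))

/-- the data of a transversal crossing: `J` is the matrix with the gradients of the forms and the
coefficients of the linear form `g` as rows, `J'` its inverse -/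
structure Trans (F : Fin r → MvPolynomial (Fin n) K) (g y : Fin n → K)
    (J' : Fin n → Fin r → K) : Prop where
  zero : ∀ j, eval y (F j) = 0
  one : ∑ a, g a * y a = 1
  inv1 : ∀ i j, ∑ a, eval y (pderiv a (F i)) * J' a j = if i = j then 1 else 0
  inv2 : ∀ j, ∑ a, g a * J' a j = 0
  inv3 : ∀ u : Fin n → K, ∑ a, g a * u a = 0 →
    ∀ b, u b = ∑ j, J' b j * ∑ a, eval y (pderiv a (F j)) * u a

/-- Newton's iteration -/
theorem exists_xi {F : Fin r → MvPolynomial (Fin n) K} {g y : Fin n → K}
    {J' : Fin n → Fin r → K} (T : Trans F g y J') (M : ℕ) :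
    ∃ ξ : Fin n → MvPolynomial (Fin r) K, (∀ a, ξ a - C (y a) ∈ idealOfVars (Fin r) K) ∧
      ∑ a, C (g a) * ξ a = 1 ∧ ∀ j, aeval ξ (F j) - X j ∈ idealOfVars (Fin r) K ^ M := by
  classical
  induction M with
  | zero =>
    refine ⟨fun a => C (y a), fun a => by simp, ?_, fun j => by simp⟩
    simp only [← C_mul, ← map_sum, T.one, C_1]
  | succ M ih =>
    obtain ⟨ξ, h1, h2, h3⟩ := ih
    set m := idealOfVars (Fin r) K with hm
    by_cases hM : M = 0
    · subst hM
      refine ⟨fun a => C (y a), fun a => by simp, ?_, fun j => ?_⟩
      · simp only [← C_mul, ← map_sum, T.one, C_1]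
      · rw [zero_add, pow_one]
        have e : aeval (fun a => (C (y a) : MvPolynomial (Fin r) K)) (F j) = 0 := by
          have h := const_aeval (fun a => (C (y a) : MvPolynomial (Fin r) K)) y
            (fun a => by simp) (F j)
          have h4 : aeval (fun a => (C (y a) : MvPolynomial (Fin r) K)) (F j) =
              C (eval y (F j)) := by
            have h5 := aeval_algebraMap_apply (MvPolynomial (Fin r) K) y (F j)
            have h6 : aeval y (F j) = eval y (F j) := DFunLike.congr_fun (coe_aeval_eq_eval y) _
            rw [h6] at h5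
            exact h5
          rw [h4, T.zero j, C_0]
        rw [e, zero_sub]
        exact neg_mem (Ideal.subset_span ⟨j, rfl⟩)
    set η : Fin n → MvPolynomial (Fin r) K := fun a => ∑ j, C (J' a j) * (X j - aeval ξ (F j))
      with hη
    have hηM : ∀ a, η a ∈ m ^ M := by
      intro a
      refine Ideal.sum_mem _ fun j _ => Ideal.mul_mem_left _ _ ?_
      have := h3 j
      rw [← neg_mem_iff, neg_sub] at this
      exact this
    have hη1 : ∀ a, η a ∈ m := fun a => Ideal.pow_le_self hM (hηM a)
    refine ⟨fun a => ξ a + η a, fun a => ?_, ?_, fun j => ?_⟩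
    · have e : ξ a + η a - C (y a) = (ξ a - C (y a)) + η a := by ring
      rw [e]
      exact Ideal.add_mem _ (h1 a) (hη1 a)
    · simp only [mul_add, Finset.sum_add_distrib, h2]
      have e : ∑ a, C (g a) * η a = ∑ j, C (∑ a, g a * J' a j) * (X j - aeval ξ (F j)) := by
        simp only [hη, Finset.mul_sum]
        rw [Finset.sum_comm]
        refine Finset.sum_congr rfl fun j _ => ?_
        rw [map_sum, Finset.sum_mul]
        refine Finset.sum_congr rfl fun a _ => ?_
        rw [C_mul]
        ring
      rw [e]
      simp [T.inv2]
    · have ht := taylor2 (m ^ M) ξ η hηM (F j)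
      have hpow : (m ^ M) ^ 2 ≤ m ^ (M + 1) := by
        rw [← pow_mul]
        exact Ideal.pow_le_pow_right (by omega)
      have ht' := hpow ht
      -- the linear term
      have hlin : ∑ a, aeval ξ (pderiv a (F j)) * η a - (X j - aeval ξ (F j)) ∈ m ^ (M + 1) := by
        have e1 : ∑ a, C (eval y (pderiv a (F j))) * η a = X j - aeval ξ (F j) := by
          have e2 : ∑ a, C (eval y (pderiv a (F j))) * η a =
              ∑ i, C (∑ a, eval y (pderiv a (F j)) * J' a i) * (X i - aeval ξ (F i)) := by
            simp only [hη, Finset.mul_sum]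
            rw [Finset.sum_comm]
            refine Finset.sum_congr rfl fun i _ => ?_
            rw [map_sum, Finset.sum_mul]
            refine Finset.sum_congr rfl fun a _ => ?_
            rw [C_mul]
            ring
          rw [e2]
          simp only [T.inv1]
          rw [Finset.sum_eq_single j]
          · simp
          · intro i _ hi
            rw [if_neg (Ne.symm hi), C_0, zero_mul]
          · intro h
            exact absurd (Finset.mem_univ _) h
        rw [← e1, ← Finset.sum_sub_distrib]
        refine Ideal.sum_mem _ fun a _ => ?_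
        rw [← sub_mul, pow_succ']
        exact Ideal.mul_mem_mul (const_aeval ξ y h1 _) (hηM a)
      have e : aeval (fun a => ξ a + η a) (F j) - X j =
          (aeval (fun a => ξ a + η a) (F j) - aeval ξ (F j) -
            ∑ a, aeval ξ (pderiv a (F j)) * η a) +
          (∑ a, aeval ξ (pderiv a (F j)) * η a - (X j - aeval ξ (F j))) := by ring
      rw [e]
      exact Ideal.add_mem _ ht' hlin

end

end Run7.h684.VC
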