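import Mathlib
import Pool.Agent.Run7.h684.Xi
import Pool.Agent.Run7.h684.Fil
import Pool.Agent.Run7.h684.Dim

set_option autoImplicit false

/-!
Lower bounds for the sum of the orders at a transversal crossing point.
-/

namespace Run7.h684.VC

open MvPolynomial Finset Module

/-- the weight of an exponent -/
def om {r : ℕ} (w : Fin r → ℕ) (b : Fin r →₀ ℕ) : ℕ := ∑ j, w j * b j

theorem om_add {r : ℕ} (w w' : Fin r → ℕ) (b : Fin r →₀ ℕ) :
    om (fun j => w j + w' j) b = om w b + om w' b := by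
  simp only [om, add_mul, Finset.sum_add_distrib]

theorem om_add' {r : ℕ} (w : Fin r → ℕ) (b b' : Fin r →₀ ℕ) :
    om w (b + b') = om w b + om w b' := by
  simp only [om, Finsupp.add_apply, mul_add, Finset.sum_add_distrib]

/-- the exponents of degree less than `M` -/
def Bs (r M : ℕ) : Finset (Fin r →₀ ℕ) :=
  (range M).biUnion fun s => (Finset.univ : Finset (Fin r)).finsuppAntidiag s

theorem mem_Bs {r M : ℕ} {b : Fin r →₀ ℕ} : b ∈ Bs r M ↔ b.degree < M := by
  rw [Bs, Finset.mem_biUnion]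
  constructor
  · rintro ⟨s, hs, hb⟩
    rw [mem_finsuppAntidiag] at hb
    rw [Finsupp.degree_eq_sum, hb.1]
    exact Finset.mem_range.1 hs
  · intro h
    refine ⟨b.degree, Finset.mem_range.2 h, ?_⟩
    rw [mem_finsuppAntidiag, Finsupp.degree_eq_sum]
    exact ⟨rfl, Finset.subset_univ _⟩

variable {K : Type} [Field K] {r : ℕ}

/-- the coefficients of the expansion of a form at the crossing point -/
noncomputable def cb (ξ : Fin (r + 1) → MvPolynomial (Fin r) K) (N : ℕ) (b : Fin r →₀ ℕ) :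
    homogeneousSubmodule (Fin (r + 1)) K N →ₗ[K] K where
  toFun P := coeff b (aeval ξ P.1)
  map_add' P Q := by
    show coeff b (aeval ξ (P.1 + Q.1)) = _
    rw [map_add, coeff_add]
  map_smul' c P := by
    show coeff b (aeval ξ (c • P.1)) = _
    rw [map_smul, coeff_smul]
    rfl

theorem cb_apply (ξ : Fin (r + 1) → MvPolynomial (Fin r) K) (N : ℕ) (b : Fin r →₀ ℕ)
    (P : homogeneousSubmodule (Fin (r + 1)) K N) : cb ξ N b P = coeff b (aeval ξ P.1) := rfl

instance finHom (n t : ℕ) : Module.Finite K (homogeneousSubmodule (Fin n) K t) :=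
  Module.Finite.iff_fg.mpr (homogeneousSubmodule_fg (Fin n) K t)

theorem Sf_sum {V : Type} [AddCommGroup V] [Module K V] [FiniteDimensional K V] {β : Type}
    (c : β → V →ₗ[K] K) (B : Finset β) {ι : Type} [DecidableEq ι] (s : Finset ι) (ω : ι → β → ℕ)
    (T : ι → ℕ) : ∑ i ∈ s, Sf c B (ω i) (T i) ≤ Sf c B (fun b => ∑ i ∈ s, ω i b)
      (∑ i ∈ s, T i) := by
  induction s using Finset.induction_on with
  | empty => simp
  | insert i s hi ih =>
    rw [Finset.sum_insert hi, Finset.sum_insert hi]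
    have h1 : (fun b => ∑ i ∈ insert i s, ω i b) = fun b => ω i b + ∑ i ∈ s, ω i b := by
      funext b
      rw [Finset.sum_insert hi]
    rw [h1]
    exact (Nat.add_le_add_left ih _).trans (Sf_add c B _ _ _ _)

theorem sum_block (u A : ℕ) (hu : 0 < u) (g : ℕ → ℕ) :
    ∑ t ∈ range (u * A), g (t / u) = u * ∑ a ∈ range A, g a := by
  induction A with
  | zero => simp
  | succ A ih =>
    rw [Nat.mul_succ, Finset.sum_range_add, ih, Finset.sum_range_succ, Nat.mul_add]
    congr 1
    have h : ∀ s ∈ range u, g ((u * A + s) / u) = g A := by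
      intro s hs
      rw [Nat.mul_add_div hu, Nat.div_eq_of_lt (Finset.mem_range.1 hs), Nat.add_zero]
    rw [Finset.sum_congr rfl h, Finset.sum_const, card_range, smul_eq_mul]

section point

variable {F : Fin r → MvPolynomial (Fin (r + 1)) K} {d : Fin r → ℕ} {g y : Fin (r + 1) → K}
  {J' : Fin (r + 1) → Fin r → K} {M : ℕ} {ξ : Fin (r + 1) → MvPolynomial (Fin r) K}

theorem coeff_div (h3 : ∀ j, aeval ξ (F j) - X j ∈ idealOfVars (Fin r) K ^ M) (j : Fin r) (a : ℕ)
    (Q : MvPolynomial (Fin (r + 1)) K) (b : Fin r →₀ ℕ) (hb : b.degree < M) (hba : b j < a) :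
    coeff b (aeval ξ (F j ^ a * Q)) = 0 := by
  have h4 : (aeval ξ (F j)) ^ a - X j ^ a ∈ idealOfVars (Fin r) K ^ M :=
    Ideal.mem_of_dvd _ (sub_dvd_pow_sub_pow _ _ _) (h3 j)
  have e : aeval ξ (F j ^ a * Q) = ((aeval ξ (F j)) ^ a - X j ^ a) * aeval ξ Q +
      monomial (Finsupp.single j a) 1 * aeval ξ Q := by
    rw [map_mul, map_pow, ← X_pow_eq_monomial]
    ring
  rw [e, coeff_add]
  have h5 : ((aeval ξ (F j)) ^ a - X j ^ a) * aeval ξ Q ∈ idealOfVars (Fin r) K ^ M :=
    Ideal.mul_mem_right _ _ h4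
  rw [mem_pow_idealOfVars_iff'] at h5
  rw [h5 b hb, zero_add, coeff_monomial_mul', if_neg]
  intro h6
  have h7 := h6 j
  rw [Finsupp.single_eq_same] at h7
  omega

/-- one divisor -/
theorem S_div (h3 : ∀ j, aeval ξ (F j) - X j ∈ idealOfVars (Fin r) K ^ M)
    (hF : ∀ j, (F j).IsHomogeneous (d j)) (hF0 : ∀ j, F j ≠ 0) (N : ℕ) (j : Fin r) (u A : ℕ)
    (hA : A * d j ≤ N) :
    u * ∑ a ∈ range A, (N - (a + 1) * d j + r).choose r ≤
      Sf (cb ξ N) (Bs r M) (om (Pi.single j u)) (u * A) := by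
  classical
  rcases Nat.eq_zero_or_pos u with hu | hu
  · subst hu
    simp
  rw [← sum_block u A hu fun a => (N - (a + 1) * d j + r).choose r, Sf]
  refine Finset.sum_le_sum fun t ht => ?_
  set a := t / u + 1 with ha
  have htA : t / u < A := by
    rw [Nat.div_lt_iff_lt_mul hu, mul_comm]
    exact Finset.mem_range.1 ht
  have haN : a * d j ≤ N := (Nat.mul_le_mul_right _ (by omega)).trans hA
  set U := (homogeneousSubmodule (Fin (r + 1)) K (N - a * d j)).map
    (LinearMap.mulLeft K (F j ^ a)) with hU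
  have hinj : Function.Injective (LinearMap.mulLeft K (F j ^ a)) := by
    intro p q hpq
    exact mul_left_cancel₀ (pow_ne_zero a (hF0 j)) hpq
  have hUfr : finrank K U = (N - a * d j + r).choose r := by
    rw [← finrank_hom K r (N - a * d j)]
    exact (Submodule.equivMapOfInjective _ hinj _).finrank_eq.symm
  set W := Wf (cb ξ N) (Bs r M) (om (Pi.single j u)) (t + 1) with hW
  have hWfr : finrank K (W.map (homogeneousSubmodule (Fin (r + 1)) K N).subtype) = finrank K W :=
    (Submodule.equivMapOfInjective _ (Submodule.injective_subtype _) _).finrank_eq.symm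
  rw [← hUfr, ← hWfr]
  refine Submodule.finrank_mono ?_
  rintro _ ⟨Q, hQ, rfl⟩
  rw [SetLike.mem_coe, mem_homogeneousSubmodule] at hQ
  have hhom : (F j ^ a * Q).IsHomogeneous N := by
    have h4 := ((hF j).pow a).mul hQ
    have e : d j * a + (N - a * d j) = N := by
      rw [mul_comm (d j)]
      omega
    rwa [e] at h4
  refine ⟨⟨F j ^ a * Q, (mem_homogeneousSubmodule _ _).2 hhom⟩, ?_, rfl⟩
  intro b hb hbt
  rw [cb_apply]
  refine coeff_div h3 j a Q b (mem_Bs.1 hb) ?_
  have h5 : om (Pi.single j u) b = u * b j := by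
    rw [om, Finset.sum_eq_single j]
    · rw [Pi.single_eq_same]
    · intro i _ hi
      rw [Pi.single_eq_of_ne hi, zero_mul]
    · intro h
      exact absurd (Finset.mem_univ _) h
  rw [h5] at hbt
  have h6 : t < u * a := by
    have := Nat.lt_mul_div_succ t hu
    exact this
  have h7 : u * b j < u * a := by omega
  exact lt_of_mul_lt_mul_left h7 (Nat.zero_le _)

/-- all divisors -/
theorem S_divs (h3 : ∀ j, aeval ξ (F j) - X j ∈ idealOfVars (Fin r) K ^ M)
    (hF : ∀ j, (F j).IsHomogeneous (d j)) (hF0 : ∀ j, F j ≠ 0) (N : ℕ) (u A : Fin r → ℕ)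
    (hA : ∀ j, A j * d j ≤ N) :
    ∑ j, u j * ∑ a ∈ range (A j), (N - (a + 1) * d j + r).choose r ≤
      Sf (cb ξ N) (Bs r M) (om u) (∑ j, u j * A j) := by
  classical
  have h1 := Sf_sum (cb ξ N) (Bs r M) Finset.univ (fun j : Fin r => om (Pi.single j (u j)))
    (fun j => u j * A j)
  have h2 : (fun b => ∑ j : Fin r, om (Pi.single j (u j)) b) = om u := by
    funext b
    have h5 : ∀ j, om (Pi.single j (u j)) b = u j * b j := by
      intro j
      rw [om, Finset.sum_eq_single j]
      · rw [Pi.single_eq_same]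
      · intro i _ hi
        rw [Pi.single_eq_of_ne hi, zero_mul]
      · intro h
        exact absurd (Finset.mem_univ _) h
    rw [Finset.sum_congr rfl fun j _ => h5 j, om]
  rw [h2] at h1
  exact (Finset.sum_le_sum fun j _ => S_div h3 hF hF0 N j (u j) (A j) (hA j)).trans h1

/-! ### linear forms -/

theorem ord_mul (w : Fin r → ℕ) {p q : MvPolynomial (Fin r) K} {s t : ℕ}
    (hp : ∀ b ∈ p.support, s ≤ om w b) (hq : ∀ b ∈ q.support, t ≤ om w b) :
    ∀ b ∈ (p * q).support, s + t ≤ om w b := by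
  classical
  intro b hb
  obtain ⟨b1, hb1, b2, hb2, rfl⟩ := Finset.mem_add.1 (support_mul p q hb)
  rw [om_add']
  exact add_le_add (hp b1 hb1) (hq b2 hb2)

theorem ord_pow (w : Fin r → ℕ) {p : MvPolynomial (Fin r) K} {s : ℕ}
    (hp : ∀ b ∈ p.support, s ≤ om w b) (m : ℕ) : ∀ b ∈ (p ^ m).support, m * s ≤ om w b := by
  induction m with
  | zero =>
    intro b _
    rw [zero_mul]
    exact Nat.zero_le _
  | succ m ih =>
    rw [pow_succ, Nat.succ_mul]
    exact ord_mul w ih hp

theorem ord_prod (w : Fin r → ℕ) {ι : Type} (s : Finset ι) (p : ι → MvPolynomial (Fin r) K)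
    (o : ι → ℕ) (hp : ∀ i ∈ s, ∀ b ∈ (p i).support, o i ≤ om w b) :
    ∀ b ∈ (∏ i ∈ s, p i).support, ∑ i ∈ s, o i ≤ om w b := by
  classical
  induction s using Finset.induction_on with
  | empty =>
    intro b _
    simp
  | insert i s hi ih =>
    rw [Finset.prod_insert hi, Finset.sum_insert hi]
    exact ord_mul w (hp i (Finset.mem_insert_self _ _))
      (ih fun j hj => hp j (Finset.mem_insert_of_mem hj))

/-- the linear forms of a crossing point -/
noncomputable def lf (F : Fin r → MvPolynomial (Fin (r + 1)) K) (g y : Fin (r + 1) → K) :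
    Fin (r + 1) → MvPolynomial (Fin (r + 1)) K :=
  Fin.cons (∑ a, C (g a) * X a) fun j => ∑ a, C (eval y (pderiv a (F j))) * X a

theorem lf_hom (i : Fin (r + 1)) : (lf F g y i).IsHomogeneous 1 := by
  refine Fin.cases ?_ (fun j => ?_) i
  · rw [lf, Fin.cons_zero]
    refine IsHomogeneous.sum _ _ _ fun a _ => ?_
    simpa using (isHomogeneous_C (Fin (r + 1)) (g a)).mul (isHomogeneous_X K a)
  · rw [lf, Fin.cons_succ]
    refine IsHomogeneous.sum _ _ _ fun a _ => ?_
    simpa using (isHomogeneous_C (Fin (r + 1)) (eval y (pderiv a (F j)))).mul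
      (isHomogeneous_X K a)

theorem euler_zero (T : Trans F g y J') (hF : ∀ j, (F j).IsHomogeneous (d j)) (j : Fin r) :
    ∑ a, eval y (pderiv a (F j)) * y a = 0 := by
  have h1 := congrArg (eval y) (hF j).sum_X_mul_pderiv
  rw [map_sum, map_nsmul, T.zero j, nsmul_zero] at h1
  rw [← h1]
  refine Finset.sum_congr rfl fun a _ => ?_
  rw [map_mul, eval_X, mul_comm]

theorem lf_xi (T : Trans F g y J') (hF : ∀ j, (F j).IsHomogeneous (d j)) (hM : 2 ≤ M)
    (h1 : ∀ a, ξ a - C (y a) ∈ idealOfVars (Fin r) K)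
    (h3 : ∀ j, aeval ξ (F j) - X j ∈ idealOfVars (Fin r) K ^ M) (j : Fin r) :
    aeval ξ (lf F g y j.succ) - X j ∈ idealOfVars (Fin r) K ^ 2 := by
  have ht := taylor2 (K := K) (idealOfVars (Fin r) K) (fun a => C (y a))
    (fun a => ξ a - C (y a)) h1 (F j)
  have e0 : (fun a => C (y a) + (ξ a - C (y a))) = ξ := by
    funext a
    ring
  rw [e0] at ht
  have hc : ∀ P : MvPolynomial (Fin (r + 1)) K,
      aeval (fun a => (C (y a) : MvPolynomial (Fin r) K)) P = C (eval y P) := by
    intro P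
    have h5 := aeval_algebraMap_apply (MvPolynomial (Fin r) K) y P
    have h6 : aeval y P = eval y P := DFunLike.congr_fun (coe_aeval_eq_eval y) _
    rw [h6] at h5
    exact h5
  simp only [hc] at ht
  rw [T.zero j, C_0, sub_zero] at ht
  have e1 : ∑ a, C (eval y (pderiv a (F j))) * (ξ a - C (y a)) =
      aeval ξ (lf F g y j.succ) := by
    rw [lf, Fin.cons_succ, map_sum]
    simp only [mul_sub, Finset.sum_sub_distrib, map_mul, aeval_X, aeval_C, algebraMap_eq]
    rw [sub_eq_self]
    simp only [← C_mul, ← map_sum]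
    rw [euler_zero T hF j, C_0]
  rw [e1] at ht
  have h4 := Ideal.pow_le_pow_right hM (h3 j)
  have e2 : aeval ξ (lf F g y j.succ) - X j = (aeval ξ (F j) - X j) -
      (aeval ξ (F j) - aeval ξ (lf F g y j.succ)) := by ring
  rw [e2]
  exact Ideal.sub_mem _ h4 ht

/-- the inverse substitution -/
noncomputable def psi (y : Fin (r + 1) → K) (J' : Fin (r + 1) → Fin r → K) :
    MvPolynomial (Fin (r + 1)) K →ₐ[K] MvPolynomial (Fin (r + 1)) K :=
  aeval fun a => C (y a) * X 0 + ∑ j, C (J' a j) * X (Fin.succ j)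

theorem psi_lf (T : Trans F g y J') (hF : ∀ j, (F j).IsHomogeneous (d j)) (i : Fin (r + 1)) :
    psi y J' (lf F g y i) = X i := by
  have key : ∀ c : Fin (r + 1) → K, psi y J' (∑ a, C (c a) * X a) =
      C (∑ a, c a * y a) * X 0 + ∑ j, C (∑ a, c a * J' a j) * X (Fin.succ j) := by
    intro c
    rw [map_sum]
    have e : ∀ a, psi y J' (C (c a) * X a) = C (c a * y a) * X 0 +
        ∑ j, C (c a * J' a j) * X (Fin.succ j) := by
      intro a
      rw [psi, map_mul, aeval_X, aeval_C, algebraMap_eq, mul_add, Finset.mul_sum, C_mul, mul_assoc]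
      congr 1
      refine Finset.sum_congr rfl fun j _ => ?_
      rw [C_mul, mul_assoc]
    rw [Finset.sum_congr rfl fun a _ => e a, Finset.sum_add_distrib, ← Finset.sum_mul, ← map_sum,
      Finset.sum_comm]
    congr 1
    refine Finset.sum_congr rfl fun j _ => ?_
    rw [← Finset.sum_mul, ← map_sum]
  refine Fin.cases ?_ (fun i => ?_) i
  · rw [lf, Fin.cons_zero, key, T.one]
    simp [T.inv2]
  · rw [lf, Fin.cons_succ, key, euler_zero T hF i]
    simp only [T.inv1, C_0, zero_mul, zero_add]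
    rw [Finset.sum_eq_single i]
    · rw [if_pos rfl, C_1, one_mul]
    · intro j _ hj
      rw [if_neg (Ne.symm hj), C_0, zero_mul]
    · intro h
      exact absurd (Finset.mem_univ _) h

/-- the balanced part -/
theorem S_lin (T : Trans F g y J') (hF : ∀ j, (F j).IsHomogeneous (d j)) (hM : 2 ≤ M)
    (h1 : ∀ a, ξ a - C (y a) ∈ idealOfVars (Fin r) K) (h2 : ∑ a, C (g a) * ξ a = 1)
    (h3 : ∀ j, aeval ξ (F j) - X j ∈ idealOfVars (Fin r) K ^ M) (N : ℕ) (z : Fin r → ℕ)
    (hz : ∀ i j, z i ≤ 2 * z j) (Zm : ℕ) (hZm : ∀ j, z j ≤ Zm) :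
    (∑ j, z j) * (N * (N + r).choose r) ≤ (r + 1) * Sf (cb ξ N) (Bs r M) (om z) (Zm * N) := by
  classical
  set A := (Finset.univ : Finset (Fin (r + 1))).finsuppAntidiag N with hA
  set P : (Fin (r + 1) →₀ ℕ) → MvPolynomial (Fin (r + 1)) K := fun b => ∏ i, lf F g y i ^ b i
    with hP
  have hPhom : ∀ b, (P b).IsHomogeneous b.degree := by
    intro b
    rw [Finsupp.degree_eq_sum]
    have h5 := IsHomogeneous.prod (Finset.univ : Finset (Fin (r + 1)))
      (fun i => lf F g y i ^ b i) (fun i => 1 * b i) fun i _ => (lf_hom i).pow (b i)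
    simpa using h5
  let e : A → homogeneousSubmodule (Fin (r + 1)) K N := fun b =>
    ⟨P b.1, (mem_homogeneousSubmodule _ _).2 (by
      have h5 := hPhom b.1
      rw [mem_anti.1 b.2] at h5
      exact h5)⟩
  have hli : LinearIndependent K e := by
    apply LinearIndependent.of_comp
      ((psi y J').toLinearMap.comp (homogeneousSubmodule (Fin (r + 1)) K N).subtype)
    have h5 : (⇑((psi y J').toLinearMap.comp (homogeneousSubmodule (Fin (r + 1)) K N).subtype) ∘ e)
        = fun b : A => monomial b.1 (1 : K) := by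
      funext b
      show psi y J' (∏ i, lf F g y i ^ b.1 i) = _
      rw [map_prod]
      simp only [map_pow, psi_lf T hF]
      rw [monomial_eq, C_1, one_mul, Finsupp.prod_fintype _ _ (fun i => pow_zero _)]
    rw [h5]
    have h6 : LinearIndependent K (fun b : Fin (r + 1) →₀ ℕ => (monomial b (1 : K) :
        MvPolynomial (Fin (r + 1)) K)) := by
      have := (basisMonomials (Fin (r + 1)) K).linearIndependent
      simpa using this
    exact h6.comp _ Subtype.val_injective
  -- the orders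
  set o : (Fin (r + 1) →₀ ℕ) → ℕ := fun b => ∑ j : Fin r, z j * b j.succ with ho
  have hlf : ∀ j : Fin r, ∀ b ∈ (aeval ξ (lf F g y j.succ)).support, z j ≤ om z b := by
    intro j b hb
    have h5 := lf_xi T hF hM h1 h3 j
    rw [mem_pow_idealOfVars_iff'] at h5
    by_cases hb2 : b.degree < 2
    · have h6 := h5 b hb2
      rw [coeff_sub, sub_eq_zero] at h6
      rw [MvPolynomial.mem_support_iff, h6, coeff_X] at hb
      have h7 : Finsupp.single j 1 = b := by
        by_contra hne
        rw [if_neg hne] at hb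
        exact hb rfl
      rw [← h7, om, Finset.sum_eq_single j]
      · rw [Finsupp.single_eq_same, mul_one]
      · intro i _ hi
        rw [Finsupp.single_eq_of_ne (by exact hi), mul_zero]
      · intro h
        exact absurd (Finset.mem_univ _) h
    · have h6 : 2 * z j ≤ 2 * om z b := by
        have h7 : b.degree * z j ≤ 2 * om z b := by
          rw [Finsupp.degree_eq_sum, Finset.sum_mul, om, Finset.mul_sum]
          refine Finset.sum_le_sum fun i _ => ?_
          have h8 := hz j i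
          calc b i * z j ≤ b i * (2 * z i) := Nat.mul_le_mul_left _ h8
            _ = 2 * (z i * b i) := by ring
        have h9 : 2 * z j ≤ b.degree * z j := Nat.mul_le_mul_right _ (not_lt.1 hb2)
        omega
      omega
  have hord : ∀ b, ∀ b' ∈ (aeval ξ (P b)).support, o b ≤ om z b' := by
    intro b
    have h5 : aeval ξ (P b) = ∏ i, (aeval ξ (lf F g y i)) ^ b i := by
      rw [hP]
      simp only [map_prod, map_pow]
    rw [h5]
    have h6 := ord_prod z (Finset.univ : Finset (Fin (r + 1)))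
      (fun i => (aeval ξ (lf F g y i)) ^ b i) (fun i => b i * (Fin.cons 0 z : Fin (r + 1) → ℕ) i)
      (fun i _ => ord_pow z (by
        refine Fin.cases ?_ (fun j => ?_) i
        · intro b' _
          rw [Fin.cons_zero]
          exact Nat.zero_le _
        · rw [Fin.cons_succ]
          exact hlf j) (b i))
    have h7 : ∑ i, b i * (Fin.cons 0 z : Fin (r + 1) → ℕ) i = o b := by
      rw [Fin.sum_univ_succ, Fin.cons_zero, mul_zero, zero_add, ho]
      refine Finset.sum_congr rfl fun j _ => ?_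
      rw [Fin.cons_succ, mul_comm]
    rw [h7] at h6
    exact h6
  let eq := (Fintype.equivFin A).symm
  have hsum := sum_le_Sf (cb ξ N) (Bs r M) (om z) (Zm * N) (fun i => e (eq i))
    (hli.comp _ eq.injective) (fun i => o (eq i).1) (by
      intro i
      have h5 := mem_anti.1 (eq i).2
      rw [Finsupp.degree_eq_sum, Fin.sum_univ_succ] at h5
      calc o (eq i).1 = ∑ j : Fin r, z j * (eq i).1 j.succ := rfl
        _ ≤ ∑ j : Fin r, Zm * (eq i).1 j.succ :=
            Finset.sum_le_sum fun j _ => Nat.mul_le_mul_right _ (hZm j)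
        _ = Zm * ∑ j : Fin r, (eq i).1 j.succ := by rw [Finset.mul_sum]
        _ ≤ Zm * N := Nat.mul_le_mul_left _ (by omega)) (by
      intro i b hb hbt
      rw [cb_apply]
      by_contra hne
      have h5 := hord (eq i).1 b (MvPolynomial.mem_support_iff.2 hne)
      omega)
  have h5 : ∑ i, o (eq i).1 = ∑ b ∈ A, o b := by
    rw [← Finset.sum_coe_sort A o]
    exact Equiv.sum_comp eq fun b : A => o b.1
  rw [h5] at hsum
  have h6 : (r + 1) * ∑ b ∈ A, o b = (∑ j, z j) * (N * (N + r).choose r) := by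
    rw [ho, Finset.sum_comm, Finset.mul_sum, Finset.sum_mul]
    refine Finset.sum_congr rfl fun j _ => ?_
    rw [← Finset.mul_sum, ← sum_exp r N j.succ]
    ring
  rw [← h6]
  exact Nat.mul_le_mul_left _ hsum

/-- the part of the volume -/
theorem S_vol (N : ℕ) (v : Fin r → ℕ) (hv : ∀ j, 1 ≤ v j) (T : ℕ) :
    ((T : ℝ) * (N + r).choose r) * (r.factorial * ∏ j, (v j : ℝ)) -
      ∑ t ∈ range T, ((t : ℝ) + 1 + ∑ j, (v j : ℝ)) ^ r ≤
      (Sf (cb ξ N) (Bs r M) (om v) T : ℝ) * (r.factorial * ∏ j, (v j : ℝ)) := by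
  have hP : (0 : ℝ) ≤ r.factorial * ∏ j, (v j : ℝ) := by positivity
  have h1 : ∀ t ∈ range T, ((N + r).choose r : ℝ) * (r.factorial * ∏ j, (v j : ℝ)) -
      ((t : ℝ) + 1 + ∑ j, (v j : ℝ)) ^ r ≤
      (finrank K (Wf (cb ξ N) (Bs r M) (om v) (t + 1)) : ℝ) * (r.factorial * ∏ j, (v j : ℝ)) := by
    intro t _
    have h2 := finrank_Wf (cb ξ N) (Bs r M) (om v) (t + 1)
    rw [finrank_hom K r N] at h2
    have h3 := count_le r v hv (t + 1) (Bs r M)
    push_cast at h3
    have h4 : ((N + r).choose r : ℝ) ≤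
        (finrank K (Wf (cb ξ N) (Bs r M) (om v) (t + 1)) : ℝ) +
        (((Bs r M).filter fun b => om v b < t + 1).card : ℝ) := by exact_mod_cast h2
    have h5 := mul_le_mul_of_nonneg_right h4 hP
    have h6 : (((Bs r M).filter fun b => om v b < t + 1).card : ℝ) *
        (r.factorial * ∏ j, (v j : ℝ)) ≤ ((t : ℝ) + 1 + ∑ j, (v j : ℝ)) ^ r := h3
    rw [add_mul] at h5
    linarith
  have h2 := Finset.sum_le_sum h1
  rw [Finset.sum_sub_distrib, Finset.sum_const, card_range, nsmul_eq_mul, ← Finset.sum_mul] at h2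
  have h3 : ((Sf (cb ξ N) (Bs r M) (om v) T : ℕ) : ℝ) =
      ∑ t ∈ range T, (finrank K (Wf (cb ξ N) (Bs r M) (om v) (t + 1)) : ℝ) := by
    rw [Sf]
    push_cast
    rfl
  rw [h3]
  linarith

end point

end Run7.h684.VC
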