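import Mathlib
import Pool.Agent.Run7.h684.Low

set_option autoImplicit false

/-!
The asymptotic lower bound for the sum of the orders at a transversal crossing point.
-/

namespace Run7.h684.VC

open MvPolynomial Finset Module Filter Topology

theorem lin_tendsto (a b : ℝ) : Tendsto (fun N : ℕ => (a * N + b) / N) atTop (𝓝 a) := by
  have h1 : Tendsto (fun N : ℕ => a + b / (N : ℝ)) atTop (𝓝 (a + 0)) :=
    tendsto_const_nhds.add (tendsto_const_div_atTop_nhds_zero_nat b)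
  rw [add_zero] at h1
  refine h1.congr' ?_
  filter_upwards [eventually_gt_atTop 0] with N hN
  have : (N : ℝ) ≠ 0 := by exact_mod_cast hN.ne'
  field_simp

theorem choose_low (n r : ℕ) : (n : ℝ) ^ r ≤ ((n + r).choose r : ℝ) * r.factorial := by
  have h1 : n ^ r ≤ (n + r).choose r * r.factorial := by
    rw [mul_comm, ← Nat.descFactorial_eq_factorial_mul_choose]
    have h2 := Nat.pow_sub_le_descFactorial (n + r) r
    refine le_trans (Nat.pow_le_pow_left ?_ r) h2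
    omega
  exact_mod_cast h1

theorem choose_up (n r : ℕ) : ((n + r).choose r : ℝ) * r.factorial ≤ ((n : ℝ) + r) ^ r := by
  have h1 : (n + r).choose r * r.factorial ≤ (n + r) ^ r := by
    rw [mul_comm, ← Nat.descFactorial_eq_factorial_mul_choose]
    exact Nat.descFactorial_le_pow _ _
  exact_mod_cast h1

/-- the sum for one divisor -/
theorem div_sum (r N d : ℕ) (hd : 0 < d) :
    ((N - d : ℕ) : ℝ) ^ (r + 1) ≤ (((r : ℝ) + 1) * d) *
      ((∑ a ∈ range (N / d), (N - (a + 1) * d + r).choose r : ℕ) * r.factorial) := by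
  have h1 : ∀ a : ℕ, ((N - (a + 1) * d : ℕ) : ℝ) ^ (r + 1) -
      ((N - (a + 1 + 1) * d : ℕ) : ℝ) ^ (r + 1) ≤
      (((r : ℝ) + 1) * d) * ((N - (a + 1) * d + r).choose r * r.factorial) := by
    intro a
    have h2 : N - (a + 1 + 1) * d ≤ N - (a + 1) * d := by
      have : (a + 1) * d ≤ (a + 1 + 1) * d := Nat.mul_le_mul_right _ (by omega)
      omega
    have h2' : ((N - (a + 1 + 1) * d : ℕ) : ℝ) ≤ ((N - (a + 1) * d : ℕ) : ℝ) := by
      exact_mod_cast h2
    have h3 := pow_up' (Nat.cast_nonneg (N - (a + 1 + 1) * d)) h2' r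
    have h4 : ((N - (a + 1) * d : ℕ) : ℝ) - ((N - (a + 1 + 1) * d : ℕ) : ℝ) ≤ d := by
      have h5 : N - (a + 1) * d ≤ N - (a + 1 + 1) * d + d := by
        have : (a + 1 + 1) * d = (a + 1) * d + d := by ring
        omega
      have h6 : ((N - (a + 1) * d : ℕ) : ℝ) ≤ ((N - (a + 1 + 1) * d : ℕ) : ℝ) + d := by
        exact_mod_cast h5
      linarith
    have h5 := choose_low (N - (a + 1) * d) r
    have h6 : (0 : ℝ) ≤ ((N - (a + 1) * d : ℕ) : ℝ) ^ r := by positivity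
    calc _ ≤ ((r : ℝ) + 1) * (((N - (a + 1) * d : ℕ) : ℝ) - ((N - (a + 1 + 1) * d : ℕ) : ℝ)) *
          ((N - (a + 1) * d : ℕ) : ℝ) ^ r := h3
      _ ≤ ((r : ℝ) + 1) * d * ((N - (a + 1) * d : ℕ) : ℝ) ^ r := by
          refine mul_le_mul_of_nonneg_right ?_ h6
          exact mul_le_mul_of_nonneg_left h4 (by positivity)
      _ ≤ _ := mul_le_mul_of_nonneg_left h5 (by positivity)
  have h2 := Finset.sum_le_sum fun a (_ : a ∈ range (N / d)) => h1 a
  rw [Finset.sum_range_sub' (fun a => ((N - (a + 1) * d : ℕ) : ℝ) ^ (r + 1))] at h2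
  have h3 : N - (N / d + 1) * d = 0 := by
    have := Nat.lt_div_mul_add hd (a := N)
    have e : (N / d + 1) * d = N / d * d + d := by ring
    omega
  rw [h3, Nat.cast_zero, zero_pow (Nat.succ_ne_zero r), sub_zero, zero_add, one_mul,
    ← Finset.mul_sum, ← Finset.sum_mul] at h2
  push_cast
  exact h2

theorem pow_sum (r T : ℕ) (Y : ℝ) (hY : 0 ≤ Y) :
    ((r : ℝ) + 1) * ∑ t ∈ range T, ((t : ℝ) + 1 + Y) ^ r ≤ ((T : ℝ) + 1 + Y) ^ (r + 1) := by
  have h1 : ∀ t ∈ range T, ((r : ℝ) + 1) * ((t : ℝ) + 1 + Y) ^ r ≤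
      (((t + 1 : ℕ) : ℝ) + 1 + Y) ^ (r + 1) - ((t : ℝ) + 1 + Y) ^ (r + 1) := by
    intro t _
    have h2 := pow_low' (x := ((t + 1 : ℕ) : ℝ) + 1 + Y) (y := (t : ℝ) + 1 + Y) (by positivity)
      (by push_cast; linarith) r
    have e : ((t + 1 : ℕ) : ℝ) + 1 + Y - ((t : ℝ) + 1 + Y) = 1 := by push_cast; ring
    rw [e, mul_one] at h2
    exact h2
  have h2 := Finset.sum_le_sum h1
  rw [← Finset.mul_sum, Finset.sum_range_sub (fun t => ((t : ℝ) + 1 + Y) ^ (r + 1))] at h2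
  have h3 : 0 ≤ (((0 : ℕ) : ℝ) + 1 + Y) ^ (r + 1) := by positivity
  linarith

/-- all hypotheses on a crossing point -/
structure CP {K : Type} [Field K] {r : ℕ} (F : Fin r → MvPolynomial (Fin (r + 1)) K)
    (d : Fin r → ℕ) (g y : Fin (r + 1) → K) (J' : Fin (r + 1) → Fin r → K) (M : ℕ)
    (ξ : Fin (r + 1) → MvPolynomial (Fin r) K) : Prop where
  T : Trans F g y J'
  hF : ∀ j, (F j).IsHomogeneous (d j)
  hF0 : ∀ j, F j ≠ 0
  hM : 2 ≤ M
  h1 : ∀ a, ξ a - C (y a) ∈ idealOfVars (Fin r) K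
  h2 : ∑ a, C (g a) * ξ a = 1
  h3 : ∀ j, aeval ξ (F j) - X j ∈ idealOfVars (Fin r) K ^ M

/-- the lower bound -/
theorem S_low (r : ℕ) (hr : 0 < r) (d : Fin r → ℕ) (hd : ∀ j, 0 < d j) (u z v : Fin r → ℕ)
    (hz : ∀ i j, z i ≤ 2 * z j) (ε : ℝ) (hε : 0 < ε) (hε1 : ε ≤ 1) : ∃ N0 : ℕ, ∀ N, N0 ≤ N →
      ∃ T : ℕ, ∀ (K : Type) [Field K] (F : Fin r → MvPolynomial (Fin (r + 1)) K)
        (g y : Fin (r + 1) → K) (J' : Fin (r + 1) → Fin r → K) (M : ℕ)
        (ξ : Fin (r + 1) → MvPolynomial (Fin r) K), CP F d g y J' M ξ →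
        (1 - ε) * (N * (N + r).choose r) * (∑ j, (u j : ℝ) / d j + ∑ j, (z j : ℝ) +
          r * (∏ j, (v j : ℝ)) ^ ((1 : ℝ) / r)) ≤
          (r + 1) * (Sf (cb ξ N) (Bs r M) (om fun j => u j + z j + v j) T : ℝ) := by
  classical
  have hrR : (0 : ℝ) < r := by exact_mod_cast hr
  set dm : ℕ := ∑ j, d j with hdm
  have hdle : ∀ j, d j ≤ dm := fun j =>
    Finset.single_le_sum (f := d) (fun _ _ => Nat.zero_le _) (Finset.mem_univ j)
  set Zm : ℕ := ∑ j, z j with hZm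
  have hZle : ∀ j, z j ≤ Zm := fun j =>
    Finset.single_le_sum (f := z) (fun _ _ => Nat.zero_le _) (Finset.mem_univ j)
  set γ : ℝ := (∏ j, (v j : ℝ)) ^ ((1 : ℝ) / r) with hγ
  have hprod0 : 0 ≤ ∏ j, (v j : ℝ) := Finset.prod_nonneg fun _ _ => Nat.cast_nonneg _
  have hγ0 : 0 ≤ γ := Real.rpow_nonneg hprod0 _
  have hγr : γ ^ r = ∏ j, (v j : ℝ) := by
    rw [hγ, ← Real.rpow_natCast, ← Real.rpow_mul hprod0, one_div_mul_cancel hrR.ne',
      Real.rpow_one]
  set Y : ℝ := ∑ j, (v j : ℝ) with hY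
  have hY0 : 0 ≤ Y := Finset.sum_nonneg fun _ _ => Nat.cast_nonneg _
  -- the two limits
  have hE1 : ∀ᶠ N : ℕ in atTop, (1 - ε) * (((1 : ℝ) * N + r) / N) ^ r ≤
      (((1 : ℝ) * N + (-(dm : ℝ))) / N) ^ (r + 1) := by
    have t1 : Tendsto (fun N : ℕ => (1 - ε) * (((1 : ℝ) * N + r) / N) ^ r) atTop
        (𝓝 ((1 - ε) * 1 ^ r)) := tendsto_const_nhds.mul ((lin_tendsto 1 r).pow r)
    have t2 : Tendsto (fun N : ℕ => (((1 : ℝ) * N + (-(dm : ℝ))) / N) ^ (r + 1)) atTop
        (𝓝 (1 ^ (r + 1))) := (lin_tendsto 1 (-(dm : ℝ))).pow (r + 1)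
    refine (t1.eventually_lt t2 ?_).mono fun N h => h.le
    rw [one_pow, one_pow]
    linarith
  have hE2 : 0 < γ → ∀ᶠ N : ℕ in atTop, (1 - ε) * (r / (r + 1) * γ) * (((1 : ℝ) * N + r) / N) ^ r ≤
      (γ * N + (-1)) / N - ((γ * N + (1 + Y)) / N) ^ (r + 1) / ((r + 1) * γ ^ r) := by
    intro hγpos
    have t1 : Tendsto (fun N : ℕ => (1 - ε) * (r / (r + 1) * γ) * (((1 : ℝ) * N + r) / N) ^ r)
        atTop (𝓝 ((1 - ε) * (r / (r + 1) * γ) * 1 ^ r)) :=
      tendsto_const_nhds.mul ((lin_tendsto 1 r).pow r)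
    have t2 : Tendsto (fun N : ℕ => (γ * N + (-1)) / N -
        ((γ * N + (1 + Y)) / N) ^ (r + 1) / ((r + 1) * γ ^ r)) atTop
        (𝓝 (γ - γ ^ (r + 1) / ((r + 1) * γ ^ r))) :=
      (lin_tendsto γ (-1)).sub (((lin_tendsto γ (1 + Y)).pow (r + 1)).div_const _)
    refine (t1.eventually_lt t2 ?_).mono fun N h => h.le
    have e : γ - γ ^ (r + 1) / ((r + 1) * γ ^ r) = r / (r + 1) * γ := by
      have h1 : γ ^ r ≠ 0 := pow_ne_zero _ hγpos.ne'
      have h2 : (r : ℝ) + 1 ≠ 0 := by positivity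
      rw [pow_succ]
      field_simp
      ring
    rw [e, one_pow, mul_one]
    have : 0 < r / (r + 1) * γ := by positivity
    nlinarith
  have hE2' : ∀ᶠ N : ℕ in atTop, 0 < γ → (1 - ε) * (r / (r + 1) * γ) *
      (((1 : ℝ) * N + r) / N) ^ r ≤
      (γ * N + (-1)) / N - ((γ * N + (1 + Y)) / N) ^ (r + 1) / ((r + 1) * γ ^ r) := by
    by_cases h : 0 < γ
    · exact (hE2 h).mono fun N hN _ => hN
    · exact Eventually.of_forall fun N h' => absurd h' h
  obtain ⟨N0, hN0⟩ := eventually_atTop.1 (hE1.and hE2')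
  refine ⟨N0 + dm + 1, fun N hN => ?_⟩
  obtain ⟨hA, hB⟩ := hN0 N (by omega)
  have hNpos : (0 : ℝ) < N := by
    have : 0 < N := by omega
    exact_mod_cast this
  set D : ℝ := ((N + r).choose r : ℝ) with hD
  have hD0 : 0 ≤ D := Nat.cast_nonneg _
  have hDup := choose_up N r
  have hDlow := choose_low N r
  have hfac : (0 : ℝ) < r.factorial := by exact_mod_cast Nat.factorial_pos r
  set T3 : ℕ := ⌊γ * N⌋₊ with hT3
  refine ⟨∑ j, u j * (N / d j) + Zm * N + T3, ?_⟩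
  intro K _ F g y J' M ξ hc
  have hs1 := S_divs (d := d) hc.h3 hc.hF hc.hF0 N u (fun j => N / d j)
    (fun j => Nat.div_mul_le_self N (d j))
  have hs2 := S_lin (d := d) hc.T hc.hF hc.hM hc.h1 hc.h2 hc.h3 N z hz Zm hZle
  have hadd1 := Sf_add (cb ξ N) (Bs r M) (om u) (om z) (∑ j, u j * (N / d j)) (Zm * N)
  have hadd2 := Sf_add (cb ξ N) (Bs r M) (fun b => om u b + om z b) (om v)
    (∑ j, u j * (N / d j) + Zm * N) T3
  have hom : (fun b => om u b + om z b + om v b) = om fun j => u j + z j + v j := by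
    funext b
    rw [om_add (fun j => u j + z j) v, om_add u z]
  rw [hom] at hadd2
  have hs1' : ((∑ j, u j * ∑ a ∈ range (N / d j), (N - (a + 1) * d j + r).choose r : ℕ) : ℝ) ≤
      Sf (cb ξ N) (Bs r M) (om u) (∑ j, u j * (N / d j)) := by exact_mod_cast hs1
  have hs2' : (∑ j, (z j : ℝ)) * (N * D) ≤
      ((r : ℝ) + 1) * Sf (cb ξ N) (Bs r M) (om z) (Zm * N) := by
    rw [hD]
    exact_mod_cast hs2
  have hadd : (Sf (cb ξ N) (Bs r M) (om u) (∑ j, u j * (N / d j)) : ℝ) +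
      Sf (cb ξ N) (Bs r M) (om z) (Zm * N) + Sf (cb ξ N) (Bs r M) (om v) T3 ≤
      Sf (cb ξ N) (Bs r M) (om fun j => u j + z j + v j)
        (∑ j, u j * (N / d j) + Zm * N + T3) := by
    have : Sf (cb ξ N) (Bs r M) (om u) (∑ j, u j * (N / d j)) +
      Sf (cb ξ N) (Bs r M) (om z) (Zm * N) + Sf (cb ξ N) (Bs r M) (om v) T3 ≤
      Sf (cb ξ N) (Bs r M) (om fun j => u j + z j + v j)
        (∑ j, u j * (N / d j) + Zm * N + T3) := by omega
    exact_mod_cast this
  -- the divisors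
  have hp1 : (1 - ε) * (N * D) * ∑ j, (u j : ℝ) / d j ≤
      ((r : ℝ) + 1) * Sf (cb ξ N) (Bs r M) (om u) (∑ j, u j * (N / d j)) := by
    refine le_trans ?_ (mul_le_mul_of_nonneg_left hs1' (by positivity))
    push_cast
    rw [Finset.mul_sum, Finset.mul_sum]
    refine Finset.sum_le_sum fun j _ => ?_
    have hdj : (0 : ℝ) < d j := by exact_mod_cast hd j
    have h5 := div_sum r N (d j) (hd j)
    push_cast at h5
    have h6 : (1 - ε) * ((N : ℝ) * ((N : ℝ) + r) ^ r) ≤ ((N : ℝ) - dm) ^ (r + 1) := by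
      have e1 : (((1 : ℝ) * N + r) / N) ^ r = ((N : ℝ) + r) ^ r / (N : ℝ) ^ r := by
        rw [one_mul, div_pow]
      have e2 : (((1 : ℝ) * N + (-(dm : ℝ))) / N) ^ (r + 1) =
          ((N : ℝ) - dm) ^ (r + 1) / (N : ℝ) ^ (r + 1) := by
        rw [one_mul, div_pow, sub_eq_add_neg]
      rw [e1, e2, ← mul_div_assoc, div_le_div_iff₀ (by positivity) (by positivity)] at hA
      have h7 : (0 : ℝ) < (N : ℝ) ^ r := by positivity
      have h8 : ((1 - ε) * (N * ((N : ℝ) + r) ^ r)) * (N : ℝ) ^ r ≤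
          ((N : ℝ) - dm) ^ (r + 1) * (N : ℝ) ^ r := by
        calc _ = (1 - ε) * ((N : ℝ) + r) ^ r * (N : ℝ) ^ (r + 1) := by ring
          _ ≤ _ := hA
      exact le_of_mul_le_mul_right h8 h7
    have h7 : (0 : ℝ) ≤ (N : ℝ) - dm := by
      have : dm ≤ N := by omega
      have : (dm : ℝ) ≤ N := by exact_mod_cast this
      linarith
    have h8 : ((N : ℝ) - dm) ^ (r + 1) ≤ ((N - d j : ℕ) : ℝ) ^ (r + 1) := by
      refine pow_le_pow_left₀ h7 ?_ _
      have h9 := hdle j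
      rw [Nat.cast_sub (by omega)]
      have : (d j : ℝ) ≤ dm := by exact_mod_cast h9
      linarith
    set G : ℝ := ∑ a ∈ range (N / d j), (((N - (a + 1) * d j + r).choose r : ℕ) : ℝ) with hG
    have h9 : (1 - ε) * (N * (D * r.factorial)) ≤ (((r : ℝ) + 1) * d j) * (G * r.factorial) := by
      have h10 : (1 - ε) * (N * (D * r.factorial)) ≤ (1 - ε) * ((N : ℝ) * ((N : ℝ) + r) ^ r) :=
        mul_le_mul_of_nonneg_left (mul_le_mul_of_nonneg_left hDup hNpos.le) (by linarith)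
      linarith
    have h10 : (1 - ε) * (N * D) ≤ (((r : ℝ) + 1) * d j) * G := by
      have h11 : ((1 - ε) * (N * D)) * r.factorial ≤ ((((r : ℝ) + 1) * d j) * G) * r.factorial := by
        calc _ = (1 - ε) * (N * (D * r.factorial)) := by ring
          _ ≤ _ := h9
          _ = _ := by ring
      exact le_of_mul_le_mul_right h11 hfac
    have h11 : (1 - ε) * (N * D) / d j ≤ ((r : ℝ) + 1) * G := by
      rw [div_le_iff₀ hdj]
      calc _ ≤ _ := h10
        _ = _ := by ring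
    calc (1 - ε) * (N * D) * ((u j : ℝ) / d j) = u j * ((1 - ε) * (N * D) / d j) := by ring
      _ ≤ u j * (((r : ℝ) + 1) * G) := mul_le_mul_of_nonneg_left h11 (Nat.cast_nonneg _)
      _ = _ := by ring
  -- the balanced part
  have hp2 : (1 - ε) * (N * D) * ∑ j, (z j : ℝ) ≤
      ((r : ℝ) + 1) * Sf (cb ξ N) (Bs r M) (om z) (Zm * N) := by
    refine le_trans ?_ hs2'
    have h5 : 0 ≤ (∑ j, (z j : ℝ)) * (N * D) :=
      mul_nonneg (Finset.sum_nonneg fun _ _ => Nat.cast_nonneg _) (by positivity)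
    nlinarith
  -- the volume
  have hp3 : (1 - ε) * (N * D) * (r * γ) ≤
      ((r : ℝ) + 1) * Sf (cb ξ N) (Bs r M) (om v) T3 := by
    by_cases hγ' : 0 < γ
    · have hv1 : ∀ j, 1 ≤ v j := by
        intro j
        by_contra hcon
        have h5 : v j = 0 := by omega
        have h6 : ∏ j, (v j : ℝ) = 0 := Finset.prod_eq_zero (Finset.mem_univ j) (by rw [h5]; simp)
        rw [← hγr] at h6
        exact hγ'.ne' (eq_zero_of_pow_eq_zero h6)
      have h5 := S_vol (K := K) (ξ := ξ) (M := M) N v hv1 T3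
      rw [← hγr, ← hY, ← hD] at h5
      have h6 := pow_sum r T3 Y hY0
      have hT1 : (T3 : ℝ) ≤ γ * N := Nat.floor_le (by positivity)
      have hT2 : γ * N - 1 ≤ T3 := by
        have := Nat.lt_floor_add_one (γ * N)
        linarith
      have h7 : ((T3 : ℝ) + 1 + Y) ^ (r + 1) ≤ (γ * N + (1 + Y)) ^ (r + 1) :=
        pow_le_pow_left₀ (by positivity) (by linarith) _
      have h8 := hB hγ'
      set Sv : ℝ := ((Sf (cb ξ N) (Bs r M) (om v) T3 : ℕ) : ℝ) with hSv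
      have hγpow : 0 < γ ^ r := pow_pos hγ' r
      -- multiply everything out
      have e1 : (((1 : ℝ) * N + r) / N) ^ r = ((N : ℝ) + r) ^ r / (N : ℝ) ^ r := by
        rw [one_mul, div_pow]
      have e2 : ((γ * N + (1 + Y)) / N) ^ (r + 1) =
          (γ * N + (1 + Y)) ^ (r + 1) / (N : ℝ) ^ (r + 1) := div_pow _ _ _
      rw [e1, e2] at h8
      have hNr : (0 : ℝ) < (N : ℝ) ^ r := by positivity
      have hNr1 : (0 : ℝ) < (N : ℝ) ^ (r + 1) := by positivity
      have h9 : (1 - ε) * (r * γ) * (N * ((N : ℝ) + r) ^ r) ≤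
          (r + 1) * ((γ * N + (-1)) * (N : ℝ) ^ r) - (γ * N + (1 + Y)) ^ (r + 1) / γ ^ r := by
        have h10 := mul_le_mul_of_nonneg_right h8 (mul_pos hNr1 (by positivity : (0:ℝ) < (r:ℝ) + 1)).le
        have e3 : (1 - ε) * ((r : ℝ) / (r + 1) * γ) * (((N : ℝ) + r) ^ r / (N : ℝ) ^ r) *
            ((N : ℝ) ^ (r + 1) * (r + 1)) = (1 - ε) * (r * γ) * (N * ((N : ℝ) + r) ^ r) := by
          rw [pow_succ]
          field_simp
        have e4 : ((γ * N + (-1)) / N - (γ * N + (1 + Y)) ^ (r + 1) / (N : ℝ) ^ (r + 1) /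
            ((r + 1) * γ ^ r)) * ((N : ℝ) ^ (r + 1) * (r + 1)) =
            (r + 1) * ((γ * N + (-1)) * (N : ℝ) ^ r) - (γ * N + (1 + Y)) ^ (r + 1) / γ ^ r := by
          have e5 : (N : ℝ) ^ (r + 1) = N ^ r * N := pow_succ _ _
          have hr1 : (r : ℝ) + 1 ≠ 0 := by positivity
          rw [sub_mul]
          congr 1
          · rw [e5]
            field_simp
          · field_simp
        rw [e3, e4] at h10
        exact h10
      have h10 : ((T3 : ℝ) * D) * (r.factorial * γ ^ r) - (γ * N + (1 + Y)) ^ (r + 1) / (r + 1) ≤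
          Sv * (r.factorial * γ ^ r) := by
        have h11 : ∑ t ∈ range T3, ((t : ℝ) + 1 + Y) ^ r ≤
            (γ * N + (1 + Y)) ^ (r + 1) / (r + 1) := by
          rw [le_div_iff₀ (by positivity)]
          linarith
        linarith
      have h11 : (γ * N + (-1)) * (N : ℝ) ^ r ≤ T3 * (D * r.factorial) := by
        by_cases hneg : γ * N + (-1) ≤ 0
        · have : (γ * N + (-1)) * (N : ℝ) ^ r ≤ 0 := mul_nonpos_of_nonpos_of_nonneg hneg hNr.le
          have : (0 : ℝ) ≤ T3 * (D * r.factorial) := by positivity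
          linarith
        · push Not at hneg
          refine mul_le_mul (by linarith) hDlow hNr.le (Nat.cast_nonneg _)
      -- conclusion
      have h12 : (r + 1) * ((γ * N + (-1)) * (N : ℝ) ^ r) - (γ * N + (1 + Y)) ^ (r + 1) / γ ^ r ≤
          ((r : ℝ) + 1) * Sv * r.factorial := by
        have h13 : (((r : ℝ) + 1) * ((γ * N + (-1)) * (N : ℝ) ^ r) -
            (γ * N + (1 + Y)) ^ (r + 1) / γ ^ r) * γ ^ r ≤
            (((r : ℝ) + 1) * Sv * r.factorial) * γ ^ r := by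
          have e6 : (γ * N + (1 + Y)) ^ (r + 1) / γ ^ r * γ ^ r = (γ * N + (1 + Y)) ^ (r + 1) :=
            div_mul_cancel₀ _ hγpow.ne'
          rw [sub_mul, e6]
          have h14 := mul_le_mul_of_nonneg_left h10 (by positivity : (0 : ℝ) ≤ (r : ℝ) + 1)
          have e7 : ((r : ℝ) + 1) * (((T3 : ℝ) * D) * (r.factorial * γ ^ r) -
              (γ * N + (1 + Y)) ^ (r + 1) / (r + 1)) =
              ((r : ℝ) + 1) * ((T3 * (D * r.factorial)) * γ ^ r) -
                (γ * N + (1 + Y)) ^ (r + 1) := by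
            have hr1 : (r : ℝ) + 1 ≠ 0 := by positivity
            field_simp
          rw [e7] at h14
          have h15 : ((r : ℝ) + 1) * (((γ * N + (-1)) * (N : ℝ) ^ r) * γ ^ r) ≤
              ((r : ℝ) + 1) * ((T3 * (D * r.factorial)) * γ ^ r) :=
            mul_le_mul_of_nonneg_left (mul_le_mul_of_nonneg_right h11 hγpow.le) (by positivity)
          have e8 : ((r : ℝ) + 1) * (Sv * (r.factorial * γ ^ r)) =
              (((r : ℝ) + 1) * Sv * r.factorial) * γ ^ r := by ring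
          have e9 : ((r : ℝ) + 1) * ((γ * N + (-1)) * (N : ℝ) ^ r) * γ ^ r =
              ((r : ℝ) + 1) * (((γ * N + (-1)) * (N : ℝ) ^ r) * γ ^ r) := by ring
          rw [e9]
          linarith
        exact le_of_mul_le_mul_right h13 hγpow
      have h13 : ((1 - ε) * (N * D) * (r * γ)) * r.factorial ≤
          (((r : ℝ) + 1) * Sv) * r.factorial := by
        have h14 : (1 - ε) * (r * γ) * (N * (D * r.factorial)) ≤
            (1 - ε) * (r * γ) * (N * ((N : ℝ) + r) ^ r) := by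
          refine mul_le_mul_of_nonneg_left (mul_le_mul_of_nonneg_left hDup hNpos.le) ?_
          have : 0 ≤ 1 - ε := by linarith
          positivity
        calc _ = (1 - ε) * (r * γ) * (N * (D * r.factorial)) := by ring
          _ ≤ _ := h14
          _ ≤ _ := h9
          _ ≤ _ := h12
      exact le_of_mul_le_mul_right h13 hfac
    · have h5 : γ = 0 := le_antisymm (not_lt.1 hγ') hγ0
      rw [h5, mul_zero, mul_zero]
      positivity
  have h5 := mul_le_mul_of_nonneg_left hadd (by positivity : (0 : ℝ) ≤ (r : ℝ) + 1)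
  calc _ = (1 - ε) * (N * D) * ∑ j, (u j : ℝ) / d j + (1 - ε) * (N * D) * ∑ j, (z j : ℝ) +
        (1 - ε) * (N * D) * (r * γ) := by ring
    _ ≤ _ := add_le_add (add_le_add hp1 hp2) hp3
    _ = ((r : ℝ) + 1) * ((Sf (cb ξ N) (Bs r M) (om u) (∑ j, u j * (N / d j)) : ℝ) +
      Sf (cb ξ N) (Bs r M) (om z) (Zm * N) + Sf (cb ξ N) (Bs r M) (om v) T3) := by ring
    _ ≤ _ := h5

end Run7.h684.VC
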