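import Mathlib
import Pool.Agent.Run7.h684.Xi

set_option autoImplicit false

/-!
Estimates near a transversal crossing point.
-/

namespace Run7.h684.VC

open MvPolynomial Finset

variable {K : Type} [Field K] {n r : ℕ}

/-- the Taylor formula with estimates -/
theorem poly_lip (f : AbsoluteValue K ℝ) (y : Fin n → K) (P : MvPolynomial (Fin n) K) :
    ∃ C : ℝ, 0 ≤ C ∧ ∀ (u w : Fin n → K) (ρ δ : ℝ), 0 ≤ ρ → ρ ≤ 1 → 0 ≤ δ →
      (∀ a, f (u a - y a) ≤ ρ) → (∀ a, f (w a - y a) ≤ ρ) → (∀ a, f (u a - w a) ≤ δ) →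
      f (eval u P - eval w P - ∑ a, eval y (pderiv a P) * (u a - w a)) ≤ C * (ρ * δ) ∧
      f (eval u P - eval w P) ≤ C * δ := by
  classical
  induction P using MvPolynomial.induction_on with
  | C c =>
    refine ⟨0, le_rfl, fun u w ρ δ _ _ _ _ _ _ => ?_⟩
    simp
  | add p q hp hq =>
    obtain ⟨C1, hC1, h1⟩ := hp
    obtain ⟨C2, hC2, h2⟩ := hq
    refine ⟨C1 + C2, by positivity, fun u w ρ δ h3 h4 h5 h6 h7 h8 => ?_⟩
    obtain ⟨a1, a2⟩ := h1 u w ρ δ h3 h4 h5 h6 h7 h8
    obtain ⟨b1, b2⟩ := h2 u w ρ δ h3 h4 h5 h6 h7 h8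
    constructor
    · have e : eval u (p + q) - eval w (p + q) -
          ∑ a, eval y (pderiv a (p + q)) * (u a - w a) =
          (eval u p - eval w p - ∑ a, eval y (pderiv a p) * (u a - w a)) +
          (eval u q - eval w q - ∑ a, eval y (pderiv a q) * (u a - w a)) := by
        simp only [map_add, add_mul, Finset.sum_add_distrib]
        ring
      rw [e]
      refine (f.add_le _ _).trans ?_
      rw [add_mul]
      exact add_le_add a1 b1
    · have e : eval u (p + q) - eval w (p + q) =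
          (eval u p - eval w p) + (eval u q - eval w q) := by
        simp only [map_add]
        ring
      rw [e]
      refine (f.add_le _ _).trans ?_
      rw [add_mul]
      exact add_le_add a2 b2
  | mul_X p i hp =>
    obtain ⟨C1, hC1, h1⟩ := hp
    set D : ℝ := ∑ a, f (eval y (pderiv a p)) with hD
    have hD0 : 0 ≤ D := Finset.sum_nonneg fun _ _ => f.nonneg _
    have hy0 : 0 ≤ f (y i) := f.nonneg _
    have hpy : 0 ≤ f (eval y p) := f.nonneg _
    refine ⟨C1 * (f (y i) + 1) + D + C1 + f (eval y p) + C1, by positivity,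
      fun u w ρ δ h3 h4 h5 h6 h7 h8 => ?_⟩
    obtain ⟨a1, a2⟩ := h1 u w ρ δ h3 h4 h5 h6 h7 h8
    have h9 := (h1 w y ρ ρ h3 h4 h3 h7 (fun a => by rw [sub_self, map_zero]; exact h3) h7).2
    have hui : f (u i) ≤ f (y i) + 1 := by
      have e : u i = y i + (u i - y i) := by ring
      rw [e]
      refine (f.add_le _ _).trans ?_
      have := h6 i
      linarith
    have hpw : f (eval w p) ≤ f (eval y p) + C1 := by
      have e : eval w p = eval y p + (eval w p - eval y p) := by ring
      rw [e]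
      refine (f.add_le _ _).trans ?_
      have : C1 * ρ ≤ C1 * 1 := mul_le_mul_of_nonneg_left h4 hC1
      linarith
    have hL : f (∑ a, eval y (pderiv a p) * (u a - w a)) ≤ D * δ := by
      refine (f.sum_le _ _).trans ?_
      rw [hD, Finset.sum_mul]
      refine Finset.sum_le_sum fun a _ => ?_
      rw [map_mul]
      exact mul_le_mul_of_nonneg_left (h8 a) (f.nonneg _)
    constructor
    · have hd : ∑ a, eval y (pderiv a (p * X i)) * (u a - w a) =
          (∑ a, eval y (pderiv a p) * (u a - w a)) * y i + eval y p * (u i - w i) := by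
        have h1 : ∀ a, eval y (pderiv a (p * X i)) * (u a - w a) =
            eval y (pderiv a p) * (u a - w a) * y i +
              (if i = a then eval y p * (u a - w a) else 0) := by
          intro a
          rw [Derivation.leibniz, pderiv_X, map_add, smul_eq_mul, smul_eq_mul, map_mul, map_mul,
            eval_X]
          by_cases h : i = a
          · subst h
            simp
            ring
          · simp [h]
            ring
        rw [Finset.sum_congr rfl fun a _ => h1 a, Finset.sum_add_distrib, Finset.sum_ite_eq,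
          if_pos (Finset.mem_univ _), ← Finset.sum_mul]
      have e : eval u (p * X i) - eval w (p * X i) -
          ∑ a, eval y (pderiv a (p * X i)) * (u a - w a) =
          (eval u p - eval w p - ∑ a, eval y (pderiv a p) * (u a - w a)) * u i +
          (∑ a, eval y (pderiv a p) * (u a - w a)) * (u i - y i) +
          (eval w p - eval y p) * (u i - w i) := by
        rw [hd]
        simp only [map_mul, eval_X]
        ring
      rw [e]
      refine (f.add_le _ _).trans ?_
      refine (add_le_add_left (f.add_le _ _) _).trans ?_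
      rw [map_mul, map_mul, map_mul]
      have hρδ : 0 ≤ ρ * δ := mul_nonneg h3 h5
      have t1 : f (eval u p - eval w p - ∑ a, eval y (pderiv a p) * (u a - w a)) * f (u i) ≤
          C1 * (ρ * δ) * (f (y i) + 1) := mul_le_mul a1 hui (f.nonneg _) (by positivity)
      have t2 : f (∑ a, eval y (pderiv a p) * (u a - w a)) * f (u i - y i) ≤ D * δ * ρ :=
        mul_le_mul hL (h6 i) (f.nonneg _) (by positivity)
      have t3 : f (eval w p - eval y p) * f (u i - w i) ≤ C1 * ρ * δ :=
        mul_le_mul h9 (h8 i) (f.nonneg _) (by positivity)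
      have t4 : 0 ≤ (f (eval y p) + C1) * (ρ * δ) := by positivity
      nlinarith
    · have e : eval u (p * X i) - eval w (p * X i) =
          (eval u p - eval w p) * u i + eval w p * (u i - w i) := by
        simp only [map_mul, eval_X]
        ring
      rw [e]
      refine (f.add_le _ _).trans ?_
      rw [map_mul, map_mul]
      have t1 : f (eval u p - eval w p) * f (u i) ≤ C1 * δ * (f (y i) + 1) :=
        mul_le_mul a2 hui (f.nonneg _) (by positivity)
      have t2 : f (eval w p) * f (u i - w i) ≤ (f (eval y p) + C1) * δ :=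
        mul_le_mul hpw (h8 i) (f.nonneg _) (by positivity)
      have t3 : 0 ≤ (D + C1) * δ := by positivity
      nlinarith

/-- local injectivity -/
theorem loc_inj (f : AbsoluteValue K ℝ) {F : Fin r → MvPolynomial (Fin n) K} {g y : Fin n → K}
    {J' : Fin n → Fin r → K} (T : Trans F g y J') :
    ∃ ρ C : ℝ, 0 < ρ ∧ ρ ≤ 1 ∧ 0 ≤ C ∧ ∀ u w : Fin n → K, (∀ a, f (u a - y a) ≤ ρ) →
      (∀ a, f (w a - y a) ≤ ρ) → ∑ a, g a * u a = ∑ a, g a * w a → ∀ δ : ℝ, 0 ≤ δ →
      (∀ j, f (eval u (F j) - eval w (F j)) ≤ δ) → ∀ a, f (u a - w a) ≤ C * δ := by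
  classical
  have h1 := fun j => poly_lip f y (F j)
  choose C hC0 hC using h1
  set A : ℝ := ∑ j, C j with hA
  have hA0 : 0 ≤ A := Finset.sum_nonneg fun j _ => hC0 j
  have hCA : ∀ j, C j ≤ A := fun j =>
    Finset.single_le_sum (f := C) (fun j _ => hC0 j) (Finset.mem_univ j)
  set B : ℝ := ∑ b, ∑ j, f (J' b j) with hB
  have hB0 : 0 ≤ B := Finset.sum_nonneg fun _ _ => Finset.sum_nonneg fun _ _ => f.nonneg _
  set ρ : ℝ := 1 / (2 * A * B + 1) with hρ
  have hAB : 0 < 2 * A * B + 1 := by positivity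
  have hρ0 : 0 < ρ := by positivity
  have hρ1 : ρ ≤ 1 := by
    rw [hρ, div_le_one hAB]
    have : 0 ≤ 2 * A * B := by positivity
    linarith
  refine ⟨ρ, 2 * B, hρ0, hρ1, by positivity, fun u w hu hw hg δ hδ hF => ?_⟩
  by_cases hn : n = 0
  · subst hn
    intro a
    exact a.elim0
  have hne : (Finset.univ : Finset (Fin n)).Nonempty :=
    ⟨⟨0, Nat.pos_of_ne_zero hn⟩, Finset.mem_univ _⟩
  obtain ⟨b, -, hb⟩ := Finset.exists_max_image Finset.univ (fun a => f (u a - w a)) hne
  set D : ℝ := f (u b - w b) with hD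
  have hD0 : 0 ≤ D := f.nonneg _
  have hgv : ∑ a, g a * (u a - w a) = 0 := by
    simp only [mul_sub, Finset.sum_sub_distrib]
    rw [hg, sub_self]
  have hinv := T.inv3 (fun a => u a - w a) hgv b
  have hlin : ∀ j, f (∑ a, eval y (pderiv a (F j)) * (u a - w a)) ≤ δ + A * (ρ * D) := by
    intro j
    have h2 := (hC j u w ρ D hρ0.le hρ1 hD0 hu hw (fun a => hb a (Finset.mem_univ a))).1
    have e : ∑ a, eval y (pderiv a (F j)) * (u a - w a) = (eval u (F j) - eval w (F j)) -
        (eval u (F j) - eval w (F j) - ∑ a, eval y (pderiv a (F j)) * (u a - w a)) := by ring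
    rw [e]
    refine (f.sub_le_add _ _).trans (add_le_add (hF j) (h2.trans ?_))
    exact mul_le_mul_of_nonneg_right (hCA j) (by positivity)
  have hDle : D ≤ B * (δ + A * (ρ * D)) := by
    have hD' : D = f (∑ j, J' b j * ∑ a, eval y (pderiv a (F j)) * (u a - w a)) :=
      congrArg f hinv
    have h0 : D ≤ ∑ j, f (J' b j * ∑ a, eval y (pderiv a (F j)) * (u a - w a)) := by
      rw [hD']
      exact f.sum_le _ _
    refine h0.trans ?_
    have h3 : ∑ j, f (J' b j * ∑ a, eval y (pderiv a (F j)) * (u a - w a)) ≤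
        ∑ j, f (J' b j) * (δ + A * (ρ * D)) := by
      refine Finset.sum_le_sum fun j _ => ?_
      rw [map_mul]
      exact mul_le_mul_of_nonneg_left (hlin j) (f.nonneg _)
    refine h3.trans ?_
    rw [← Finset.sum_mul]
    refine mul_le_mul_of_nonneg_right ?_ (add_nonneg hδ (by positivity))
    exact Finset.single_le_sum (f := fun b => ∑ j, f (J' b j))
      (fun _ _ => Finset.sum_nonneg fun _ _ => f.nonneg _) (Finset.mem_univ b)
  have h4 : B * (A * (ρ * D)) ≤ D / 2 := by
    have h5 : (2 * A * B + 1) * ρ = 1 := by rw [hρ]; field_simp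
    have h6 : 2 * (A * B * ρ) ≤ 1 := by nlinarith
    nlinarith
  intro a
  refine (hb a (Finset.mem_univ a)).trans ?_
  nlinarith

/-- the sum of the absolute values of the coefficients -/
noncomputable def cf {m : ℕ} (f : AbsoluteValue K ℝ) (p : MvPolynomial (Fin m) K) : ℝ :=
  ∑ b ∈ p.support, f (coeff b p)

theorem cf_nonneg {m : ℕ} (f : AbsoluteValue K ℝ) (p : MvPolynomial (Fin m) K) : 0 ≤ cf f p :=
  Finset.sum_nonneg fun _ _ => f.nonneg _

theorem eval_le {m : ℕ} (f : AbsoluteValue K ℝ) (p : MvPolynomial (Fin m) K) (T : Fin m → K)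
    (τ : ℝ) (h : ∀ b ∈ p.support, ∏ j, f (T j) ^ b j ≤ τ) : f (eval T p) ≤ cf f p * τ := by
  rw [eval_eq']
  refine (f.sum_le _ _).trans ?_
  rw [cf, Finset.sum_mul]
  refine Finset.sum_le_sum fun b hb => ?_
  rw [map_mul, map_prod]
  refine mul_le_mul_of_nonneg_left ?_ (f.nonneg _)
  simp only [map_pow]
  exact h b hb

theorem prod_pow_le {m : ℕ} (t : Fin m → ℝ) (ht : ∀ j, 0 ≤ t j) (τ : ℝ) (h1 : τ ≤ 1)
    (h : ∀ j, t j ≤ τ) (b : Fin m →₀ ℕ) (M : ℕ) (hM : M ≤ b.degree) (hm : 0 < M) :
    ∏ j, t j ^ b j ≤ τ ^ M := by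
  have hdeg : b.degree = ∑ j, b j := Finsupp.degree_eq_sum b
  have hτ : 0 ≤ τ := by
    obtain ⟨j, -⟩ : ∃ j : Fin m, True := by
      by_contra hcon
      push Not at hcon
      have : ∑ j, b j = 0 := Finset.sum_eq_zero fun j _ => (hcon j).elim
      omega
    exact (ht j).trans (h j)
  calc ∏ j, t j ^ b j ≤ ∏ j, τ ^ b j :=
        Finset.prod_le_prod (fun j _ => pow_nonneg (ht j) _)
          fun j _ => pow_le_pow_left₀ (ht j) (h j) _
    _ = τ ^ (∑ j, b j) := Finset.prod_pow_eq_pow_sum _ _ _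
    _ ≤ τ ^ M := pow_le_pow_of_le_one hτ h1 (by rw [← hdeg]; exact hM)

/-- the estimate of the value of a polynomial near the crossing point -/
theorem loc_bound (f : AbsoluteValue K ℝ) {F : Fin r → MvPolynomial (Fin n) K} {g y : Fin n → K}
    {J' : Fin n → Fin r → K} (T : Trans F g y J') (hr : 0 < r) {M : ℕ} (hM : 0 < M)
    (ξ : Fin n → MvPolynomial (Fin r) K)
    (h1 : ∀ a, ξ a - C (y a) ∈ idealOfVars (Fin r) K) (h2 : ∑ a, C (g a) * ξ a = 1)
    (h3 : ∀ j, aeval ξ (F j) - X j ∈ idealOfVars (Fin r) K ^ M) :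
    ∃ ρ : ℝ, 0 < ρ ∧ ρ ≤ 1 ∧ ∀ P : MvPolynomial (Fin n) K, ∃ C : ℝ, 0 ≤ C ∧ ∀ u : Fin n → K,
      ∑ a, g a * u a = 1 → (∀ a, f (u a - y a) ≤ ρ) → ∀ τ : ℝ,
      (∀ b ∈ (aeval ξ P).support, b.degree < M → ∏ j, f (eval u (F j)) ^ b j ≤ τ) →
      (∀ j, f (eval u (F j)) ^ M ≤ τ) → f (eval u P) ≤ C * τ := by
  classical
  obtain ⟨ρ0, C0, hρ0, hρ01, hC0, hinj⟩ := loc_inj f T
  -- the values of the forms are small
  have hl := fun j => poly_lip f y (F j)
  choose CF hCF0 hCF using hl
  set A : ℝ := ∑ j, CF j with hA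
  have hA0 : 0 ≤ A := Finset.sum_nonneg fun j _ => hCF0 j
  have hCA : ∀ j, CF j ≤ A := fun j =>
    Finset.single_le_sum (f := CF) (fun j _ => hCF0 j) (Finset.mem_univ j)
  set B : ℝ := ∑ a, cf f (ξ a - C (y a)) with hB
  have hB0 : 0 ≤ B := Finset.sum_nonneg fun a _ => cf_nonneg f _
  have hBa : ∀ a, cf f (ξ a - C (y a)) ≤ B := fun a =>
    Finset.single_le_sum (f := fun a => cf f (ξ a - C (y a))) (fun a _ => cf_nonneg f _)
      (Finset.mem_univ a)
  set ρ : ℝ := ρ0 / ((A + 1) * (B + 1)) with hρ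
  have hAB : 1 ≤ (A + 1) * (B + 1) := by nlinarith [mul_nonneg hA0 hB0]
  have hρpos : 0 < ρ := by positivity
  have hρle : ρ ≤ ρ0 := div_le_self hρ0.le hAB
  have hρA : ρ * A ≤ 1 := by
    have : ρ * A ≤ ρ * ((A + 1) * (B + 1)) :=
      mul_le_mul_of_nonneg_left (by nlinarith [mul_nonneg hA0 hB0]) hρpos.le
    have e : ρ * ((A + 1) * (B + 1)) = ρ0 := by rw [hρ]; field_simp
    linarith
  have hρAB : B * (A * ρ) ≤ ρ0 := by
    have : ρ * (A * B) ≤ ρ * ((A + 1) * (B + 1)) :=
      mul_le_mul_of_nonneg_left (by nlinarith [mul_nonneg hA0 hB0]) hρpos.le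
    have e : ρ * ((A + 1) * (B + 1)) = ρ0 := by rw [hρ]; field_simp
    nlinarith
  refine ⟨ρ, hρpos, hρle.trans hρ01, fun P => ?_⟩
  obtain ⟨CP, hCP0, hCP⟩ := poly_lip f y P
  set D : ℝ := ∑ j, cf f (aeval ξ (F j) - X j) with hD
  have hD0 : 0 ≤ D := Finset.sum_nonneg fun _ _ => cf_nonneg f _
  have hDj : ∀ j, cf f (aeval ξ (F j) - X j) ≤ D := fun j =>
    Finset.single_le_sum (f := fun j => cf f (aeval ξ (F j) - X j)) (fun _ _ => cf_nonneg f _)
      (Finset.mem_univ j)
  refine ⟨CP * (C0 * D) + cf f (aeval ξ P), by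
    have := cf_nonneg f (aeval ξ P)
    positivity, fun u hgu hu τ hb hbM => ?_⟩
  set t : Fin r → K := fun j => eval u (F j) with ht
  have htj : ∀ j, f (t j) ≤ A * ρ := by
    intro j
    have h4 := (hCF j u y ρ ρ hρpos.le (hρle.trans hρ01) hρpos.le hu
      (fun a => by rw [sub_self, map_zero]; exact hρpos.le) hu).2
    rw [T.zero j, sub_zero] at h4
    exact h4.trans (mul_le_mul_of_nonneg_right (hCA j) hρpos.le)
  have hAρ1 : A * ρ ≤ 1 := by linarith [mul_comm A ρ]
  obtain ⟨j0, -, hj0⟩ := Finset.exists_max_image (Finset.univ : Finset (Fin r))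
    (fun j => f (t j)) ⟨⟨0, hr⟩, Finset.mem_univ _⟩
  set τ0 : ℝ := f (t j0) with hτ0
  have hτ00 : 0 ≤ τ0 := f.nonneg _
  have hτ01 : τ0 ≤ 1 := (htj j0).trans hAρ1
  have htτ : ∀ j, f (t j) ≤ τ0 := fun j => hj0 j (Finset.mem_univ j)
  have hττ : τ0 ^ M ≤ τ := hbM j0
  -- the point on the parametrised surface
  set w : Fin n → K := fun a => eval t (ξ a) with hw
  have hwy : ∀ a, f (w a - y a) ≤ ρ0 := by
    intro a
    have e : w a - y a = eval t (ξ a - C (y a)) := by
      rw [map_sub, eval_C]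
    rw [e]
    have h5 := eval_le f (ξ a - C (y a)) t (A * ρ) (fun b hb => by
      have h6 := h1 a
      rw [← pow_one (idealOfVars (Fin r) K), mem_pow_idealOfVars_iff] at h6
      have h7 := prod_pow_le (fun j => f (t j)) (fun j => f.nonneg _) (A * ρ) hAρ1 htj b 1
        (h6 b hb) one_pos
      rw [pow_one] at h7
      exact h7)
    refine h5.trans (le_trans ?_ hρAB)
    exact mul_le_mul_of_nonneg_right (hBa a) (by positivity)
  have hgw : ∑ a, g a * w a = 1 := by
    have h5 := congrArg (eval t) h2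
    simp only [map_sum, map_mul, eval_C, map_one] at h5
    exact h5
  have hFw : ∀ j, f (eval u (F j) - eval w (F j)) ≤ D * τ0 ^ M := by
    intro j
    have e1 : eval w (F j) = eval t (aeval ξ (F j)) := by
      have h5 : eval t (aeval ξ (F j)) = eval (fun a => eval t (ξ a)) (F j) := by
        have h6 := MvPolynomial.comp_aeval_apply (f := ξ) ((aeval t : MvPolynomial (Fin r) K →ₐ[K] K)) (F j)
        have h7 : ∀ (m : ℕ) (x : Fin m → K) (p : MvPolynomial (Fin m) K), aeval x p = eval x p :=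
          fun m x p => DFunLike.congr_fun (coe_aeval_eq_eval x) p
        rw [h7, h7] at h6
        rw [h6]
        congr 2
      rw [h5]
    have e : eval u (F j) - eval w (F j) = - eval t (aeval ξ (F j) - X j) := by
      rw [e1, map_sub, eval_X]
      ring
    rw [e, map_neg_eq_map]
    refine (eval_le f _ t (τ0 ^ M) fun b hb => ?_).trans
      (mul_le_mul_of_nonneg_right (hDj j) (by positivity))
    have h6 := h3 j
    rw [mem_pow_idealOfVars_iff] at h6
    exact prod_pow_le (fun j => f (t j)) (fun j => f.nonneg _) τ0 hτ01 htτ b M (h6 b hb) hM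
  have huw := hinj u w (fun a => (hu a).trans hρle) hwy (by rw [hgu, hgw]) (D * τ0 ^ M)
    (by positivity) hFw
  have hPuw := (hCP u w ρ0 (C0 * (D * τ0 ^ M)) hρ0.le hρ01 (by positivity)
    (fun a => (hu a).trans hρle) hwy huw).2
  have hPw : f (eval w P) ≤ cf f (aeval ξ P) * τ := by
    have e1 : eval w P = eval t (aeval ξ P) := by
      have h6 := MvPolynomial.comp_aeval_apply (f := ξ) ((aeval t : MvPolynomial (Fin r) K →ₐ[K] K)) P
      have h7 : ∀ (m : ℕ) (x : Fin m → K) (p : MvPolynomial (Fin m) K), aeval x p = eval x p :=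
        fun m x p => DFunLike.congr_fun (coe_aeval_eq_eval x) p
      rw [h7, h7] at h6
      rw [h6]
      congr 2
    rw [e1]
    refine eval_le f _ t τ fun b hb' => ?_
    by_cases hbM' : b.degree < M
    · exact hb b hb' hbM'
    · exact (prod_pow_le (fun j => f (t j)) (fun j => f.nonneg _) τ0 hτ01 htτ b M
        (not_lt.1 hbM') hM).trans hττ
  have e : eval u P = (eval u P - eval w P) + eval w P := by ring
  rw [e]
  refine (f.add_le _ _).trans ?_
  have h8 : CP * (C0 * (D * τ0 ^ M)) ≤ CP * (C0 * D) * τ := by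
    have : CP * (C0 * (D * τ0 ^ M)) = CP * (C0 * D) * τ0 ^ M := by ring
    rw [this]
    exact mul_le_mul_of_nonneg_left hττ (by positivity)
  nlinarith

end Run7.h684.VC
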