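import Mathlib
import Pool.Agent.Run7.h684.Asy
import Pool.Agent.Run7.h684.Est
import Pool.Agent.W180.OP.Base

set_option autoImplicit false

/-!
The families of forms at a transversal crossing point.
-/

namespace Run7.h684.VC

open MvPolynomial Finset Module
open Pool.Agent.W180.OP (nrm le_nrm nrm_pos nrm_nonneg exists_nrm lam lam_eq cs cs_nonneg abv_mv)

variable {K : Type} [Field K] {r : ℕ}

/-- the value at the normalised point -/
theorem eval_norm {n N : ℕ} {P : MvPolynomial (Fin n) K} (hP : P.IsHomogeneous N) (x : Fin n → K)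
    {c : K} (hc : c ≠ 0) : eval x P = c ^ N * eval (fun a => x a / c) P := by
  have h2 : eval (fun a => c * (x a / c)) P = c ^ N * eval (fun a => x a / c) P := by
    rw [eval_eq, eval_eq, Finset.mul_sum]
    refine Finset.sum_congr rfl fun m hm => ?_
    have h3 : ∑ i ∈ m.support, m i = N := by
      have h4 := hP (MvPolynomial.mem_support_iff.1 hm)
      have h5 : m.degree = N :=
        (DFunLike.congr_fun (Finsupp.degree_eq_weight_one (σ := Fin n) (R := ℕ)) m).trans h4
      rw [← h5]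
      rfl
    simp only [mul_pow]
    rw [Finset.prod_mul_distrib, Finset.prod_pow_eq_pow_sum, h3]
    ring
  rw [← h2]
  congr 2
  funext a
  rw [mul_div_cancel₀ _ hc]

/-- `x` is near the point `y`, `g y = 1` -/
def NearPt {n : ℕ} (f : AbsoluteValue K ℝ) (g y : Fin n → K) (ρ : ℝ) (x : Fin n → K) : Prop :=
  ∑ a, g a * x a ≠ 0 ∧ ∀ a, f (x a - y a * ∑ b, g b * x b) ≤ ρ * f (∑ b, g b * x b)

/-- the families of forms at a transversal crossing point -/
theorem cross_fam {F : Fin r → MvPolynomial (Fin (r + 1)) K} {d : Fin r → ℕ}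
    {g y : Fin (r + 1) → K} {J' : Fin (r + 1) → Fin r → K} (T : Trans F g y J')
    (hr : 0 < r) (hF : ∀ j, (F j).IsHomogeneous (d j)) (hF0 : ∀ j, F j ≠ 0)
    (hd : ∀ j, 0 < d j) (u z v : Fin r → ℕ) (hz : ∀ i j, z i ≤ 2 * z j)
    (hpos : ∀ j, 1 ≤ u j + z j + v j) (ε : ℝ) (hε : 0 < ε) (hε1 : ε ≤ 1) :
    ∃ N0 : ℕ, ∀ N, N0 ≤ N → ∃ (ι : Type) (_ : Fintype ι) (e : ι → MvPolynomial (Fin (r + 1)) K),
      (∀ i, (e i).IsHomogeneous N) ∧ (∀ κ : ι → K, ∑ i, C (κ i) * e i = 0 → ∀ i, κ i = 0) ∧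
      ∀ f : AbsoluteValue K ℝ, ∃ ρ C : ℝ, 0 < ρ ∧ 0 ≤ C ∧ ∀ x : Fin (r + 1) → K,
        NearPt f g y ρ x → (∀ j, eval x (F j) ≠ 0) → (∀ i, eval x (e i) ≠ 0) →
        ∀ θ : ℝ, 0 ≤ θ →
          (∀ j, ((u j + z j + v j : ℕ) : ℝ) * θ ≤ lam f (d j) (F j) x) →
          θ * ((1 - ε) * (N * (N + r).choose r) / (r + 1) * (∑ j, (u j : ℝ) / d j +
            ∑ j, (z j : ℝ) + r * (∏ j, (v j : ℝ)) ^ ((1 : ℝ) / r))) ≤
            ∑ i, lam f N (e i) x + C := by
  classical
  obtain ⟨N0, hN0⟩ := S_low r hr d hd u z v hz ε hε hε1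
  refine ⟨N0, fun N hN => ?_⟩
  obtain ⟨Tm, hTm⟩ := hN0 N hN
  set M : ℕ := Tm + 2 with hM
  obtain ⟨ξ, h1, h2, h3⟩ := exists_xi T M
  have hCP : CP F d g y J' M ξ := ⟨T, hF, hF0, by omega, h1, h2, h3⟩
  have hS := hTm K F g y J' M ξ hCP
  obtain ⟨e, o, hli, ho, hsum⟩ := exists_basis (cb ξ N) (Bs r M)
    (om fun j => u j + z j + v j) Tm
  refine ⟨Fin (finrank K (homogeneousSubmodule (Fin (r + 1)) K N)), inferInstance, fun i => (e i).1,
    fun i => (mem_homogeneousSubmodule _ _).1 (e i).2, ?_, ?_⟩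
  · intro κ hκ i
    have h4 : ∑ i, κ i • e i = 0 := by
      apply Subtype.ext
      rw [Submodule.coe_sum]
      simp only [Submodule.coe_smul, smul_eq_C_mul]
      exact hκ
    exact Fintype.linearIndependent_iff.1 hli κ h4 i
  intro f
  obtain ⟨ρ, hρ0, hρ1, hP⟩ := loc_bound f T hr (M := M) (by omega) ξ h1 h2 h3
  choose CP' hCP'0 hCP' using fun i => hP (e i).1
  -- constants
  set A : ℝ := ∑ a, f (y a) with hA
  have hA0 : 0 ≤ A := Finset.sum_nonneg fun _ _ => f.nonneg _
  have hAa : ∀ a, f (y a) ≤ A := fun a =>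
    Finset.single_le_sum (f := fun a => f (y a)) (fun _ _ => f.nonneg _) (Finset.mem_univ a)
  set B : ℝ := ∑ a, f (g a) with hB
  have hB0 : 0 ≤ B := Finset.sum_nonneg fun _ _ => f.nonneg _
  set dm : ℝ := ∑ j, (d j : ℝ) with hdm
  have hdm0 : 0 ≤ dm := Finset.sum_nonneg fun _ _ => Nat.cast_nonneg _
  have hdle : ∀ j, (d j : ℝ) ≤ dm := fun j =>
    Finset.single_le_sum (f := fun j => (d j : ℝ)) (fun _ _ => Nat.cast_nonneg _)
      (Finset.mem_univ j)
  set c0 : ℝ := dm * Real.log (A + 1) with hc0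
  have hlA : 0 ≤ Real.log (A + 1) := Real.log_nonneg (by linarith)
  have hc00 : 0 ≤ c0 := mul_nonneg hdm0 hlA
  set c1 : ℝ := Real.log (B + 1) with hc1
  have hc10 : 0 ≤ c1 := Real.log_nonneg (by linarith)
  set C0 : ℝ := ∑ i, (N * c1 + Real.log (CP' i + 1) + c0 * M) with hC0
  have hC00 : 0 ≤ C0 := Finset.sum_nonneg fun i _ => by
    have : 0 ≤ Real.log (CP' i + 1) := Real.log_nonneg (by linarith [hCP'0 i])
    positivity
  refine ⟨ρ, C0, hρ0, hC00, fun x hx hxF hxe θ hθ hθF => ?_⟩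
  obtain ⟨hg0, hxn⟩ := hx
  set G : K := ∑ b, g b * x b with hG
  have hfG : 0 < f G := f.pos_iff.2 hg0
  have hx0 : x ≠ 0 := by
    intro h
    apply hg0
    rw [hG, h]
    simp
  set w : Fin (r + 1) → K := fun a => x a / G with hw
  have hnx := nrm_pos f hx0
  -- comparison of `f G` and the norm
  have hnG : nrm f x ≤ (A + 1) * f G := by
    obtain ⟨a, ha⟩ := exists_nrm f (Nat.succ_pos r) x
    rw [← ha]
    have e1 : x a = y a * G + (x a - y a * G) := by ring
    rw [e1]
    refine (f.add_le _ _).trans ?_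
    rw [map_mul]
    have e2 := hxn a
    have e3 : f (y a) * f G ≤ A * f G := mul_le_mul_of_nonneg_right (hAa a) hfG.le
    have e4 : ρ * f G ≤ 1 * f G := mul_le_mul_of_nonneg_right hρ1 hfG.le
    linarith
  have hGn : f G ≤ (B + 1) * nrm f x := by
    rw [hG]
    refine (f.sum_le _ _).trans ?_
    have e1 : ∑ b, f (g b * x b) ≤ ∑ b, f (g b) * nrm f x := by
      refine Finset.sum_le_sum fun b _ => ?_
      rw [map_mul]
      exact mul_le_mul_of_nonneg_left (le_nrm _ _ _) (f.nonneg _)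
    refine e1.trans ?_
    rw [← Finset.sum_mul]
    exact mul_le_mul_of_nonneg_right (by linarith) hnx.le
  set lG := Real.log (f G) with hlG
  set ln := Real.log (nrm f x) with hln
  have hl1 : ln ≤ Real.log (A + 1) + lG := by
    have := Real.log_le_log hnx hnG
    rwa [Real.log_mul (by linarith) hfG.ne'] at this
  have hl2 : lG ≤ c1 + ln := by
    have := Real.log_le_log hfG hGn
    rwa [Real.log_mul (by linarith) hnx.ne'] at this
  have hgw : ∑ a, g a * w a = 1 := by
    simp only [hw, mul_div_assoc']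
    rw [← Finset.sum_div, ← hG, div_self hg0]
  have hwy : ∀ a, f (w a - y a) ≤ ρ := by
    intro a
    have e1 : w a - y a = (x a - y a * G) / G := by
      rw [hw]
      field_simp
    rw [e1, map_div₀, div_le_iff₀ hfG]
    exact hxn a
  -- the values of the forms
  have hFw : ∀ j, f (eval w (F j)) ≤ Real.exp (- lam f (d j) (F j) x + c0) := by
    intro j
    have e1 := eval_norm (hF j) x hg0
    have e2 : f (eval w (F j)) ≠ 0 := by
      intro h0
      apply hxF j
      rw [e1, (map_eq_zero f).1 h0, mul_zero]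
    have e3 : 0 < f (eval w (F j)) := lt_of_le_of_ne (f.nonneg _) (Ne.symm e2)
    rw [← Real.log_le_iff_le_exp e3]
    rw [lam_eq f _ _ hx0 (hxF j), e1, map_mul, map_pow,
      Real.log_mul (pow_pos hfG _).ne' e2, Real.log_pow]
    have e4 : (d j : ℝ) * (ln - lG) ≤ c0 := by
      rw [hc0]
      by_cases h : ln - lG ≤ 0
      · have : (d j : ℝ) * (ln - lG) ≤ 0 := mul_nonpos_of_nonneg_of_nonpos (Nat.cast_nonneg _) h
        linarith
      · push Not at h
        exact mul_le_mul (hdle j) (by linarith) h.le hdm0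
    have e5 : (d j : ℝ) * (ln - lG) = d j * ln - d j * lG := by ring
    linarith
  have hw1 : ∀ j, (1 : ℝ) ≤ ((u j + z j + v j : ℕ) : ℝ) := fun j => by exact_mod_cast hpos j
  have hprod : ∀ b : Fin r →₀ ℕ, b.degree < M → ∀ s : ℕ, s ≤ om (fun j => u j + z j + v j) b →
      ∏ j, f (eval w (F j)) ^ b j ≤ Real.exp (- (s * θ) + c0 * M) := by
    intro b hb s hs
    have e1 : ∏ j, f (eval w (F j)) ^ b j ≤ ∏ j, Real.exp (- lam f (d j) (F j) x + c0) ^ b j :=
      Finset.prod_le_prod (fun j _ => pow_nonneg (f.nonneg _) _)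
        fun j _ => pow_le_pow_left₀ (f.nonneg _) (hFw j) _
    refine e1.trans ?_
    have e2 : ∏ j, Real.exp (- lam f (d j) (F j) x + c0) ^ b j =
        Real.exp (∑ j, (b j : ℝ) * (- lam f (d j) (F j) x + c0)) := by
      rw [Real.exp_sum]
      refine Finset.prod_congr rfl fun j _ => ?_
      rw [← Real.exp_nat_mul]
    rw [e2, Real.exp_le_exp]
    have e3 : ∑ j, (b j : ℝ) * (- lam f (d j) (F j) x + c0) ≤
        ∑ j, ((b j : ℝ) * (- (((u j + z j + v j : ℕ) : ℝ) * θ)) + b j * c0) := by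
      refine Finset.sum_le_sum fun j _ => ?_
      rw [← mul_add]
      refine mul_le_mul_of_nonneg_left ?_ (Nat.cast_nonneg _)
      linarith [hθF j]
    refine e3.trans ?_
    rw [Finset.sum_add_distrib, ← Finset.sum_mul]
    have e4 : ∑ j, (b j : ℝ) * (- (((u j + z j + v j : ℕ) : ℝ) * θ)) =
        - ((om (fun j => u j + z j + v j) b : ℕ) * θ) := by
      rw [om]
      push_cast
      rw [Finset.sum_mul, ← Finset.sum_neg_distrib]
      refine Finset.sum_congr rfl fun j _ => ?_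
      ring
    have e5 : (∑ j, (b j : ℝ)) * c0 ≤ M * c0 := by
      refine mul_le_mul_of_nonneg_right ?_ hc00
      rw [Finsupp.degree_eq_sum] at hb
      exact_mod_cast hb.le
    have e6 : (s : ℝ) * θ ≤ (om (fun j => u j + z j + v j) b : ℕ) * θ :=
      mul_le_mul_of_nonneg_right (by exact_mod_cast hs) hθ
    rw [e4]
    linarith [mul_comm (M : ℝ) c0]
  have hpM : ∀ j, ∀ s : ℕ, s ≤ M → f (eval w (F j)) ^ M ≤ Real.exp (- (s * θ) + c0 * M) := by
    intro j s hs
    refine (pow_le_pow_left₀ (f.nonneg _) (hFw j) M).trans ?_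
    rw [← Real.exp_nat_mul, Real.exp_le_exp]
    have e1 : θ ≤ lam f (d j) (F j) x := by
      have := hθF j
      have e2 := mul_le_mul_of_nonneg_right (hw1 j) hθ
      linarith
    have e2 : (s : ℝ) * θ ≤ M * lam f (d j) (F j) x :=
      mul_le_mul (by exact_mod_cast hs) e1 hθ (Nat.cast_nonneg _)
    have e3 : (M : ℝ) * (- lam f (d j) (F j) x + c0) = - (M * lam f (d j) (F j) x) + c0 * M := by
      ring
    rw [e3]
    linarith
  -- one form
  have hone : ∀ i, (o i : ℝ) * θ ≤ lam f N (e i).1 x +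
      (N * c1 + Real.log (CP' i + 1) + c0 * M) := by
    intro i
    obtain ⟨hoi, hmem⟩ := ho i
    have hhom := (mem_homogeneousSubmodule _ _).1 (e i).2
    have h4 := hCP' i w hgw hwy (Real.exp (- (o i * θ) + c0 * M)) (fun b hb hbM => by
      refine hprod b hbM (o i) ?_
      by_contra hcon
      push Not at hcon
      have h5 := hmem b (mem_Bs.2 hbM) hcon
      rw [cb_apply] at h5
      exact MvPolynomial.mem_support_iff.1 hb h5) (fun j => hpM j (o i) (by omega))
    have e1 := eval_norm hhom x hg0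
    have hxi := hxe i
    have e2 : f (eval w (e i).1) ≠ 0 := by
      intro h0
      apply hxi
      rw [e1, (map_eq_zero f).1 h0, mul_zero]
    have e3 : 0 < f (eval w (e i).1) := lt_of_le_of_ne (f.nonneg _) (Ne.symm e2)
    have h5 : f (eval w (e i).1) ≤ (CP' i + 1) * Real.exp (- (o i * θ) + c0 * M) :=
      h4.trans (mul_le_mul_of_nonneg_right (by linarith) (Real.exp_pos _).le)
    have h6 := Real.log_le_log e3 h5
    have h7 : 0 < CP' i + 1 := by linarith [hCP'0 i]
    rw [Real.log_mul h7.ne' (Real.exp_pos _).ne', Real.log_exp] at h6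
    rw [lam_eq f _ _ hx0 hxi, e1, map_mul, map_pow, Real.log_mul (pow_pos hfG _).ne' e2,
      Real.log_pow]
    have h8 : (N : ℝ) * lG ≤ N * (c1 + ln) := mul_le_mul_of_nonneg_left hl2 (Nat.cast_nonneg _)
    have h9 : (N : ℝ) * (c1 + ln) = N * c1 + N * ln := by ring
    linarith
  have hall := Finset.sum_le_sum fun i (_ : i ∈ (Finset.univ :
    Finset (Fin (finrank K (homogeneousSubmodule (Fin (r + 1)) K N))))) => hone i
  rw [Finset.sum_add_distrib, ← Finset.sum_mul] at hall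
  have hsum' : (∑ i, (o i : ℝ)) = (Sf (cb ξ N) (Bs r M) (om fun j => u j + z j + v j) Tm : ℝ) := by
    rw [← hsum]
    push_cast
    rfl
  rw [hsum'] at hall
  refine le_trans ?_ hall
  rw [mul_comm]
  refine mul_le_mul_of_nonneg_right ?_ hθ
  rw [div_mul_eq_mul_div, div_le_iff₀ (by positivity), mul_comm (Sf _ _ _ _ : ℝ)]
  exact hS

end Run7.h684.VC
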