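import Mathlib
import Pool.Agent.Run7.h684.Crs
import Pool.Agent.R404.TC.Main

set_option autoImplicit false

/-!
A point at which the forms are small is near one of the crossing points.
-/

namespace Run7.h684.VC

open MvPolynomial Finset Module
open Pool.Agent.W180.OP (nrm le_nrm nrm_pos nrm_nonneg exists_nrm lam lam_eq cs cs_nonneg abv_mv)
open Pool.Agent.R404.TC (HI Jf Covers Zero rad_mem comb aeval_pt aeval_smul_hom)

variable {K : Type} [Field K] {n : ℕ}

/-- the linear form `X a - y a * g` -/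
noncomputable def ell (g y : Fin n → K) (a : Fin n) : MvPolynomial (Fin n) K :=
  X a - C (y a) * ∑ b, C (g b) * X b

theorem ell_hom (g y : Fin n → K) (a : Fin n) : (ell g y a).IsHomogeneous 1 := by
  unfold ell
  refine (isHomogeneous_X K a).sub ?_
  have h1 : (∑ b, C (g b) * X b : MvPolynomial (Fin n) K).IsHomogeneous 1 := by
    refine IsHomogeneous.sum _ _ _ fun j _ => ?_
    simpa using (isHomogeneous_C (Fin n) (g j)).mul (isHomogeneous_X K j)
  simpa using (isHomogeneous_C (Fin n) (y a)).mul h1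

theorem eval_ell (g y : Fin n → K) (a : Fin n) (x : Fin n → K) :
    eval x (ell g y a) = x a - y a * ∑ b, g b * x b := by
  unfold ell
  simp only [map_sub, map_mul, map_sum, eval_X, eval_C]

/-- a point which is not near `y` makes one of the forms large -/
theorem far (f : AbsoluteValue K ℝ) (hn : 0 < n) (g y : Fin n → K) {ρ : ℝ} (hρ : 0 < ρ) :
    ∃ c : ℝ, 0 < c ∧ ∀ x : Fin n → K, x ≠ 0 → ¬ NearPt f g y ρ x →
      ∃ a, c * nrm f x ≤ f (eval x (ell g y a)) := by
  classical
  set A : ℝ := ∑ a, f (y a) with hA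
  have hA0 : 0 ≤ A := Finset.sum_nonneg fun _ _ => f.nonneg _
  have hAa : ∀ a, f (y a) ≤ A := fun a =>
    Finset.single_le_sum (f := fun a => f (y a)) (fun _ _ => f.nonneg _) (Finset.mem_univ a)
  refine ⟨ρ / (ρ + A), by positivity, fun x hx hnear => ?_⟩
  have hnp := nrm_pos f hx
  obtain ⟨b, hb⟩ := exists_nrm f hn x
  by_cases hG : ∑ b, g b * x b = 0
  · refine ⟨b, ?_⟩
    rw [eval_ell, hG, mul_zero, sub_zero, hb]
    have h1 : ρ / (ρ + A) ≤ 1 := by
      rw [div_le_one (by positivity)]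
      linarith
    nlinarith
  · have h1 : ∃ a, ρ * f (∑ b, g b * x b) < f (x a - y a * ∑ b, g b * x b) := by
      by_contra hcon
      push Not at hcon
      exact hnear ⟨hG, hcon⟩
    obtain ⟨a, ha⟩ := h1
    have h2 : nrm f x ≤ f (eval x (ell g y b)) + A * f (∑ b, g b * x b) := by
      rw [← hb, eval_ell]
      have e1 : x b = (x b - y b * ∑ b, g b * x b) + y b * ∑ b, g b * x b := by ring
      calc f (x b) = f ((x b - y b * ∑ b, g b * x b) + y b * ∑ b, g b * x b) := by rw [← e1]
        _ ≤ _ := f.add_le _ _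
        _ ≤ _ := by
          rw [map_mul]
          have := mul_le_mul_of_nonneg_right (hAa b) (f.nonneg (∑ b, g b * x b))
          linarith
    by_cases h3 : ρ / (ρ + A) * nrm f x ≤ f (eval x (ell g y b))
    · exact ⟨b, h3⟩
    · refine ⟨a, ?_⟩
      push Not at h3
      rw [eval_ell g y a]
      refine le_trans ?_ ha.le
      have h4 : A * f (∑ b, g b * x b) ≥ nrm f x - ρ / (ρ + A) * nrm f x := by linarith
      have h5 : nrm f x - ρ / (ρ + A) * nrm f x = A / (ρ + A) * nrm f x := by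
        field_simp
        ring
      rw [h5] at h4
      by_cases hA1 : A = 0
      · exfalso
        rw [hA1] at h2 h3
        rw [add_zero, div_self hρ.ne', one_mul] at h3
        linarith
      · have hApos : 0 < A := lt_of_le_of_ne hA0 (Ne.symm hA1)
        have h6 : f (∑ b, g b * x b) ≥ 1 / (ρ + A) * nrm f x := by
          have e2 : A / (ρ + A) * nrm f x = A * (1 / (ρ + A) * nrm f x) := by ring
          rw [e2] at h4
          exact le_of_mul_le_mul_left h4 hApos
        have e3 : ρ / (ρ + A) * nrm f x = ρ * (1 / (ρ + A) * nrm f x) := by ring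
        rw [e3]
        exact mul_le_mul_of_nonneg_left h6 hρ.le

/-- a point at which all the forms are small is near one of the points -/
theorem near_pt (f : AbsoluteValue K ℝ) (hn : 0 < n) {l : List (MvPolynomial (Fin n) K × ℕ)}
    (hl : ∀ x ∈ l, x.1.IsHomogeneous x.2) {Y : Finset (Fin n → K)} (hY : Covers (Jf ⊥ l) Y)
    (g : (Fin n → K) → Fin n → K) (hg : ∀ y ∈ Y, ∑ a, g y a * y a = 1)
    {ρ : ℝ} (hρ : 0 < ρ) :
    ∃ B : ℝ, ∀ x : Fin n → K, x ≠ 0 → (∀ p ∈ l, eval x p.1 ≠ 0) →
      (∀ p ∈ l, B ≤ lam f p.2 p.1 x) → ∃ y ∈ Y, NearPt f (g y) y ρ x := by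
  classical
  have hfar := fun y : Fin n → K => far f hn (g y) y hρ
  choose c hc hfar using hfar
  -- the products
  set W : Fin n × (Y → Fin n) → MvPolynomial (Fin n) K := fun α =>
    X α.1 * ∏ y : Y, ell (g y.1) y.1 (α.2 y) with hW
  set s : ℕ := 1 + Fintype.card Y with hs
  have hWh : ∀ α, (W α).IsHomogeneous s := by
    intro α
    have h1 : (∏ y : Y, ell (g y.1) y.1 (α.2 y)).IsHomogeneous (∑ _y : Y, 1) :=
      IsHomogeneous.prod _ _ _ fun y _ => ell_hom _ _ _
    rw [Finset.sum_const, smul_eq_mul, mul_one, Finset.card_univ] at h1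
    exact (isHomogeneous_X K α.1).mul h1
  have hpow : ∀ α, ∃ M : ℕ, W α ^ M ∈ Jf (⊥ : Ideal (MvPolynomial (Fin n) K)) l := by
    intro α
    refine rad_mem _ _ fun L _ _ x hx => ?_
    by_cases hx0 : x = 0
    · rw [hW]
      simp only
      rw [map_mul, aeval_X, hx0, Pi.zero_apply, zero_mul]
    · obtain ⟨y, hy, e, he⟩ := hY L x hx0 hx
      rw [hW]
      simp only [map_mul, map_prod]
      rw [Finset.prod_eq_zero (Finset.mem_univ (⟨y, hy⟩ : Y)), mul_zero]
      rw [he, aeval_smul_hom (ell_hom _ _ _), aeval_pt, eval_ell, hg y hy, mul_one, sub_self,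
        map_zero, mul_zero]
  choose M hM using hpow
  have hI : HI (⊥ : Ideal (MvPolynomial (Fin n) K)) := by
    intro p hp e
    rw [Ideal.mem_bot] at hp ⊢
    rw [hp, map_zero]
  have hcomb := fun α => comb f hI l hl (W α ^ M α) (s * M α) ((hWh α).pow (M α)) (hM α)
  choose Cc hCc0 hCc using hcomb
  -- the bound
  set B0 : Fin n × (Y → Fin n) → ℝ := fun α =>
    Cc α - M α * ∑ y : Y, Real.log (c y.1) with hB0
  refine ⟨∑ α, |B0 α| + 1, fun x hx hxl hB => ?_⟩
  by_contra hcon
  push Not at hcon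
  have hnp := nrm_pos f hx
  obtain ⟨b, hb⟩ := exists_nrm f hn x
  have hch : ∀ y : Y, ∃ a, c y.1 * nrm f x ≤ f (eval x (ell (g y.1) y.1 a)) := fun y =>
    hfar y.1 x hx (hcon y.1 y.2)
  choose a ha using hch
  set α : Fin n × (Y → Fin n) := (b, a) with hα
  have hell : ∀ y : Y, eval x (ell (g y.1) y.1 (a y)) ≠ 0 := by
    intro y h0
    have h1 := ha y
    rw [h0, map_zero] at h1
    have h2 : 0 < c y.1 * nrm f x := mul_pos (hc _) hnp
    linarith
  have hxb : x b ≠ 0 := by
    intro h0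
    rw [h0, map_zero] at hb
    linarith
  have hWx : eval x (W α) = x b * ∏ y : Y, eval x (ell (g y.1) y.1 (a y)) := by
    rw [hW]
    simp only [map_mul, map_prod, eval_X, hα]
  have hWne : eval x (W α) ≠ 0 := by
    rw [hWx]
    exact mul_ne_zero hxb (Finset.prod_ne_zero_iff.2 fun y _ => hell y)
  have h1 := hCc α x hx (fun p hp => by rw [Ideal.mem_bot.1 hp, map_zero]) hxl
    (by rw [map_pow]; exact pow_ne_zero _ hWne) (∑ α, |B0 α| + 1) hB
  have h2 : Real.log (f (eval x (W α))) = Real.log (nrm f x) +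
      ∑ y : Y, Real.log (f (eval x (ell (g y.1) y.1 (a y)))) := by
    rw [hWx, map_mul, map_prod, Real.log_mul (by rw [hb]; exact hnp.ne')
      (Finset.prod_ne_zero_iff.2 fun y _ => (f.pos_iff.2 (hell y)).ne'), hb,
      Real.log_prod fun y _ => (f.pos_iff.2 (hell y)).ne']
  have h3 : ∀ y : Y, Real.log (c y.1) + Real.log (nrm f x) ≤
      Real.log (f (eval x (ell (g y.1) y.1 (a y)))) := by
    intro y
    rw [← Real.log_mul (hc _).ne' hnp.ne']
    exact Real.log_le_log (mul_pos (hc _) hnp) (ha y)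
  have h4 : ∑ y : Y, Real.log (c y.1) + Fintype.card Y * Real.log (nrm f x) ≤
      ∑ y : Y, Real.log (f (eval x (ell (g y.1) y.1 (a y)))) := by
    have h5 := Finset.sum_le_sum fun y (_ : y ∈ (Finset.univ : Finset Y)) => h3 y
    rw [Finset.sum_add_distrib, Finset.sum_const, nsmul_eq_mul, Finset.card_univ] at h5
    exact h5
  have h6 : lam f (s * M α) (W α ^ M α) x ≤ - (M α * ∑ y : Y, Real.log (c y.1)) := by
    rw [lam_eq f _ _ hx (by rw [map_pow]; exact pow_ne_zero _ hWne), map_pow, map_pow,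
      Real.log_pow, h2, hs]
    have h7 : (0 : ℝ) ≤ M α := Nat.cast_nonneg _
    have h8 := mul_le_mul_of_nonneg_left h4 h7
    push_cast
    nlinarith
  have h9 : B0 α ≤ ∑ α, |B0 α| := (le_abs_self _).trans
    (Finset.single_le_sum (f := fun α => |B0 α|) (fun _ _ => abs_nonneg _) (Finset.mem_univ α))
  have h10 : B0 α = Cc α - M α * ∑ y : Y, Real.log (c y.1) := rfl
  linarith

/-- monotonicity -/
theorem NearPt.mono {f : AbsoluteValue K ℝ} {g y : Fin n → K} {ρ ρ' : ℝ} {x : Fin n → K}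
    (h : NearPt f g y ρ x) (hρ : ρ ≤ ρ') : NearPt f g y ρ' x :=
  ⟨h.1, fun a => (h.2 a).trans (mul_le_mul_of_nonneg_right hρ (f.nonneg _))⟩

end Run7.h684.VC
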