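import Mathlib
import Pool.Agent.Run7.h684.Nr
import Pool.Agent.R404.TC.Fin

set_option autoImplicit false

/-!
The families of forms of Evertse and Ferretti for `r` forms in `ℙ^r`.
-/

namespace Run7.h684.VC

open MvPolynomial Finset Module
open Pool.Agent.W180.OP (nrm le_nrm nrm_pos nrm_nonneg exists_nrm lam lam_eq cs cs_nonneg abv_mv)
open Pool.Agent.R404.TC

variable {K : Type} [Field K] {r q : ℕ}

/-- the set of the common points of `r` hypersurfaces -/
structure Pts (F : Fin q → MvPolynomial (Fin (r + 1)) K) (d : Fin q → ℕ) (σ : Fin r → Fin q)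
    (Y : Finset (Fin (r + 1) → K)) : Prop where
  y0 : ∀ y ∈ Y, y ≠ 0
  zero : ∀ y ∈ Y, ∀ j, eval y (F (σ j)) = 0
  cov : Covers (Jf ⊥ (lst F d σ)) Y

theorem HI_bot {n : ℕ} : HI (⊥ : Ideal (MvPolynomial (Fin n) K)) := by
  intro p hp e
  rw [Ideal.mem_bot] at hp ⊢
  rw [hp, map_zero]

theorem cc_bot (t : ℕ) :
    cc (⊥ : Ideal (MvPolynomial (Fin (r + 1)) K)) t = (t + r).choose r := by
  have h1 : gr (⊥ : Ideal (MvPolynomial (Fin (r + 1)) K)) t = ⊥ := by
    rw [eq_bot_iff]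
    intro p hp
    exact (Submodule.mem_bot _).2 (Ideal.mem_bot.1 (mem_gr.1 hp).1)
  rw [cc, h1, finrank_bot, Nat.sub_zero, finrank_hom]

/-- the intersection of `r` hypersurfaces in `ℙ^r` is not empty -/
theorem Pts.ne [Infinite K] {F : Fin q → MvPolynomial (Fin (r + 1)) K} {d : Fin q → ℕ}
    {σ : Fin r → Fin q} {Y : Finset (Fin (r + 1) → K)} (H : Pts F d σ Y) (hd : ∀ i, 0 < d i)
    (hF : ∀ i, (F i).IsHomogeneous (d i)) : Y.Nonempty := by
  classical
  by_contra hY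
  rw [Finset.not_nonempty_iff_eq_empty] at hY
  subst hY
  have hz : ∀ (L : Type) [Field L] [Algebra K L] (x : Fin (r + 1) → L),
      (∀ j, aeval x (F (σ j)) = 0) → x = 0 := by
    intro L _ _ x hx
    by_contra hx0
    obtain ⟨y, hy, -⟩ := H.cov L x hx0 (by
      intro p hp
      rw [Jf_lst, bot_sup_eq] at hp
      refine Submodule.span_induction (p := fun p _ => aeval x p = 0) ?_ ?_ ?_ ?_ hp
      · rintro _ ⟨j, rfl⟩
        exact hx j
      · rw [map_zero]
      · intro a b _ _ ha hb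
        rw [map_add, ha, hb, add_zero]
      · intro a b _ hb
        rw [smul_eq_mul, map_mul, hb, mul_zero])
    exact Finset.notMem_empty y hy
  obtain ⟨c, hc0, hc⟩ := exists_c (Nat.succ_pos r) (fun j => F (σ j))
    (fun i => ⟨_, hF _⟩) (X 0) 1 one_pos (isHomogeneous_X K 0)
    (fun L _ _ x hx _ => hz L x hx)
  obtain ⟨a, ha⟩ := Function.ne_iff.1 hc0
  have h2 := (reg_step (regT r) (fun j => F (σ j)) (fun i => ⟨d (σ i), hd _, hF _⟩) c a ha hc).2
  obtain ⟨N, hN⟩ := large_mem (Ideal.span (Set.range fun j => F (σ j))) (by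
    intro L _ _ x hx
    exact hz L x fun j => hx _ (Ideal.subset_span ⟨j, rfl⟩))
  have h3 := hN N le_rfl (lin c ^ N) (by simpa using (lin_hom c).pow N)
  have h4 : ∀ M : ℕ, lin c ^ M ∈ Ideal.span (Set.range fun j => F (σ j)) →
      (1 : MvPolynomial (Fin (r + 1)) K) ∈ Ideal.span (Set.range fun j => F (σ j)) := by
    intro M
    induction M with
    | zero => intro h; simpa using h
    | succ M ih =>
      intro h
      refine ih (h2 _ ?_)
      rw [← pow_succ']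
      exact h
  have h5 := h4 N h3
  have h6 : eval (0 : Fin (r + 1) → K) (1 : MvPolynomial (Fin (r + 1)) K) = 0 := by
    refine Submodule.span_induction (p := fun p _ => eval (0 : Fin (r + 1) → K) p = 0)
      ?_ ?_ ?_ ?_ h5
    · rintro _ ⟨j, rfl⟩
      have h7 := aeval_smul_hom (L := K) (hF (σ j)) (0 : K) (0 : Fin (r + 1) → K)
      rw [smul_zero, zero_pow (hd _).ne', zero_mul] at h7
      rw [← DFunLike.congr_fun (coe_aeval_eq_eval (0 : Fin (r + 1) → K)) (F (σ j))]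
      exact h7
    · rw [map_zero]
    · intro a b _ _ ha hb
      rw [map_add, ha, hb, add_zero]
    · intro a b _ hb
      rw [smul_eq_mul, map_mul, hb, mul_zero]
  rw [map_one] at h6
  exact one_ne_zero h6

/-- regularity -/
theorem reg_lst [Infinite K] {F : Fin q → MvPolynomial (Fin (r + 1)) K} {d : Fin q → ℕ}
    (hr : r < q) (hd : ∀ i, 0 < d i) (hF : ∀ i, (F i).IsHomogeneous (d i))
    (hno : ∀ T : Finset (Fin q), T.card = r + 1 → ∀ (L : Type) [Field L] [Algebra K L]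
      (x : Fin (r + 1) → L), (∀ i ∈ T, aeval x (F i) = 0) → x = 0)
    (σ : Fin r → Fin q) (hσ : Function.Injective σ) (Y : Finset (Fin (r + 1) → K)) :
    RegL Y (⊥ : Ideal (MvPolynomial (Fin (r + 1)) K)) (lst F d σ) := by
  unfold lst
  refine RegL_ofFn _ _ _ fun j y _ u hu => ?_
  obtain ⟨i0, T0, hT0, hT0'⟩ := exists_more hr σ hσ
  have h1 := regU (K := K) (fun j => F (σ j)) (fun j => ⟨d (σ j), hd _, hF _⟩) (F i0) (d i0)
    (hd i0) (hF i0) (by
      intro L' _ _ x hx1 hx2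
      refine hno T0 hT0 L' x fun i hi => ?_
      rcases hT0' i hi with rfl | ⟨j, rfl⟩
      · exact hx2
      · exact hx1 j) j
  rw [bot_sup_eq] at hu ⊢
  exact ⟨1, 0, isHomogeneous_one _ _, by simp, by
    rw [one_mul]
    exact h1 u hu⟩

/-- the families of Evertse and Ferretti -/
theorem ef_fam [Infinite K] {F : Fin q → MvPolynomial (Fin (r + 1)) K} {d : Fin q → ℕ}
    (hr0 : 0 < r) (hd : ∀ i, 0 < d i) (hF : ∀ i, (F i).IsHomogeneous (d i))
    {σ : Fin r → Fin q} {Y : Finset (Fin (r + 1) → K)} (H : Pts F d σ Y)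
    (hreg : RegL Y (⊥ : Ideal (MvPolynomial (Fin (r + 1)) K)) (lst F d σ))
    (ε : ℝ) (hε : 0 < ε) (hε1 : ε ≤ 1) :
    ∃ t0 : ℕ, ∀ t, t0 ≤ t →
      ∃ (ι : Type) (_ : Fintype ι) (e : ι → MvPolynomial (Fin (r + 1)) K),
        (∀ i, (e i).IsHomogeneous t) ∧
        (∀ κ : ι → K, ∑ i, C (κ i) * e i = 0 → ∀ i, κ i = 0) ∧
        ∀ f : AbsoluteValue K ℝ, ∃ C : ℝ, 0 ≤ C ∧ ∀ z : Fin (r + 1) → K, z ≠ 0 →
          (∀ j, eval z (F (σ j)) ≠ 0) → (∀ i, eval z (e i) ≠ 0) →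
            (1 - ε) * (t * (t + r).choose r) / (r + 1) *
              (∑ j, lam f (d (σ j)) (F (σ j)) z / d (σ j)) ≤ ∑ i, lam f t (e i) z + C := by
  classical
  set l := lst F d σ with hl
  have hlpos : ∀ x ∈ l, 0 < x.2 := by
    intro x hx
    obtain ⟨j, rfl⟩ := mem_lst.1 hx
    exact hd _
  have hlhom : ∀ x ∈ l, x.1.IsHomogeneous x.2 := by
    intro x hx
    obtain ⟨j, rfl⟩ := mem_lst.1 hx
    exact hF _
  have hlen : l.length = r := by
    rw [hl]
    unfold lst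
    rw [List.length_ofFn]
  have hlne : l ≠ [] := by
    intro h
    rw [h, List.length_nil] at hlen
    omega
  have hYne := H.ne hd hF
  have hJ : HI (Jf ⊥ l) := HI.jf l hlhom ⊥ HI_bot
  have hzero : ∀ y ∈ Y, ∀ p ∈ Jf ⊥ l, eval y p = 0 := by
    intro y hy p hp
    rw [hl, Jf_lst, bot_sup_eq] at hp
    refine Submodule.span_induction (p := fun p _ => eval y p = 0) ?_ ?_ ?_ ?_ hp
    · rintro _ ⟨j, rfl⟩
      exact H.zero y hy j
    · rw [map_zero]
    · intro a b _ _ ha hb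
      rw [map_add, ha, hb, add_zero]
    · intro a b _ hb
      rw [smul_eq_mul, map_mul, hb, mul_zero]
  obtain ⟨g, hg, hgy⟩ := exists_lin Y H.y0
  obtain ⟨δ, s1, hδ1, hδ2⟩ := cc_eventually hJ Y H.y0 H.cov hYne
  obtain ⟨y1, hy1⟩ := hYne
  have hgn : ∀ s, g ^ s ∉ Sat (Jf ⊥ l) Y := by
    intro s hs
    obtain ⟨h, e, h1, h2, h3⟩ := hs y1 hy1
    have h4 := hzero y1 hy1 _ h3
    rw [map_mul, map_pow] at h4
    rcases mul_eq_zero.1 h4 with h5 | h5
    · exact h2 h5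
    · exact hgy y1 hy1 (eq_zero_of_pow_eq_zero h5)
  have hδpos : 0 < δ := by
    rw [← hδ2 s1 le_rfl]
    refine cc_pos (g ^ s1) ?_ (hgn s1)
    have := hg.pow s1
    rwa [one_mul] at this
  have hdegs : ∀ e ∈ l.map Prod.snd, 0 < e := by
    intro e he
    obtain ⟨x, hx, rfl⟩ := List.mem_map.1 he
    exact hlpos x hx
  obtain ⟨t0, ht0⟩ := sums (cc (Jf ⊥ l)) (cc (Sat (Jf ⊥ l) Y)) δ s1 s1 hδpos hδ1 hδ2
    (l.map Prod.snd) hdegs (by simpa using hlne) ε hε hε1
  refine ⟨t0, fun t ht => ?_⟩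
  obtain ⟨hW, -⟩ := ht0 t ht
  have hccNN : (((t + r).choose r : ℕ) : ℝ) ≤ NN (cc (Jf ⊥ l)) (l.map Prod.snd) t := by
    have hne := reg_ne Y ⟨y1, hy1⟩ l ⊥ hreg hzero
    rw [← cc_bot (K := K) t]
    exact_mod_cast cc_le_NN l (fun x hx => ⟨hlpos x hx, hlhom x hx, hne x hx⟩) ⊥ HI_bot t
  set β : ℝ := (1 - ε) * (t * (t + r).choose r) / (r + 1) with hβ
  have hβ0 : 0 ≤ β := by
    rw [hβ]
    have : 0 ≤ 1 - ε := by linarith
    positivity
  have hlenR : (0 : ℝ) < (l.length : ℝ) + 1 := by positivity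
  have hβle : β * (l.length + 1) ≤ (1 - ε) * (t * (NN (cc (Jf ⊥ l)) (l.map Prod.snd) t : ℝ)) := by
    rw [hβ, hlen, div_mul_cancel₀ _ (by positivity)]
    exact mul_le_mul_of_nonneg_left (mul_le_mul_of_nonneg_left hccNN (Nat.cast_nonneg t))
      (by linarith)
  obtain ⟨ι, hι, c, α, γ, b, h1, h2, h3, h4, h5, h6⟩ := fam_exists Y l hlpos g hg ⊥ hreg hgn t
  refine ⟨ι, hι, fun i => prodl l (α i) * g ^ γ i * c i, fun i => ?_, fun κ hκ => ?_, fun f => ?_⟩
  · rw [← h3 i]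
    have h7 := hg.pow (γ i)
    rw [one_mul] at h7
    exact ((prodl_hom l hlhom (α i)).mul h7).mul (h2 i)
  · exact h1 κ (le_Sat _ Y (by rw [hκ]; exact Ideal.zero_mem _))
  have hlog : ∀ p : MvPolynomial (Fin (r + 1)) K, 0 ≤ Real.log (1 + cs f p) := fun p =>
    Real.log_nonneg (by linarith [cs_nonneg f p])
  set C0 : ℝ := (l.map fun x => Real.log (1 + cs f x.1)).sum with hC0
  have hC00 : 0 ≤ C0 := List.sum_nonneg (by
    intro y hy
    obtain ⟨x, -, rfl⟩ := List.mem_map.1 hy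
    exact hlog _)
  have hC0x : ∀ x ∈ l, Real.log (1 + cs f x.1) ≤ C0 := by
    intro x hx
    rw [hC0]
    refine List.single_le_sum ?_ _ (List.mem_map.2 ⟨x, hx, rfl⟩)
    intro y hy
    obtain ⟨x, -, rfl⟩ := List.mem_map.1 hy
    exact hlog _
  set W : ℝ := ∑ p ∈ range l.length, ((∑ i, α i p : ℕ) : ℝ) with hWdef
  have hW0 : 0 ≤ W := Finset.sum_nonneg fun _ _ => Nat.cast_nonneg _
  set Γ : ℝ := ((∑ i, γ i : ℕ) : ℝ) with hΓdef
  have hΓ0 : 0 ≤ Γ := Nat.cast_nonneg _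
  set B : ℝ := ∑ i, Real.log (1 + cs f (c i)) with hB
  have hB0 : 0 ≤ B := Finset.sum_nonneg fun _ _ => hlog _
  have hg0 := hlog g
  refine ⟨C0 * W + Γ * Real.log (1 + cs f g) + B, by positivity, ?_⟩
  intro z hz hzF hze
  have hzl : ∀ x ∈ l, eval z x.1 ≠ 0 := by
    intro x hx
    obtain ⟨j, rfl⟩ := mem_lst.1 hx
    exact hzF j
  have hlow : ∀ x ∈ l, - C0 ≤ lam f x.2 x.1 z := by
    intro x hx
    have h1 := lam_low f hz (hlhom x hx) (hzl x hx)
    have h2 := hC0x x hx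
    linarith
  -- decomposition
  have hdec : ∀ i, lam f t (prodl l (α i) * g ^ γ i * c i) z =
      lamW f l (fun p => (α i p : ℝ)) z + γ i * lam f 1 g z + lam f (b i) (c i) z := by
    intro i
    have h1 := hze i
    rw [map_mul, map_mul] at h1
    obtain ⟨h2, h3'⟩ := mul_ne_zero_iff.1 h1
    obtain ⟨h4', h5'⟩ := mul_ne_zero_iff.1 h2
    rw [← h3 i, lam_mul f hz _ _ (by rw [map_mul]; exact h2) h3', lam_mul f hz _ _ h4' h5',
      lam_prodl f l _ hz h4']
    have h6' := lam_pow f hz 1 (γ i) h5'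
    rw [mul_one] at h6'
    rw [h6']
  have hsum : ∑ i, lam f t (prodl l (α i) * g ^ γ i * c i) z =
      lamW f l (fun p => ∑ i, (α i p : ℝ)) z + Γ * lam f 1 g z + ∑ i, lam f (b i) (c i) z := by
    simp only [hdec]
    rw [Finset.sum_add_distrib, Finset.sum_add_distrib, lamW_sum, ← Finset.sum_mul, hΓdef]
    push_cast
    rfl
  have hge := lamW_ge f l z C0 hC00 hlpos hlow β hβ0 (fun p => ∑ i, (α i p : ℝ)) (by
    intro p hp
    have h7 := hW p (by simpa using hp)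
    simp only [List.length_map, List.getElem_map] at h7
    have h8 := hβle.trans h7
    have h9 : ((l.length : ℝ) + 1) * (l[p].2) *
        (WW (cc (Sat (Jf ⊥ l) Y)) (l.map Prod.snd) p t : ℝ) =
        ((l[p].2 : ℝ) * (WW (cc (Sat (Jf ⊥ l) Y)) (l.map Prod.snd) p t : ℝ)) *
          (l.length + 1) := by ring
    rw [h9] at h8
    have h10 := le_of_mul_le_mul_right h8 hlenR
    have h11 : ∑ i, α i p = WW (cc (Sat (Jf ⊥ l) Y)) (l.map Prod.snd) p t := h5 p hp
    rw [← h11] at h10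
    push_cast at h10
    exact h10)
  have hWeq : ∑ p ∈ range l.length, ∑ i, (α i p : ℝ) = W := by
    rw [hWdef]
    push_cast
    rfl
  rw [hWeq] at hge
  have hcl : - B ≤ ∑ i, lam f (b i) (c i) z := by
    rw [hB, ← Finset.sum_neg_distrib]
    refine Finset.sum_le_sum fun i _ => ?_
    have h1 := hze i
    rw [map_mul] at h1
    exact lam_low f hz (h2 i) (mul_ne_zero_iff.1 h1).2
  -- the linear form
  have hgl : - (Γ * Real.log (1 + cs f g)) ≤ Γ * lam f 1 g z := by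
    rcases Nat.eq_zero_or_pos (∑ i, γ i) with h0 | h0
    · have h1 : Γ = 0 := by rw [hΓdef, h0, Nat.cast_zero]
      rw [h1]
      simp
    · obtain ⟨i, -, hi⟩ := Finset.exists_ne_zero_of_sum_ne_zero h0.ne'
      have hgz : eval z g ≠ 0 := by
        intro hg0
        apply hze i
        rw [map_mul, map_mul, map_pow, hg0, zero_pow hi, mul_zero, zero_mul]
      have h1 := lam_low f hz hg hgz
      have h2 := mul_le_mul_of_nonneg_left h1 hΓ0
      linarith
  have hlamD : lamD f l z = ∑ j, lam f (d (σ j)) (F (σ j)) z / d (σ j) := lamD_lst f F d σ z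
  rw [hsum, ← hlamD]
  linarith

end Run7.h684.VC
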