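import Mathlib

set_option autoImplicit false

/-!
Real inequalities for the approximation of the weights by integers.
-/

namespace Run7.h684.VC

open Finset

/-- the additional term -/
noncomputable def gain {r : ℕ} (d : Fin r → ℕ) (y z : Fin r → ℝ) : ℝ :=
  ∑ j, (1 - 1 / (d j : ℝ)) * z j + r * (∏ j, y j) ^ ((1 : ℝ) / r) - ∑ j, y j / d j

variable {r : ℕ}

theorem rpow_root_le {r : ℕ} (hr : 0 < r) {a b : ℝ} (ha : 0 ≤ a) (hb : 0 ≤ b) (h : a ≤ b ^ r) :
    a ^ ((1 : ℝ) / r) ≤ b := by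
  have hr' : (r : ℝ) ≠ 0 := by exact_mod_cast hr.ne'
  have h1 : b = (b ^ r) ^ ((1 : ℝ) / r) := by
    rw [one_div, Real.pow_rpow_inv_natCast hb hr.ne']
  rw [h1]
  exact Real.rpow_le_rpow ha h (by positivity)

/-- the trivial bound -/
theorem gain_le (hr : 0 < r) (d : Fin r → ℕ) (hd : ∀ j, 0 < d j) (y z : Fin r → ℝ)
    (hy : ∀ j, 0 ≤ y j) (hz : ∀ j, 0 ≤ z j) {a b c : ℝ} (hzb : ∀ j, z j ≤ b)
    (hc : 0 ≤ c) (hP : ∏ j, y j ≤ c ^ r) (ha : r * b + r * c ≤ a) :
    gain d y z ≤ a := by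
  unfold gain
  have hdR : ∀ j, (1 : ℝ) ≤ d j := fun j => by exact_mod_cast hd j
  have h1 : ∑ j, (1 - 1 / (d j : ℝ)) * z j ≤ ∑ _j : Fin r, b := by
    refine Finset.sum_le_sum fun j _ => ?_
    have h2 : 0 ≤ 1 / (d j : ℝ) := by positivity
    have h3 : (1 - 1 / (d j : ℝ)) * z j = z j - 1 / (d j : ℝ) * z j := by ring
    rw [h3]
    have h4 := mul_nonneg h2 (hz j)
    linarith [hzb j]
  rw [Finset.sum_const, card_univ, Fintype.card_fin, nsmul_eq_mul] at h1
  have h2 : (∏ j, y j) ^ ((1 : ℝ) / r) ≤ c :=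
    rpow_root_le hr (Finset.prod_nonneg fun j _ => hy j) hc hP
  have h3 : 0 ≤ ∑ j, y j / (d j : ℝ) := Finset.sum_nonneg fun j _ => div_nonneg (hy j)
    (Nat.cast_nonneg _)
  have h4 : (r : ℝ) * (∏ j, y j) ^ ((1 : ℝ) / r) ≤ r * c :=
    mul_le_mul_of_nonneg_left h2 (Nat.cast_nonneg _)
  linarith

/-- a product with one small factor -/
theorem prod_small (hr : 0 < r) (y : Fin r → ℝ) (hy : ∀ j, 0 ≤ y j) {A δ H : ℝ}
    (hH : 0 ≤ H) (hδ : 0 ≤ δ) (h : ∀ j, y j ≤ A * H) (j0 : Fin r)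
    (hj0 : y j0 ≤ δ * H) :
    ∏ j, y j ≤ δ * A ^ (r - 1) * H ^ r := by
  classical
  rw [← Finset.mul_prod_erase _ _ (Finset.mem_univ j0)]
  have h1 : ∏ j ∈ univ.erase j0, y j ≤ ∏ _j ∈ (univ.erase j0 : Finset (Fin r)), (A * H) :=
    Finset.prod_le_prod (fun j _ => hy j) fun j _ => h j
  rw [Finset.prod_const, Finset.card_erase_of_mem (Finset.mem_univ _), Finset.card_univ,
    Fintype.card_fin] at h1
  have h2 : 0 ≤ ∏ j ∈ univ.erase j0, y j := Finset.prod_nonneg fun j _ => hy j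
  refine (mul_le_mul hj0 h1 h2 (by positivity)).trans (le_of_eq ?_)
  obtain ⟨s, rfl⟩ : ∃ s, r = s + 1 := ⟨r - 1, by omega⟩
  rw [Nat.add_sub_cancel, mul_pow, pow_succ]
  ring

/-- `∏ (a j + 1) ≤ ∏ a j + r * M ^ (r - 1)` -/
theorem prod_add_one (s : ℕ) : ∀ (a : Fin s → ℝ) (M : ℝ), (∀ j, 0 ≤ a j) →
    (∀ j, a j + 1 ≤ M) → 1 ≤ M → ∏ j, (a j + 1) ≤ ∏ j, a j + s * M ^ (s - 1) := by
  induction s with
  | zero => intro a M _ _ _; simp
  | succ s ih =>
    intro a M ha hM hM1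
    rw [Fin.prod_univ_succ, Fin.prod_univ_succ]
    have h1 := ih (fun j => a j.succ) M (fun j => ha _) (fun j => hM _) hM1
    have h2 : ∏ j : Fin s, (a j.succ + 1) ≤ M ^ s := by
      have h3 := Finset.prod_le_prod (s := (Finset.univ : Finset (Fin s)))
        (f := fun j => a j.succ + 1) (g := fun _ => M)
        (fun j _ => by have := ha j.succ; linarith) (fun j _ => hM _)
      rwa [Finset.prod_const, Finset.card_univ, Fintype.card_fin] at h3
    have h4 : (a 0 + 1) * ∏ j : Fin s, (a j.succ + 1) =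
        a 0 * ∏ j : Fin s, (a j.succ + 1) + ∏ j : Fin s, (a j.succ + 1) := by ring
    rw [h4]
    have h5 : a 0 * ∏ j : Fin s, (a j.succ + 1) ≤
        a 0 * (∏ j : Fin s, a j.succ + s * M ^ (s - 1)) :=
      mul_le_mul_of_nonneg_left h1 (ha 0)
    have h6 : a 0 * (s * M ^ (s - 1)) ≤ s * M ^ s := by
      rcases Nat.eq_zero_or_pos s with h | h
      · subst h
        simp
      · obtain ⟨p, rfl⟩ : ∃ p, s = p + 1 := ⟨s - 1, by omega⟩
        rw [Nat.add_sub_cancel]
        have h7 : a 0 ≤ M := by linarith [hM 0]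
        have h8 : 0 ≤ ((p + 1 : ℕ) : ℝ) * M ^ p := by positivity
        have h9 := mul_le_mul_of_nonneg_right h7 h8
        refine h9.trans (le_of_eq ?_)
        rw [pow_succ]
        ring
    rw [Nat.add_sub_cancel]
    push_cast
    have h7 : a 0 * (∏ j : Fin s, a j.succ + s * M ^ (s - 1)) =
      a 0 * ∏ j : Fin s, a j.succ + a 0 * (s * M ^ (s - 1)) := by ring
    rw [h7] at h5
    linarith

/-- the approximation of the weights -/
theorem grid (hr : 0 < r) (d : Fin r → ℕ) (hd : ∀ j, 0 < d j) {θ : ℝ} (hθ : 0 < θ)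
    (L y z : Fin r → ℝ) (hy : ∀ j, 0 ≤ y j) (hz : ∀ j, 0 ≤ z j) (hyz : ∀ j, y j + z j ≤ L j)
    (hzz : ∀ i j, z i ≤ 2 * z j) {P : ℝ} (hP : 0 ≤ P) (hLP : ∀ j, L j ≤ P * θ) :
    ∃ u z' v : Fin r → ℕ, (∀ i j, z' i ≤ 2 * z' j) ∧
      (∀ j, ((u j + z' j + v j : ℕ) : ℝ) * θ ≤ L j) ∧
      (∀ j, θ ≤ L j → 1 ≤ u j + z' j + v j) ∧
      (∀ j, ((u j + z' j + v j : ℕ) : ℝ) ≤ P) ∧
      ∑ j, L j / d j + gain d y z ≤
        θ * (∑ j, (u j : ℝ) / d j + ∑ j, (z' j : ℝ) + r * (∏ j, (v j : ℝ)) ^ ((1 : ℝ) / r)) +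
          θ * (3 * r + r * (r * (P + 1) ^ (r - 1)) ^ ((1 : ℝ) / r)) := by
  classical
  have hdR : ∀ j, (1 : ℝ) ≤ d j := fun j => by exact_mod_cast hd j
  have hne : (Finset.univ : Finset (Fin r)).Nonempty := ⟨⟨0, hr⟩, Finset.mem_univ _⟩
  set b : Fin r → ℕ := fun j => ⌊z j / θ⌋₊ with hb
  obtain ⟨j0, -, hj0⟩ := Finset.exists_min_image Finset.univ b hne
  set z' : Fin r → ℕ := fun j => min (b j) (2 * b j0) with hz'
  set v : Fin r → ℕ := fun j => ⌊y j / θ⌋₊ with hv
  set m : Fin r → ℕ := fun j => ⌊L j / θ⌋₊ with hm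
  have hL0 : ∀ j, 0 ≤ L j := fun j => by have := hy j; have := hz j; have := hyz j; linarith
  have hvm : ∀ j, z' j + v j ≤ m j := by
    intro j
    have h1 : z' j ≤ b j := min_le_left _ _
    have h2 : b j + v j ≤ m j := by
      rw [hm]
      refine Nat.le_floor ?_
      push_cast
      have h3 : ((⌊z j / θ⌋₊ : ℕ) : ℝ) ≤ z j / θ := Nat.floor_le (div_nonneg (hz j) hθ.le)
      have h4 : ((⌊y j / θ⌋₊ : ℕ) : ℝ) ≤ y j / θ := Nat.floor_le (div_nonneg (hy j) hθ.le)
      have h5 : z j / θ + y j / θ ≤ L j / θ := by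
        rw [← add_div]
        exact div_le_div_of_nonneg_right (by linarith [hyz j]) hθ.le
      show ((⌊z j / θ⌋₊ : ℕ) : ℝ) + ((⌊y j / θ⌋₊ : ℕ) : ℝ) ≤ L j / θ
      linarith
    omega
  refine ⟨fun j => m j - z' j - v j, z', v, ?_, ?_, ?_, ?_, ?_⟩
  · intro i j
    have h1 := hj0 j (Finset.mem_univ j)
    have h2 : z' i ≤ 2 * b j0 := min_le_right _ _
    have h3 : b j0 ≤ z' j := le_min h1 (by omega)
    omega
  · intro j
    have h1 : m j - z' j - v j + z' j + v j = m j := by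
      have := hvm j
      omega
    show ((m j - z' j - v j + z' j + v j : ℕ) : ℝ) * θ ≤ L j
    rw [h1]
    have h2 : ((⌊L j / θ⌋₊ : ℕ) : ℝ) ≤ L j / θ := Nat.floor_le (div_nonneg (hL0 j) hθ.le)
    rw [le_div_iff₀ hθ] at h2
    exact h2
  · intro j hj
    have h1 : m j - z' j - v j + z' j + v j = m j := by
      have := hvm j
      omega
    show 1 ≤ m j - z' j - v j + z' j + v j
    rw [h1]
    refine Nat.le_floor ?_
    rw [Nat.cast_one, le_div_iff₀ hθ]
    linarith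
  · intro j
    have h1 : m j - z' j - v j + z' j + v j = m j := by
      have := hvm j
      omega
    show ((m j - z' j - v j + z' j + v j : ℕ) : ℝ) ≤ P
    rw [h1]
    refine (Nat.floor_le (div_nonneg (hL0 j) hθ.le)).trans ?_
    rw [div_le_iff₀ hθ]
    exact hLP j
  · -- the estimate
    have hzlow : ∀ j, z j - 2 * θ ≤ θ * z' j := by
      intro j
      have h1 : ∀ i, z i - θ ≤ θ * b i := by
        intro i
        have h2 : z i / θ < (⌊z i / θ⌋₊ : ℝ) + 1 := Nat.lt_floor_add_one _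
        rw [div_lt_iff₀ hθ] at h2
        have h3 : ((⌊z i / θ⌋₊ : ℝ) + 1) * θ = θ * (b i : ℝ) + θ := by
          rw [hb]
          ring
        linarith
      have h2 : ((z' j : ℕ) : ℝ) = min (b j : ℝ) (2 * b j0 : ℝ) := by
        rw [hz']
        push_cast
        rfl
      rw [h2, mul_min_of_nonneg _ _ hθ.le]
      refine le_min ?_ ?_
      · linarith [h1 j]
      · have h3 := h1 j0
        have h4 := hzz j j0
        have h5 : θ * (2 * (b j0 : ℝ)) = 2 * (θ * b j0) := by ring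
        rw [h5]
        linarith
    have hvle : ∀ j, θ * v j ≤ y j := by
      intro j
      have h2 : ((⌊y j / θ⌋₊ : ℕ) : ℝ) ≤ y j / θ := Nat.floor_le (div_nonneg (hy j) hθ.le)
      rw [le_div_iff₀ hθ] at h2
      rw [mul_comm]
      exact h2
    have hyv : ∀ j, y j ≤ θ * (v j + 1) := by
      intro j
      have h2 : y j / θ < (⌊y j / θ⌋₊ : ℝ) + 1 := Nat.lt_floor_add_one _
      rw [div_lt_iff₀ hθ] at h2
      rw [mul_comm]
      exact h2.le
    have hmlow : ∀ j, L j - θ ≤ θ * m j := by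
      intro j
      have h2 : L j / θ < (⌊L j / θ⌋₊ : ℝ) + 1 := Nat.lt_floor_add_one _
      rw [div_lt_iff₀ hθ] at h2
      have h3 : ((⌊L j / θ⌋₊ : ℝ) + 1) * θ = θ * (m j : ℝ) + θ := by
        rw [hm]
        ring
      linarith
    -- the linear part
    have hlin : ∀ j, L j / d j + (1 - 1 / (d j : ℝ)) * z j - y j / d j ≤
        θ * (((m j - z' j - v j : ℕ) : ℝ) / d j) + θ * z' j + 3 * θ := by
      intro j
      have h1 : ((m j - z' j - v j : ℕ) : ℝ) = m j - z' j - v j := by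
        have := hvm j
        rw [Nat.cast_sub (by omega), Nat.cast_sub (by omega)]
      rw [h1]
      have hdj := hdR j
      have hd0 : (0 : ℝ) < d j := by linarith
      have e1 : L j / d j + (1 - 1 / (d j : ℝ)) * z j - y j / d j =
          (1 / d j) * (L j - y j - z j) + z j := by
        field_simp
        ring
      have e2 : θ * ((m j - z' j - v j : ℝ) / d j) + θ * z' j + 3 * θ =
          (1 / d j) * (θ * m j - θ * v j - θ * z' j) + θ * z' j + 3 * θ := by
        field_simp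
        ring
      rw [e1, e2]
      have h2 : (0 : ℝ) ≤ 1 / d j := by positivity
      have h3 : (1 : ℝ) / d j ≤ 1 := by
        rw [div_le_one hd0]
        exact hdj
      have h4 := hmlow j
      have h5 := hvle j
      have h6 := hzlow j
      have h7 : 0 ≤ 1 / (d j : ℝ) * (θ * m j - (L j - θ)) := mul_nonneg h2 (by linarith)
      have h8 : 0 ≤ 1 / (d j : ℝ) * (y j - θ * v j) := mul_nonneg h2 (by linarith)
      have h9 : 0 ≤ (1 - 1 / (d j : ℝ)) * (θ * z' j - (z j - 2 * θ)) :=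
        mul_nonneg (by linarith) (by linarith)
      have h10 : 1 / (d j : ℝ) * θ ≤ θ := by nlinarith
      have h11 : 0 ≤ 1 / (d j : ℝ) * θ := by positivity
      nlinarith
    have hlins := Finset.sum_le_sum fun j (_ : j ∈ (Finset.univ : Finset (Fin r))) => hlin j
    simp only [Finset.sum_add_distrib, Finset.sum_sub_distrib, Finset.sum_const, card_univ,
      Fintype.card_fin, nsmul_eq_mul] at hlins
    rw [← Finset.mul_sum, ← Finset.mul_sum] at hlins
    -- the geometric mean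
    have hgm : (∏ j, y j) ^ ((1 : ℝ) / r) ≤ θ * (∏ j, (v j : ℝ)) ^ ((1 : ℝ) / r) +
        θ * (r * (P + 1) ^ (r - 1)) ^ ((1 : ℝ) / r) := by
      have h1 : ∏ j, y j ≤ θ ^ r * (∏ j, (v j : ℝ) + r * (P + 1) ^ (r - 1)) := by
        have h2 : ∏ j, y j ≤ ∏ j, (θ * ((v j : ℝ) + 1)) :=
          Finset.prod_le_prod (fun j _ => hy j) fun j _ => hyv j
        rw [Finset.prod_mul_distrib, Finset.prod_const, card_univ, Fintype.card_fin] at h2
        refine h2.trans (mul_le_mul_of_nonneg_left ?_ (by positivity))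
        refine prod_add_one r (fun j => (v j : ℝ)) (P + 1) (fun j => Nat.cast_nonneg _) ?_
          (by linarith)
        intro j
        have h3 : (v j : ℝ) ≤ P := by
          have h4 : θ * v j ≤ P * θ := (hvle j).trans (by
            have := hyz j
            have := hz j
            have := hLP j
            linarith)
          rw [mul_comm P θ] at h4
          exact le_of_mul_le_mul_left h4 hθ
        linarith
      have h4 : 0 ≤ ∏ j, (v j : ℝ) := Finset.prod_nonneg fun j _ => Nat.cast_nonneg _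
      have h5 : 0 ≤ (r : ℝ) * (P + 1) ^ (r - 1) := by positivity
      have hr1 : (0 : ℝ) ≤ (1 : ℝ) / r := by positivity
      have hr2 : (1 : ℝ) / r ≤ 1 := by
        rw [div_le_one (by exact_mod_cast hr)]
        exact_mod_cast hr
      have h6 := Real.rpow_le_rpow (Finset.prod_nonneg fun j _ => hy j) h1 hr1
      rw [Real.mul_rpow (by positivity) (by positivity)] at h6
      have h7 : (θ ^ r) ^ ((1 : ℝ) / r) = θ := by
        rw [one_div, Real.pow_rpow_inv_natCast hθ.le hr.ne']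
      rw [h7] at h6
      refine h6.trans ?_
      rw [← mul_add]
      refine mul_le_mul_of_nonneg_left ?_ hθ.le
      exact Real.rpow_add_le_add_rpow h4 h5 hr1 hr2
    have hgm' := mul_le_mul_of_nonneg_left hgm (Nat.cast_nonneg (α := ℝ) r)
    unfold gain
    have e3 : θ * (∑ j, ((m j - z' j - v j : ℕ) : ℝ) / d j + ∑ j, (z' j : ℝ) +
        r * (∏ j, (v j : ℝ)) ^ ((1 : ℝ) / r)) +
          θ * (3 * r + r * (r * (P + 1) ^ (r - 1)) ^ ((1 : ℝ) / r)) =
        (θ * ∑ j, ((m j - z' j - v j : ℕ) : ℝ) / d j + θ * ∑ j, (z' j : ℝ) + r * (3 * θ)) +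
        r * (θ * (∏ j, (v j : ℝ)) ^ ((1 : ℝ) / r) +
          θ * (r * (P + 1) ^ (r - 1)) ^ ((1 : ℝ) / r)) := by ring
    show ∑ j, L j / d j + _ ≤ θ * (∑ j, ((m j - z' j - v j : ℕ) : ℝ) / d j +
      ∑ j, (z' j : ℝ) + r * (∏ j, (v j : ℝ)) ^ ((1 : ℝ) / r)) +
          θ * (3 * r + r * (r * (P + 1) ^ (r - 1)) ^ ((1 : ℝ) / r))
    rw [e3]
    linarith

/-- the choice of the number of steps -/
theorem exists_m (hr : 0 < r) {A η : ℝ} (hA : 0 ≤ A) (hη : 0 < η) (m0 : ℕ) :
    ∃ m : ℕ, m0 ≤ m ∧ 0 < m ∧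
      (3 * r + r * (r * (A * m + 1) ^ (r - 1)) ^ ((1 : ℝ) / r)) / m ≤ η := by
  have hrR : (0 : ℝ) < r := by exact_mod_cast hr
  set c : ℝ := r * (A + 1) ^ (r - 1) with hc
  have hc0 : 0 < c := by positivity
  set e : ℝ := (η / (2 * r)) ^ r with he
  have he0 : 0 < e := by positivity
  obtain ⟨m, hm⟩ := exists_nat_ge (6 * r / η + c / e + m0 + 1)
  have h6 : 0 ≤ 6 * r / η := by positivity
  have hce : 0 ≤ c / e := by positivity
  have hm1 : (1 : ℝ) ≤ m := by
    have : (0 : ℝ) ≤ m0 := Nat.cast_nonneg _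
    linarith
  have hmpos : (0 : ℝ) < m := by linarith
  refine ⟨m, ?_, ?_, ?_⟩
  · have : (m0 : ℝ) ≤ m := by linarith
    exact_mod_cast this
  · exact_mod_cast hmpos
  · rw [div_le_iff₀ hmpos]
    have h1 : 3 * r ≤ η / 2 * m := by
      have : 6 * r / η ≤ m := by
        have : (0 : ℝ) ≤ m0 := Nat.cast_nonneg _
        linarith
      rw [div_le_iff₀ hη] at this
      linarith
    have h2 : (r * (A * m + 1) ^ (r - 1)) ^ ((1 : ℝ) / r) ≤ η / (2 * r) * m := by
      refine rpow_root_le hr (by positivity) (by positivity) ?_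
      have h3 : A * m + 1 ≤ (A + 1) * m := by nlinarith
      have h4 : (A * m + 1) ^ (r - 1) ≤ ((A + 1) * m) ^ (r - 1) :=
        pow_le_pow_left₀ (by positivity) h3 _
      have h5 : (r : ℝ) * (A * m + 1) ^ (r - 1) ≤ c * (m : ℝ) ^ (r - 1) := by
        rw [hc, mul_assoc]
        rw [mul_pow] at h4
        exact mul_le_mul_of_nonneg_left h4 hrR.le
      refine h5.trans ?_
      rw [mul_pow]
      have h7 : (m : ℝ) ^ r = m * (m : ℝ) ^ (r - 1) := by
        obtain ⟨s, rfl⟩ : ∃ s, r = s + 1 := ⟨r - 1, by omega⟩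
        rw [Nat.add_sub_cancel, pow_succ]
        ring
      rw [h7, ← mul_assoc, ← he]
      refine mul_le_mul_of_nonneg_right ?_ (by positivity)
      have : c / e ≤ m := by
        have : (0 : ℝ) ≤ m0 := Nat.cast_nonneg _
        linarith
      rwa [div_le_iff₀ he0, mul_comm] at this
    have h3 : (r : ℝ) * (r * (A * m + 1) ^ (r - 1)) ^ ((1 : ℝ) / r) ≤ η / 2 * m := by
      refine (mul_le_mul_of_nonneg_left h2 hrR.le).trans (le_of_eq ?_)
      field_simp
    linarith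

/-- the choice of the bound for small heights -/
theorem exists_delta (hr : 0 < r) {A η : ℝ} (hA : 0 ≤ A) (hη : 0 < η) :
    ∃ δ : ℝ, 0 < δ ∧ 2 * r * δ ≤ η / 2 ∧ δ * A ^ (r - 1) ≤ (η / (2 * r)) ^ r := by
  have hrR : (0 : ℝ) < r := by exact_mod_cast hr
  set e : ℝ := (η / (2 * r)) ^ r with he
  have he0 : 0 < e := by positivity
  refine ⟨min (η / (4 * r)) (e / (A ^ (r - 1) + 1)), lt_min (by positivity) (by positivity), ?_, ?_⟩
  · have h1 := min_le_left (η / (4 * r)) (e / (A ^ (r - 1) + 1))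
    have h2 := mul_le_mul_of_nonneg_left h1 (show (0 : ℝ) ≤ 2 * r by positivity)
    refine h2.trans (le_of_eq ?_)
    field_simp
    ring
  · have h1 := min_le_right (η / (4 * r)) (e / (A ^ (r - 1) + 1))
    have hA' : 0 ≤ A ^ (r - 1) := by positivity
    have h2 := mul_le_mul_of_nonneg_right h1 hA'
    refine h2.trans ?_
    rw [div_mul_eq_mul_div, div_le_iff₀ (by positivity)]
    nlinarith

end Run7.h684.VC
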