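import Mathlib
import Pool.Agent.Run7.h684.EFm
import Pool.Agent.Run7.h684.Rl

set_option autoImplicit false

/-!
The local inequality.
-/

namespace Run7.h684.VC

open MvPolynomial Finset Module
open Pool.Agent.W180.OP (nrm le_nrm nrm_pos nrm_nonneg exists_nrm lam lam_eq cs cs_nonneg abv_mv)
open Pool.Agent.R404.TC

variable {K : Type} [Field K] {r q : ℕ}

/-- the data over a large field -/
structure Dat (F : Fin q → MvPolynomial (Fin (r + 1)) K) (d : Fin q → ℕ)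
    (Y : (Fin r → Fin q) → Finset (Fin (r + 1) → K))
    (g : (Fin (r + 1) → K) → Fin (r + 1) → K) : Prop where
  rq : r < q
  r0 : 0 < r
  dpos : ∀ i, 0 < d i
  hom : ∀ i, (F i).IsHomogeneous (d i)
  no : ∀ T : Finset (Fin q), T.card = r + 1 → ∀ (L : Type) [Field L] [Algebra K L]
    (x : Fin (r + 1) → L), (∀ i ∈ T, aeval x (F i) = 0) → x = 0
  pts : ∀ σ : Fin r → Fin q, Function.Injective σ → Pts F d σ (Y σ)
  trans : ∀ σ : Fin r → Fin q, Function.Injective σ → ∀ y ∈ Y σ,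
    ∃ J', Trans (fun j => F (σ j)) (g y) y J'

/-- the property of the families of Evertse and Ferretti -/
def QE (F : Fin q → MvPolynomial (Fin (r + 1)) K) (d : Fin q → ℕ) (σ : Fin r → Fin q) (ε : ℝ)
    (t : ℕ) (ι : Type) [Fintype ι] (e : ι → MvPolynomial (Fin (r + 1)) K) : Prop :=
  ∀ f : AbsoluteValue K ℝ, ∃ C : ℝ, 0 ≤ C ∧ ∀ z : Fin (r + 1) → K, z ≠ 0 →
    (∀ j, eval z (F (σ j)) ≠ 0) → (∀ i, eval z (e i) ≠ 0) →
      (1 - ε) * (t * (t + r).choose r) / (r + 1) *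
        (∑ j, lam f (d (σ j)) (F (σ j)) z / d (σ j)) ≤ ∑ i, lam f t (e i) z + C

/-- the property of the families at a crossing point -/
def QC (F : Fin r → MvPolynomial (Fin (r + 1)) K) (d : Fin r → ℕ) (g y : Fin (r + 1) → K)
    (u z v : Fin r → ℕ) (ε : ℝ)
    (t : ℕ) (ι : Type) [Fintype ι] (e : ι → MvPolynomial (Fin (r + 1)) K) : Prop :=
  ∀ f : AbsoluteValue K ℝ, ∃ ρ C : ℝ, 0 < ρ ∧ 0 ≤ C ∧ ∀ x : Fin (r + 1) → K,
    NearPt f g y ρ x → (∀ j, eval x (F j) ≠ 0) → (∀ i, eval x (e i) ≠ 0) →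
    ∀ θ : ℝ, 0 ≤ θ →
      (∀ j, ((u j + z j + v j : ℕ) : ℝ) * θ ≤ lam f (d j) (F j) x) →
      θ * ((1 - ε) * (t * (t + r).choose r) / (r + 1) * (∑ j, (u j : ℝ) / d j +
        ∑ j, (z j : ℝ) + r * (∏ j, (v j : ℝ)) ^ ((1 : ℝ) / r))) ≤
        ∑ i, lam f t (e i) x + C

theorem others (a : Fin q → ℝ) (d : Fin q → ℕ) (hd : ∀ i, 0 < d i) {Cf : ℝ} (hCf : 0 ≤ Cf)
    (σ : Fin r → Fin q) (hσ : Function.Injective σ) (h : ∀ i, i ∉ Set.range σ → a i ≤ Cf) :
    ∑ i, a i / d i ≤ ∑ j, a (σ j) / d (σ j) + q * Cf := by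
  classical
  have e1 : ∑ j, a (σ j) / d (σ j) = ∑ i ∈ Finset.univ.image σ, a i / d i := by
    rw [Finset.sum_image hσ.injOn]
  rw [e1, ← Finset.sum_sdiff (Finset.subset_univ (Finset.univ.image σ)), add_comm]
  have e2 : ∑ i ∈ Finset.univ \ Finset.univ.image σ, a i / d i ≤
      ∑ _i ∈ Finset.univ \ Finset.univ.image σ, Cf := by
    refine Finset.sum_le_sum fun i hi => ?_
    have hi' : i ∉ Set.range σ := by
      rintro ⟨j, hj⟩
      rw [Finset.mem_sdiff] at hi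
      exact hi.2 (Finset.mem_image.2 ⟨j, Finset.mem_univ _, hj⟩)
    have e3 := h i hi'
    have e4 : (1 : ℝ) ≤ d i := by exact_mod_cast hd i
    rw [div_le_iff₀ (by linarith)]
    nlinarith
  rw [Finset.sum_const, nsmul_eq_mul] at e2
  have e3 : ((Finset.univ \ Finset.univ.image σ).card : ℝ) ≤ q := by
    have := Finset.card_le_univ (Finset.univ \ Finset.univ.image σ)
    rw [Fintype.card_fin] at this
    exact_mod_cast this
  have e4 := mul_le_mul_of_nonneg_right e3 hCf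
  linarith

theorem range_le (a : Fin q → ℝ) {Cf : ℝ} (σ τ : Fin r → Fin q)
    (hσ : Function.Injective σ) (hτ : Function.Injective τ)
    (h : ∀ i, i ∉ Set.range σ → a i ≤ Cf) (h' : ∀ j, Cf < a (τ j)) :
    ∀ i, i ∉ Set.range τ → a i ≤ Cf := by
  classical
  intro i hi
  refine h i fun hi' => hi ?_
  have e1 : Finset.univ.image τ ⊆ Finset.univ.image σ := by
    intro i hi
    obtain ⟨j, -, rfl⟩ := Finset.mem_image.1 hi
    by_contra hcon
    have h1 : τ j ∉ Set.range σ := by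
      rintro ⟨j', hj'⟩
      exact hcon (Finset.mem_image.2 ⟨j', Finset.mem_univ _, hj'⟩)
    have h2 := h _ h1
    have h3 := h' j
    linarith
  have e2 := Finset.eq_of_subset_of_card_le e1 (by
    rw [Finset.card_image_of_injective _ hτ, Finset.card_image_of_injective _ hσ])
  obtain ⟨j, rfl⟩ := hi'
  have h4 : σ j ∈ Finset.univ.image τ := by
    rw [e2]
    exact Finset.mem_image.2 ⟨j, Finset.mem_univ _, rfl⟩
  obtain ⟨j', -, hj'⟩ := Finset.mem_image.1 h4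
  exact ⟨j', hj'⟩

theorem local_all [Infinite K] {F : Fin q → MvPolynomial (Fin (r + 1)) K} {d : Fin q → ℕ}
    {Y : (Fin r → Fin q) → Finset (Fin (r + 1) → K)}
    {g : (Fin (r + 1) → K) → Fin (r + 1) → K} (D : Dat F d Y g) {A η ε : ℝ} (hA : 1 ≤ A)
    (hη : 0 < η) (hε : 0 < ε) (hε1 : ε < 1) :
    ∃ (Ξ : Type) (_ : Fintype Ξ) (_ : Nonempty Ξ) (t0 : ℕ), ∀ t, t0 ≤ t → 0 < t →
      ∃ (ι : Ξ → Type) (_ : ∀ ξ, Fintype (ι ξ)) (e : ∀ ξ, ι ξ → MvPolynomial (Fin (r + 1)) K),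
        (∀ ξ i, (e ξ i).IsHomogeneous t) ∧
        (∀ ξ (κ : ι ξ → K), ∑ i, C (κ i) * e ξ i = 0 → ∀ i, κ i = 0) ∧
        ∀ f : AbsoluteValue K ℝ, ∃ Dc : ℝ, 0 ≤ Dc ∧ ∀ x : Fin (r + 1) → K, x ≠ 0 →
          (∀ i, eval x (F i) ≠ 0) → ∀ h : ℝ, 0 ≤ h →
          (∀ i, lam f (d i) (F i) x ≤ A * (h + 1)) →
          ∀ τ : Fin r → Fin q, Function.Injective τ → ∀ y z : Fin r → ℝ, (∀ j, 0 ≤ y j) →
          (∀ j, 0 ≤ z j) → (∀ j, y j + z j ≤ lam f (d (τ j)) (F (τ j)) x) →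
          (∀ i j, z i ≤ 2 * z j) →
          ∃ ξ : Ξ, (∀ i, eval x (e ξ i) ≠ 0) →
            ∑ i, lam f (d i) (F i) x / d i + gain (fun j => d (τ j)) y z ≤
              (∑ i, lam f t (e ξ i) x) / ((1 - ε) * (t * (t + r).choose r) / (r + 1)) +
                η * h + Dc := by
  classical
  obtain ⟨δ, hδ, hδ1, hδ2⟩ := exists_delta D.r0 (by linarith : 0 ≤ A) hη
  obtain ⟨m, hm0, hmpos, hm⟩ := exists_m D.r0 (by linarith : 0 ≤ A) hη ⌈1 / δ⌉₊
  have hr0 := D.r0
  have hrR : (0 : ℝ) < r := by exact_mod_cast hr0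
  have hmR : (0 : ℝ) < m := by exact_mod_cast hmpos
  set Mx : ℕ := ⌊A * m⌋₊ with hMx
  let Wt : Type := {w : (Fin r → Fin (Mx + 1)) × (Fin r → Fin (Mx + 1)) × (Fin r → Fin (Mx + 1)) //
    (∀ i j, (w.2.1 i : ℕ) ≤ 2 * w.2.1 j) ∧ ∀ j, 1 ≤ (w.1 j : ℕ) + w.2.1 j + w.2.2 j}
  let Ξc : Type := Σ τ : {τ : Fin r → Fin q // Function.Injective τ}, Y τ.1 × Wt
  let Ξ : Type := {σ : Fin r → Fin q // StrictMono σ} ⊕ Ξc
  let Q : Ξ → ℕ → (ι : Type) → Fintype ι → (ι → MvPolynomial (Fin (r + 1)) K) → Prop :=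
    fun ξ t ι hι e => match ξ with
      | Sum.inl σ => @QE K _ r q F d σ.1 ε t ι hι e
      | Sum.inr c => @QC K _ r (fun j => F (c.1.1 j)) (fun j => d (c.1.1 j)) (g c.2.1.1) c.2.1.1
          (fun j => (c.2.2.1.1 j : ℕ)) (fun j => (c.2.2.1.2.1 j : ℕ))
          (fun j => (c.2.2.1.2.2 j : ℕ)) ε t ι hι e
  have hfam : ∀ ξ : Ξ, ∃ t0 : ℕ, ∀ t, t0 ≤ t → ∃ (ι : Type) (hι : Fintype ι)
      (e : ι → MvPolynomial (Fin (r + 1)) K), (∀ i, (e i).IsHomogeneous t) ∧
      (∀ κ : ι → K, ∑ i, C (κ i) * e i = 0 → ∀ i, κ i = 0) ∧ Q ξ t ι hι e := by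
    rintro (σ | c)
    · exact ef_fam hr0 D.dpos D.hom (D.pts σ.1 σ.2.injective)
        (reg_lst D.rq D.dpos D.hom D.no σ.1 σ.2.injective _) ε hε hε1.le
    · obtain ⟨J', T⟩ := D.trans c.1.1 c.1.2 c.2.1.1 c.2.1.2
      exact cross_fam T hr0 (fun j => D.hom _) (fun j h0 => by
        -- a vanishing form: its gradient would vanish
        have h1 := T.inv1 j j
        rw [if_pos rfl, h0] at h1
        simp at h1) (fun j => D.dpos _) _ _ _ c.2.2.2.1 c.2.2.2.2 ε hε hε1.le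
  choose t0 ht0 using hfam
  have hne : Nonempty {σ : Fin r → Fin q // StrictMono σ} :=
    ⟨⟨Fin.castLE D.rq.le, Fin.strictMono_castLE D.rq.le⟩⟩
  refine ⟨Ξ, inferInstance, ⟨Sum.inl hne.some⟩, ∑ ξ, t0 ξ, fun t ht htpos => ?_⟩
  have hfam := fun ξ => ht0 ξ t ((Finset.single_le_sum (f := t0) (fun _ _ => Nat.zero_le _)
    (Finset.mem_univ ξ)).trans ht)
  choose ι hι e he1 he2 he3 using hfam
  refine ⟨ι, hι, e, he1, he2, fun f => ?_⟩
  -- the constants
  have hE : ∀ σ : {σ : Fin r → Fin q // StrictMono σ}, ∃ C : ℝ, 0 ≤ C ∧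
      ∀ z : Fin (r + 1) → K, z ≠ 0 →
      (∀ j, eval z (F (σ.1 j)) ≠ 0) → (∀ i, eval z (e (Sum.inl σ) i) ≠ 0) →
      (1 - ε) * (t * (t + r).choose r) / (r + 1) *
        (∑ j, lam f (d (σ.1 j)) (F (σ.1 j)) z / d (σ.1 j)) ≤
        ∑ i, lam f t (e (Sum.inl σ) i) z + C := fun σ => he3 (Sum.inl σ) f
  have hC : ∀ c : Ξc, ∃ ρ C : ℝ, 0 < ρ ∧ 0 ≤ C ∧ ∀ x : Fin (r + 1) → K,
      NearPt f (g c.2.1.1) c.2.1.1 ρ x → (∀ j, eval x (F (c.1.1 j)) ≠ 0) →
      (∀ i, eval x (e (Sum.inr c) i) ≠ 0) → ∀ θ : ℝ, 0 ≤ θ →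
      (∀ j, (((c.2.2.1.1 j : ℕ) + (c.2.2.1.2.1 j : ℕ) + (c.2.2.1.2.2 j : ℕ) : ℕ) : ℝ) * θ ≤
        lam f (d (c.1.1 j)) (F (c.1.1 j)) x) →
      θ * ((1 - ε) * (t * (t + r).choose r) / (r + 1) *
        (∑ j, ((c.2.2.1.1 j : ℕ) : ℝ) / d (c.1.1 j) +
        ∑ j, ((c.2.2.1.2.1 j : ℕ) : ℝ) +
          r * (∏ j, ((c.2.2.1.2.2 j : ℕ) : ℝ)) ^ ((1 : ℝ) / r))) ≤
        ∑ i, lam f t (e (Sum.inr c) i) x + C := fun c => he3 (Sum.inr c) f
  choose CE hCE0 hCE using hE
  choose ρ CC hρ hCC0 hCC using hC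
  obtain ⟨Cf, hCf0, hCf⟩ := few (I := (⊥ : Ideal (MvPolynomial (Fin (r + 1)) K)))
    (fun j : Fin 0 => (0 : MvPolynomial (Fin (r + 1)) K)) (fun _ => 0) (fun j => j.elim0)
    (by rw [Set.range_eq_empty, Ideal.span_empty]) (Nat.succ_pos r) D.rq.le F d D.hom
    (fun T hT L _ _ x _ hx => D.no T hT L x hx) f
  set ρ0 : ℝ := 1 / (1 + ∑ c, 1 / ρ c) with hρ0
  have hsρ : 0 ≤ ∑ c, 1 / ρ c := Finset.sum_nonneg fun c _ => by
    have := hρ c
    positivity
  have hρ0pos : 0 < ρ0 := by positivity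
  have hρle : ∀ c, ρ0 ≤ ρ c := by
    intro c
    have h1 := hρ c
    have h2 : 1 / ρ c ≤ ∑ c, 1 / ρ c := Finset.single_le_sum (f := fun c => 1 / ρ c)
      (fun c _ => by have := hρ c; positivity) (Finset.mem_univ c)
    rw [hρ0, div_le_iff₀ (by positivity)]
    have h3 : ρ c * (1 / ρ c) = 1 := by field_simp
    have h4 := mul_le_mul_of_nonneg_left h2 h1.le
    rw [h3] at h4
    nlinarith
  have hgone : ∀ τ : {τ : Fin r → Fin q // Function.Injective τ}, ∀ y ∈ Y τ.1,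
      ∑ a, g y a * y a = 1 := by
    intro τ y hy
    obtain ⟨J', T⟩ := D.trans τ.1 τ.2 y hy
    exact T.one
  have hnear := fun τ : {τ : Fin r → Fin q // Function.Injective τ} =>
    near_pt f (Nat.succ_pos r) (l := lst F d τ.1) (by
      intro x hx
      obtain ⟨j, rfl⟩ := mem_lst.1 hx
      exact D.hom _) (D.pts τ.1 τ.2).cov g (hgone τ) hρ0pos
  choose Bτ hBτ using hnear
  set B : ℝ := ∑ τ, |Bτ τ| + Cf + 1 with hB
  have hBabs : ∀ τ, Bτ τ ≤ B := by
    intro τ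
    have h1 := Finset.single_le_sum (f := fun τ => |Bτ τ|) (fun _ _ => abs_nonneg _)
      (Finset.mem_univ τ)
    have h2 := le_abs_self (Bτ τ)
    linarith
  have hsB : 0 ≤ ∑ τ, |Bτ τ| := Finset.sum_nonneg fun _ _ => abs_nonneg _
  have hB0 : 0 < B := by linarith
  have hBf : Cf < B := by linarith
  set β : ℝ := (1 - ε) * (t * (t + r).choose r) / (r + 1) with hβ
  have hβpos : 0 < β := by
    have h1 : (0 : ℝ) < t := by exact_mod_cast htpos
    have h2 : (0 : ℝ) < ((t + r).choose r : ℕ) := by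
      exact_mod_cast Nat.choose_pos (Nat.le_add_left r t)
    have h3 : 0 < 1 - ε := by linarith
    positivity
  have hsE : 0 ≤ ∑ σ, CE σ := Finset.sum_nonneg fun σ _ => hCE0 σ
  have hsC : 0 ≤ ∑ c, CC c := Finset.sum_nonneg fun c _ => hCC0 c
  set Dc : ℝ := q * Cf + (∑ σ, CE σ) / β + (∑ c, CC c) / β + η + 2 * r * A * B / δ with hDc
  have hDc0 : 0 ≤ Dc := by
    have h1 : 0 ≤ (∑ σ, CE σ) / β := div_nonneg hsE hβpos.le
    have h2 : 0 ≤ (∑ c, CC c) / β := div_nonneg hsC hβpos.le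
    have h3 : 0 ≤ (q : ℝ) * Cf := mul_nonneg (Nat.cast_nonneg _) hCf0
    have h4 : 0 ≤ 2 * r * A * B / δ := by positivity
    linarith
  refine ⟨Dc, hDc0, fun x hx hxF h hh hxA τ hτ y z hy hz hyz hzz => ?_⟩
  obtain ⟨σ, hσm, hσ⟩ := hCf x hx (fun p hp => by rw [Ideal.mem_bot.1 hp, map_zero]) hxF
  set a : Fin q → ℝ := fun i => lam f (d i) (F i) x with ha
  set H : ℝ := h + 1 with hH
  have hH1 : 1 ≤ H := by linarith
  have hyA : ∀ j, y j ≤ A * H := fun j => by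
    have := hyz j
    have := hz j
    have := hxA (τ j)
    linarith
  have hzA : ∀ j, z j ≤ A * H := fun j => by
    have := hyz j
    have := hy j
    have := hxA (τ j)
    linarith
  have hdτ : ∀ j, 0 < d (τ j) := fun j => D.dpos _
  by_cases hcase : (∀ j, δ * H < a (τ j)) ∧ B ≤ δ * H
  · -- near a crossing point
    obtain ⟨hc1, hc2⟩ := hcase
    obtain ⟨y1, hy1, hn1⟩ := hBτ ⟨τ, hτ⟩ x hx (by
      intro p hp
      obtain ⟨j, rfl⟩ := mem_lst.1 hp
      exact hxF _) (by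
      intro p hp
      obtain ⟨j, rfl⟩ := mem_lst.1 hp
      have h1 := hBabs ⟨τ, hτ⟩
      have h2 := hc1 j
      show Bτ ⟨τ, hτ⟩ ≤ a (τ j)
      linarith)
    have hθ : 0 < H / m := by positivity
    obtain ⟨u, z', v, hg1, hg2, hg3, hg4, hg5⟩ := grid hr0 (fun j => d (τ j)) hdτ hθ
      (fun j => a (τ j)) y z hy hz hyz hzz (P := A * m) (by positivity) (by
        intro j
        refine (hxA (τ j)).trans (le_of_eq ?_)
        field_simp)
    have hle : ∀ j, u j + z' j + v j ≤ Mx := fun j => Nat.le_floor (hg4 j)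
    let w : Wt := ⟨(fun j => ⟨u j, by have := hle j; omega⟩, fun j => ⟨z' j, by
      have := hle j; omega⟩, fun j => ⟨v j, by have := hle j; omega⟩), hg1, fun j => hg3 j (by
        have h1 := hc1 j
        have h2 : H / m ≤ δ * H := by
          rw [div_le_iff₀ hmR]
          have h3 : 1 / δ ≤ m := (Nat.le_ceil _).trans (by exact_mod_cast hm0)
          rw [div_le_iff₀ hδ] at h3
          nlinarith
        linarith)⟩
    let c : Ξc := ⟨⟨τ, hτ⟩, ⟨y1, hy1⟩, w⟩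
    refine ⟨Sum.inr c, fun hne => ?_⟩
    have h1 := hCC c x (hn1.mono (hρle c)) (fun j => hxF _) hne (H / m) hθ.le hg2
    have h2 : H / m * (∑ j, (u j : ℝ) / d (τ j) + ∑ j, (z' j : ℝ) +
        r * (∏ j, (v j : ℝ)) ^ ((1 : ℝ) / r)) ≤
        (∑ i, lam f t (e (Sum.inr c) i) x + CC c) / β := by
      rw [le_div_iff₀ hβpos]
      refine le_trans (le_of_eq ?_) h1
      show H / m * (∑ j, (u j : ℝ) / d (τ j) + ∑ j, (z' j : ℝ) +
        r * (∏ j, (v j : ℝ)) ^ ((1 : ℝ) / r)) * β = H / m * (β * (∑ j, (u j : ℝ) / d (τ j) +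
          ∑ j, (z' j : ℝ) + r * (∏ j, (v j : ℝ)) ^ ((1 : ℝ) / r)))
      ring
    have h3 : H / m * (3 * r + r * (r * (A * m + 1) ^ (r - 1)) ^ ((1 : ℝ) / r)) ≤ η * H := by
      have e1 : H / m * (3 * r + r * (r * (A * m + 1) ^ (r - 1)) ^ ((1 : ℝ) / r)) =
        (3 * r + r * (r * (A * m + 1) ^ (r - 1)) ^ ((1 : ℝ) / r)) / m * H := by ring
      rw [e1]
      exact mul_le_mul_of_nonneg_right hm (by linarith)
    have h4 : ∑ i, a i / d i ≤ ∑ j, a (τ j) / d (τ j) + q * Cf :=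
      others a d D.dpos hCf0 τ hτ (range_le a σ τ hσm.injective hτ hσ fun j => by
        have := hc1 j
        linarith)
    have h5 : CC c ≤ ∑ c, CC c := Finset.single_le_sum (f := CC) (fun c _ => hCC0 c)
      (Finset.mem_univ c)
    have h6 : (∑ i, lam f t (e (Sum.inr c) i) x + CC c) / β ≤
        (∑ i, lam f t (e (Sum.inr c) i) x) / β + (∑ c, CC c) / β := by
      rw [← add_div]
      exact div_le_div_of_nonneg_right (by linarith) hβpos.le
    have h7 : 0 ≤ (∑ σ, CE σ) / β := div_nonneg hsE hβpos.le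
    have h8 : 0 ≤ 2 * r * A * B / δ := by positivity
    have h9 : η * H = η * h + η := by rw [hH]; ring
    have h10 : ∑ i, lam f (d i) (F i) x / d i = ∑ i, a i / d i := rfl
    rw [hDc, h10]
    linarith
  · -- the other points
    have hgain : gain (fun j => d (τ j)) y z ≤ η * H + 2 * r * A * B / δ := by
      have hBd : 0 ≤ 2 * r * A * B / δ := by positivity
      by_cases hc1 : ∀ j, δ * H < a (τ j)
      · have hc2 : δ * H < B := by
          by_contra hcon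
          push Not at hcon
          exact hcase ⟨hc1, hcon⟩
        have h1 : H ≤ B / δ := by
          rw [le_div_iff₀ hδ]
          linarith
        have h2 := gain_le hr0 (fun j => d (τ j)) hdτ y z hy hz (a := 2 * r * A * B / δ)
          (b := A * H) (c := A * H) hzA (by positivity) (by
            have h3 := Finset.prod_le_prod (s := (Finset.univ : Finset (Fin r)))
              (f := y) (g := fun _ => A * H) (fun j _ => hy j) (fun j _ => hyA j)
            rwa [Finset.prod_const, Finset.card_univ, Fintype.card_fin] at h3) (by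
            have h4 : r * (A * H) + r * (A * H) = 2 * r * A * H := by ring
            rw [h4, mul_div_assoc]
            exact mul_le_mul_of_nonneg_left h1 (by positivity))
        have h5 : 0 ≤ η * H := by positivity
        linarith
      · push Not at hc1
        obtain ⟨j0, hj0⟩ := hc1
        have hz0 : z j0 ≤ δ * H := by
          have := hyz j0
          have := hy j0
          linarith
        have hy0 : y j0 ≤ δ * H := by
          have := hyz j0
          have := hz j0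
          linarith
        have h2 := gain_le hr0 (fun j => d (τ j)) hdτ y z hy hz (a := η * H)
          (b := 2 * δ * H) (c := η / (2 * r) * H) (fun j => by
            have := hzz j j0
            linarith) (by positivity) (by
            have h3 := prod_small hr0 y hy (A := A) (δ := δ) (H := H)
              (by linarith) hδ.le hyA j0 hy0
            refine h3.trans ?_
            rw [mul_pow]
            exact mul_le_mul_of_nonneg_right hδ2 (by positivity)) (by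
            have h4 : r * (2 * δ * H) + r * (η / (2 * r) * H) = (2 * r * δ + η / 2) * H := by
              field_simp
            rw [h4]
            exact mul_le_mul_of_nonneg_right (by linarith) (by linarith))
        linarith
    refine ⟨Sum.inl ⟨σ, hσm⟩, fun hne => ?_⟩
    have h1 := hCE ⟨σ, hσm⟩ x hx (fun j => hxF _) hne
    have h2 : ∑ j, a (σ j) / d (σ j) ≤
        (∑ i, lam f t (e (Sum.inl ⟨σ, hσm⟩) i) x + CE ⟨σ, hσm⟩) / β := by
      rw [le_div_iff₀ hβpos, mul_comm]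
      exact h1
    have h4 : ∑ i, a i / d i ≤ ∑ j, a (σ j) / d (σ j) + q * Cf :=
      others a d D.dpos hCf0 σ hσm.injective hσ
    have h5 : CE ⟨σ, hσm⟩ ≤ ∑ σ, CE σ := Finset.single_le_sum (f := CE) (fun c _ => hCE0 c)
      (Finset.mem_univ _)
    have h6 : (∑ i, lam f t (e (Sum.inl ⟨σ, hσm⟩) i) x + CE ⟨σ, hσm⟩) / β ≤
        (∑ i, lam f t (e (Sum.inl ⟨σ, hσm⟩) i) x) / β + (∑ σ, CE σ) / β := by
      rw [← add_div]
      exact div_le_div_of_nonneg_right (by linarith) hβpos.le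
    have h7 : 0 ≤ (∑ c, CC c) / β := div_nonneg hsC hβpos.le
    have h9 : η * H = η * h + η := by rw [hH]; ring
    have h10 : ∑ i, lam f (d i) (F i) x / d i = ∑ i, a i / d i := rfl
    rw [hDc, h10]
    linarith

end Run7.h684.VC
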