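import Mathlib
import Pool.Agent.Run7.h684.Mn1

set_option autoImplicit false

/-!
The inequality over a large number field.
-/

namespace Run7.h684.VC

open MvPolynomial Finset Module Height NumberField
open Pool.Agent.W180.OP (Pl av wt nrm le_nrm nrm_pos nrm_nonneg exists_nrm lam lam_eq wt_nonneg
  cs cs_nonneg abv_mv not_small)
open Pool.Agent.R404.TC
open Pool.Agent.R405 (Good up up_ne)

variable {k K : Type} [Field k] [NumberField k] [Field K] [NumberField K] [Algebra k K]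
variable {r q : ℕ}

theorem mainK [IsGalois ℚ K] (hi : ∃ z : K, z ^ 2 = -1)
    {F : Fin q → MvPolynomial (Fin (r + 1)) K} {d : Fin q → ℕ}
    {Y : (Fin r → Fin q) → Finset (Fin (r + 1) → K)}
    {g : (Fin (r + 1) → K) → Fin (r + 1) → K} (D : Dat F d Y g)
    (S : Finset (Pl k)) (f : Pl k → AbsoluteValue K ℝ) (hf : ∀ v ∈ S, Good v (f v))
    {A : ℝ} (hA : 1 ≤ A) (hL : ∀ v ∈ S, ∀ i, ∀ x : Fin (r + 1) → k, x ≠ 0 →
      eval (up K x) (F i) ≠ 0 → lam (f v) (d i) (F i) (up K x) ≤ A * (logHeight x + 1))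
    {ε : ℝ} (hε : 0 < ε) :
    ∃ (t N : ℕ) (E : Fin N → Fin t → Fin (r + 1)) (Z : Finset (Fin N → K)) (C : ℝ),
      (∀ w : Fin N → K, ∑ j, MvPolynomial.C (w j) * word K (E j) = 0 → ∀ j, w j = 0) ∧
      (∀ z ∈ Z, z ≠ 0) ∧ ∀ x : Fin (r + 1) → k, x ≠ 0 → (∀ i, eval (up K x) (F i) ≠ 0) →
        (∀ z ∈ Z, ∑ j, z j * algebraMap k K (∏ a, x (E j a)) ≠ 0) →
        ∀ (τ : Pl k → Fin r → Fin q), (∀ v, Function.Injective (τ v)) →
        ∀ y z : Pl k → Fin r → ℝ, (∀ v ∈ S, ∀ j, 0 ≤ y v j) → (∀ v ∈ S, ∀ j, 0 ≤ z v j) →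
          (∀ v ∈ S, ∀ j, y v j + z v j ≤ lam (f v) (d (τ v j)) (F (τ v j)) (up K x)) →
          (∀ v ∈ S, ∀ i j, z v i ≤ 2 * z v j) →
          ∑ v ∈ S, wt v * (∑ i, lam (f v) (d i) (F i) (up K x) / d i +
            gain (fun j => d (τ v j)) (y v) (z v)) ≤ (r + 1 + ε) * logHeight x + C := by
  classical
  -- the small numbers
  set W : ℝ := ∑ v ∈ S, wt v with hW
  have hW0 : 0 ≤ W := Finset.sum_nonneg fun v _ => wt_nonneg v
  set η : ℝ := ε / (2 * (W + 1)) with hη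
  have hηpos : 0 < η := by positivity
  have hηW : W * η ≤ ε / 2 := by
    rw [hη, mul_div_assoc', div_le_div_iff₀ (by positivity) (by norm_num)]
    nlinarith
  set ε1 : ℝ := (ε / 2) / (2 * (r + 1) + ε / 2) with hε1
  have hden : (0 : ℝ) < 2 * (r + 1) + ε / 2 := by positivity
  have hε10 : 0 < ε1 := by positivity
  have hε1lt : ε1 < 1 := by
    rw [hε1, div_lt_one hden]
    have : (0 : ℝ) ≤ r := Nat.cast_nonneg r
    linarith
  have hεε : (1 + ε1) * (r + 1) ≤ (r + 1 + ε / 2) * (1 - ε1) := by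
    have h1 : ε1 * (2 * (r + 1) + ε / 2) = ε / 2 := by rw [hε1]; field_simp
    nlinarith
  obtain ⟨Ξ, hΞ, hΞn, t0, ht0⟩ := local_all D hA hηpos hε10 hε1lt
  set t : ℕ := t0 + 1 with ht
  obtain ⟨ι, hι, e, he1, he2, he3⟩ := ht0 t (by omega) (by omega)
  obtain ⟨N, E, hN, hE1, hE2⟩ := exists_words (⊥ : Ideal (MvPolynomial (Fin (r + 1)) K)) t
  rw [cc_bot] at hN
  have hNpos : 1 ≤ N := by
    by_contra hcon
    have hN0 : N = 0 := by omega
    subst hN0
    obtain ⟨w, hw⟩ := hE2 ((X 0 : MvPolynomial (Fin (r + 1)) K) ^ t)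
      (by simpa using (isHomogeneous_X K (0 : Fin (r + 1))).pow t)
    simp only [Finset.univ_eq_empty, Finset.sum_empty, sub_zero, Ideal.mem_bot] at hw
    exact X_ne_zero (R := K) (0 : Fin (r + 1)) (eq_zero_of_pow_eq_zero hw)
  let ξ0 : Ξ := Classical.choice hΞn
  let ext : (S → Ξ) → Pl k → Ξ := fun χ v => if h : v ∈ S then χ ⟨v, h⟩ else ξ0
  have hsub := fun χ : S → Ξ => sub_fam (k := k) (K := K) hi
    (⊥ : Ideal (MvPolynomial (Fin (r + 1)) K)) hNpos E hE2 S f hf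
    (fun v => ι (ext χ v)) (fun v => e (ext χ v)) (fun v i => he1 (ext χ v) i)
    (fun v _ κ hκ => he2 (ext χ v) κ (Ideal.mem_bot.1 hκ)) ε1 hε10
  choose Zχ Cχ hZχ hCχ using hsub
  have hloc := fun v : Pl k => he3 (f v)
  choose Dc hDc0 hDc using hloc
  set a : ℝ := t * (t + r).choose r / (r + 1) with ha
  have hcc : (1 : ℝ) ≤ ((t + r).choose r : ℕ) := by
    exact_mod_cast Nat.choose_pos (Nat.le_add_left r t)
  have htR : (1 : ℝ) ≤ t := by
    have : 1 ≤ t := by omega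
    exact_mod_cast this
  have hr1 : (0 : ℝ) < (r : ℝ) + 1 := by positivity
  have hapos : 0 < a := by positivity
  have h1ε : 0 < 1 - ε1 := by linarith
  have hpos2 : 0 < (1 - ε1) * a := by positivity
  have hβ : (1 - ε1) * (t * (t + r).choose r) / ((r : ℝ) + 1) = (1 - ε1) * a := by
    rw [ha]
    ring
  refine ⟨t, N, E, Finset.univ.biUnion Zχ,
    ∑ v ∈ S, wt v * Dc v + (∑ χ, |Cχ χ|) / ((1 - ε1) * a),
    fun w hw => hE1 w (Ideal.mem_bot.2 hw), ?_, ?_⟩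
  · intro z hz
    obtain ⟨χ, -, h⟩ := Finset.mem_biUnion.1 hz
    exact hZχ χ z h
  intro x hx hxF hxZ τ hτ y z hy hz hyz hzz
  set X' := up K x with hX'
  have hX0 : X' ≠ 0 := up_ne hx
  have hh := logHeight_nonneg x
  have hch : ∀ v, ∃ ξ : Ξ, v ∈ S → (∀ i, eval X' (e ξ i) ≠ 0) →
      ∑ i, lam (f v) (d i) (F i) X' / d i + gain (fun j => d (τ v j)) (y v) (z v) ≤
        (∑ i, lam (f v) t (e ξ i) X') / ((1 - ε1) * a) + η * logHeight x + Dc v := by
    intro v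
    by_cases hv : v ∈ S
    · obtain ⟨ξ, hξ⟩ := hDc v X' hX0 hxF (logHeight x) hh
        (fun i => hL v hv i x hx (hxF i)) (τ v) (hτ v) (y v) (z v) (hy v hv) (hz v hv)
        (hyz v hv) (hzz v hv)
      rw [hβ] at hξ
      exact ⟨ξ, fun _ => hξ⟩
    · exact ⟨ξ0, fun h => absurd h hv⟩
  choose ξ hξ using hch
  let χ : S → Ξ := fun v => ξ v.1
  have hext : ∀ v ∈ S, ext χ v = ξ v := by
    intro v hv
    show (if h : v ∈ S then χ ⟨v, h⟩ else ξ0) = _
    rw [dif_pos hv]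
  obtain ⟨hnv, hineq⟩ := hCχ χ x hx (fun p hp => by rw [Ideal.mem_bot.1 hp, map_zero])
    fun w hw => hxZ w (Finset.mem_biUnion.2 ⟨χ, Finset.mem_univ _, hw⟩)
  have hnv' : ∀ v ∈ S, ∀ i, eval X' (e (ξ v) i) ≠ 0 := by
    intro v hv i
    have h1 := hnv v hv
    rw [hext v hv] at h1
    exact h1 i
  have hsumeq : ∑ v ∈ S, wt v * ∑ i, lam (f v) t (e (ext χ v) i) X' =
      ∑ v ∈ S, wt v * ∑ i, lam (f v) t (e (ξ v) i) X' := by
    refine Finset.sum_congr rfl fun v hv => ?_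
    rw [hext v hv]
  rw [hsumeq] at hineq
  -- the sum
  have h1 : ∑ v ∈ S, wt v * (∑ i, lam (f v) (d i) (F i) X' / d i +
      gain (fun j => d (τ v j)) (y v) (z v)) ≤
      (∑ v ∈ S, wt v * ∑ i, lam (f v) t (e (ξ v) i) X') / ((1 - ε1) * a) +
      (W * η * logHeight x + ∑ v ∈ S, wt v * Dc v) := by
    rw [Finset.sum_div, hW, Finset.sum_mul, Finset.sum_mul, ← Finset.sum_add_distrib,
      ← Finset.sum_add_distrib]
    refine Finset.sum_le_sum fun v hv => ?_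
    have h2 := mul_le_mul_of_nonneg_left (hξ v hv (hnv' v hv)) (wt_nonneg v)
    refine h2.trans (le_of_eq ?_)
    ring
  have h2 : (N + ε1) * (t * logHeight x) ≤ ((r + 1 + ε / 2) * logHeight x) * ((1 - ε1) * a) := by
    have e1 : (N : ℝ) ≤ ((t + r).choose r : ℕ) := by exact_mod_cast hN
    have e2 : (N : ℝ) + ε1 ≤ ((t + r).choose r : ℕ) * (1 + ε1) := by nlinarith
    have e3 : 0 ≤ (t : ℝ) * logHeight x := by positivity
    have e4 := mul_le_mul_of_nonneg_right e2 e3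
    have e5 : (((t + r).choose r : ℕ) : ℝ) * (1 + ε1) * (t * logHeight x) =
        ((1 + ε1) * (r + 1)) * (a * logHeight x) := by
      rw [ha]
      field_simp
    have e6 : ((1 + ε1) * (r + 1)) * (a * logHeight x) ≤
        ((r + 1 + ε / 2) * (1 - ε1)) * (a * logHeight x) :=
      mul_le_mul_of_nonneg_right hεε (by positivity)
    rw [e5] at e4
    refine (e4.trans e6).trans (le_of_eq ?_)
    ring
  have h3 : Cχ χ ≤ ∑ χ, |Cχ χ| :=
    (le_abs_self _).trans (Finset.single_le_sum (f := fun χ => |Cχ χ|)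
      (fun _ _ => abs_nonneg _) (Finset.mem_univ χ))
  have h4 : (∑ v ∈ S, wt v * ∑ i, lam (f v) t (e (ξ v) i) X') / ((1 - ε1) * a) ≤
      (r + 1 + ε / 2) * logHeight x + (∑ χ, |Cχ χ|) / ((1 - ε1) * a) := by
    rw [← sub_le_iff_le_add, ← sub_div, div_le_iff₀ hpos2]
    linarith
  have h5 : W * η * logHeight x ≤ ε / 2 * logHeight x :=
    mul_le_mul_of_nonneg_right hηW hh
  linarith

end Run7.h684.VC
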