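import Mathlib
import Pool.Agent.Run7.h684.Mn2

set_option autoImplicit false
set_option linter.unusedSectionVars false

/-!
The inequality over a number field.
-/

namespace Run7.h684.VC

open MvPolynomial Finset Module Height NumberField
open Pool.Agent.W180.OP (Pl av wt nrm le_nrm nrm_pos nrm_nonneg exists_nrm lam lam_eq wt_nonneg
  cs cs_nonneg abv_mv not_small liou)
open Pool.Agent.R404.TC
open Pool.Agent.R405 (Good exists_good up up_ne lam_up eval_up descend exists_big)

section trans

variable {K : Type} [Field K] {r : ℕ}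

/-- the inverse matrix -/
theorem trans_of_indep {F : Fin r → MvPolynomial (Fin (r + 1)) K} {d : Fin r → ℕ}
    (hF : ∀ j, (F j).IsHomogeneous (d j)) (g y : Fin (r + 1) → K) (hg : ∑ a, g a * y a = 1)
    (h0 : ∀ j, eval y (F j) = 0)
    (hli : LinearIndependent K fun (j : Fin r) (a : Fin (r + 1)) => eval y (pderiv a (F j))) :
    ∃ J', Trans F g y J' := by
  classical
  have euler : ∀ j, ∑ a, eval y (pderiv a (F j)) * y a = 0 := by
    intro j
    have h1 := congrArg (eval y) (hF j).sum_X_mul_pderiv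
    rw [map_sum, map_nsmul, h0 j, nsmul_zero] at h1
    rw [← h1]
    refine Finset.sum_congr rfl fun a _ => ?_
    rw [map_mul, eval_X, mul_comm]
  set R : Fin (r + 1) → Fin (r + 1) → K :=
    Fin.cons g fun j a => eval y (pderiv a (F j)) with hR
  have hRli : LinearIndependent K R := by
    rw [Fintype.linearIndependent_iff]
    intro c hc
    have hc0 : c 0 = 0 := by
      have h1 := congrArg (fun w : Fin (r + 1) → K => ∑ a, w a * y a) hc
      simp only [Finset.sum_apply, Pi.smul_apply, smul_eq_mul, Pi.zero_apply, zero_mul,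
        Finset.sum_const_zero, Finset.sum_mul] at h1
      rw [Finset.sum_comm, Fin.sum_univ_succ] at h1
      have h2 : ∑ a, c 0 * R 0 a * y a = c 0 := by
        simp only [hR, Fin.cons_zero, mul_assoc]
        rw [← Finset.mul_sum, hg, mul_one]
      have h3 : ∑ j : Fin r, ∑ a, c j.succ * R j.succ a * y a = 0 := by
        refine Finset.sum_eq_zero fun j _ => ?_
        simp only [hR, Fin.cons_succ, mul_assoc]
        rw [← Finset.mul_sum, euler j, mul_zero]
      rw [h2, h3, add_zero] at h1
      exact h1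
    rw [Fin.sum_univ_succ, hc0, zero_smul, zero_add] at hc
    have h4 := Fintype.linearIndependent_iff.1 hli (fun j => c j.succ) (by
      rw [← hc]
      refine Finset.sum_congr rfl fun j _ => ?_
      rw [hR, Fin.cons_succ])
    intro i
    refine Fin.cases hc0 (fun j => h4 j) i
  have hunit : IsUnit (Matrix.of R) := Matrix.linearIndependent_rows_iff_isUnit.1 hRli
  set B : Matrix (Fin (r + 1)) (Fin (r + 1)) K := (Matrix.of R)⁻¹ with hB
  have hdet : IsUnit (Matrix.of R).det := (Matrix.isUnit_iff_isUnit_det _).1 hunit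
  have h1 : Matrix.of R * B = 1 := Matrix.mul_nonsing_inv _ hdet
  have h2 : B * Matrix.of R = 1 := Matrix.nonsing_inv_mul _ hdet
  have h1' : ∀ i j, ∑ a, R i a * B a j = if i = j then 1 else 0 := by
    intro i j
    have h3 := congrFun (congrFun h1 i) j
    rw [Matrix.mul_apply, Matrix.one_apply] at h3
    exact h3
  refine ⟨fun a j => B a j.succ, h0, hg, ?_, ?_, ?_⟩
  · intro i j
    have h3 := h1' i.succ j.succ
    simp only [hR, Fin.cons_succ, Fin.succ_inj] at h3
    exact h3
  · intro j
    have h3 := h1' 0 j.succ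
    rw [if_neg (Fin.succ_ne_zero j).symm] at h3
    simp only [hR, Fin.cons_zero] at h3
    exact h3
  · intro u hu b
    have h3 : u = B.mulVec ((Matrix.of R).mulVec u) := by
      rw [Matrix.mulVec_mulVec, h2, Matrix.one_mulVec]
    have h4 := congrFun h3 b
    rw [h4, Matrix.mulVec, dotProduct, Fin.sum_univ_succ]
    have h5 : (Matrix.of R).mulVec u 0 = 0 := by
      rw [Matrix.mulVec, dotProduct]
      simp only [Matrix.of_apply, hR, Fin.cons_zero]
      exact hu
    rw [h5, mul_zero, zero_add]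
    refine Finset.sum_congr rfl fun j _ => ?_
    congr 1

/-- the normalising linear form at a point -/
noncomputable def gof {n : ℕ} (y : Fin n → K) : Fin n → K := by
  classical
  exact if h : ∃ a, y a ≠ 0 then Pi.single h.choose (y h.choose)⁻¹ else 0

theorem gof_one {n : ℕ} {y : Fin n → K} (hy : y ≠ 0) : ∑ a, gof y a * y a = 1 := by
  classical
  have h : ∃ a, y a ≠ 0 := Function.ne_iff.1 hy
  unfold gof
  rw [dif_pos h, Finset.sum_eq_single h.choose]
  · rw [Pi.single_eq_same, inv_mul_cancel₀ h.choose_spec]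
  · intro a _ ha
    rw [Pi.single_eq_of_ne ha, zero_mul]
  · intro h'
    exact absurd (Finset.mem_univ _) h'

end trans

variable {k : Type} [Field k] [NumberField k] {r q : ℕ}

theorem overK (hr0 : 0 < r) (hr : r < q)
    (F : Fin q → MvPolynomial (Fin (r + 1)) k) (d : Fin q → ℕ) (hd : ∀ i, 0 < d i)
    (hF : ∀ i, (F i).IsHomogeneous (d i))
    (hno : ∀ T : Finset (Fin q), T.card = r + 1 → ∀ (L : Type) [Field L] [Algebra k L]
      (x : Fin (r + 1) → L), (∀ i ∈ T, aeval x (F i) = 0) → x = 0)
    (htr : ∀ σ : Fin r → Fin q, Function.Injective σ → ∀ y : Fin (r + 1) → AlgebraicClosure k,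
      y ≠ 0 → (∀ j, aeval y (F (σ j)) = 0) → LinearIndependent (AlgebraicClosure k)
        fun (j : Fin r) (a : Fin (r + 1)) => aeval y (pderiv a (F (σ j))))
    (T : (Fin r → Fin q) → Finset (Fin (r + 1) → AlgebraicClosure k))
    (hT0 : ∀ σ : Fin r → Fin q, Function.Injective σ → ∀ y ∈ T σ, y ≠ 0 ∧
      ∀ j, aeval y (F (σ j)) = 0)
    (hTc : ∀ σ : Fin r → Fin q, Function.Injective σ → ∀ x : Fin (r + 1) → AlgebraicClosure k,
      x ≠ 0 → (∀ j, aeval x (F (σ j)) = 0) → ∃ y ∈ T σ,
        ∃ c : AlgebraicClosure k, x = c • y)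
    (S : Finset (Pl k)) (ε : ℝ) (hε : 0 < ε) :
    ∃ (t : ℕ) (Z : Finset (MvPolynomial (Fin (r + 1)) k)) (C : ℝ),
      (∀ Φ ∈ Z, Φ.IsHomogeneous t ∧ Φ ≠ 0) ∧
      ∀ x : Fin (r + 1) → k, x ≠ 0 → (∀ i, eval x (F i) ≠ 0) → (∀ Φ ∈ Z, eval x Φ ≠ 0) →
        ∀ τ : Pl k → Fin r → Fin q, (∀ v, Function.Injective (τ v)) →
        ∀ y z : Pl k → Fin r → ℝ, (∀ v ∈ S, ∀ j, 0 ≤ y v j) → (∀ v ∈ S, ∀ j, 0 ≤ z v j) →
          (∀ v ∈ S, ∀ j, y v j + z v j ≤ lam (av v) (d (τ v j)) (F (τ v j)) x) →
          (∀ v ∈ S, ∀ i j, z v i ≤ 2 * z v j) →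
          ∑ v ∈ S, wt v * (∑ i, lam (av v) (d i) (F i) x / d i +
            gain (fun j => d (τ v j)) (y v) (z v)) ≤ (r + 1 + ε) * logHeight x + C := by
  classical
  set P : Finset (AlgebraicClosure k) := (Finset.univ : Finset (Fin r → Fin q)).biUnion fun σ =>
    (T σ).biUnion fun y => Finset.univ.image y with hP
  let K1 : IntermediateField k (AlgebraicClosure k) :=
    IntermediateField.adjoin k (P : Set (AlgebraicClosure k))
  have hfdK1 : FiniteDimensional k K1 :=
    IntermediateField.finiteDimensional_adjoin fun x _ => Algebra.IsIntegral.isIntegral x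
  have hmem : ∀ σ, ∀ y ∈ T σ, ∀ b, y b ∈ K1 := by
    intro σ y hy b
    refine IntermediateField.subset_adjoin k _ ?_
    rw [Finset.mem_coe, hP, Finset.mem_biUnion]
    exact ⟨σ, Finset.mem_univ _, Finset.mem_biUnion.2 ⟨y, hy, Finset.mem_image_of_mem _
      (Finset.mem_univ _)⟩⟩
  have hfdQ : FiniteDimensional ℚ K1 := Module.Finite.trans (R := ℚ) k K1
  have hnfK1 : NumberField K1 := ⟨⟩
  obtain ⟨M, hM1, hM2, hi, ⟨φ⟩⟩ := exists_big K1
  have hnfM : NumberField M := ⟨⟩
  let _ : Algebra K1 M := φ.toAlgebra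
  let _ : Algebra k M := (φ.comp (algebraMap k K1)).toAlgebra
  have hst : IsScalarTower k K1 M := IsScalarTower.of_algebraMap_eq fun _ => rfl
  have hfdM : FiniteDimensional k M := Module.Finite.of_restrictScalars_finite ℚ k M
  have hfdM1 : FiniteDimensional K1 M := Module.Finite.of_restrictScalars_finite ℚ K1 M
  let ψ : M →ₐ[K1] AlgebraicClosure k := IsAlgClosed.lift
  -- the coordinates
  let Z : (Fin (r + 1) → AlgebraicClosure k) → Fin (r + 1) → K1 := fun y b =>
    if h : y b ∈ K1 then ⟨y b, h⟩ else 0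
  have hZ : ∀ σ, ∀ y ∈ T σ, ∀ b, algebraMap K1 (AlgebraicClosure k) (Z y b) = y b := by
    intro σ y hy b
    show algebraMap K1 (AlgebraicClosure k) (if h : y b ∈ K1 then ⟨y b, h⟩ else 0) = y b
    rw [dif_pos (hmem σ y hy b)]
    rfl
  let up1 : (Fin (r + 1) → K1) → Fin (r + 1) → M := fun z b => algebraMap K1 M (z b)
  have hψ : ∀ σ, ∀ y ∈ T σ, ∀ b, ψ (up1 (Z y) b) = y b := by
    intro σ y hy b
    rw [← hZ σ y hy b]
    exact ψ.commutes (Z y b)
  have hψe : ∀ σ, ∀ y ∈ T σ, ∀ p : MvPolynomial (Fin (r + 1)) k,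
      ψ (eval (up1 (Z y)) (map (algebraMap k M) p)) = aeval y p := by
    intro σ y hy p
    have h1 : (ψ : M →+* AlgebraicClosure k) (eval₂ (algebraMap k M) (up1 (Z y)) p) =
        eval₂ ((ψ : M →+* AlgebraicClosure k).comp (algebraMap k M))
          ((ψ : M →+* AlgebraicClosure k) ∘ up1 (Z y)) p := eval₂_comp_left _ _ _ _
    have h2 : ((ψ : M →+* AlgebraicClosure k) ∘ up1 (Z y)) = y := by
      funext b
      exact hψ σ y hy b
    have h3 : ((ψ : M →+* AlgebraicClosure k).comp (algebraMap k M)) =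
        algebraMap k (AlgebraicClosure k) := by
      ext c
      exact ψ.commutes (algebraMap k K1 c)
    rw [h2, h3] at h1
    rw [eval_map, aeval_def]
    exact h1
  let YM : (Fin r → Fin q) → Finset (Fin (r + 1) → M) := fun σ =>
    (T σ).image fun y => up1 (Z y)
  let FM : Fin q → MvPolynomial (Fin (r + 1)) M := fun i => map (algebraMap k M) (F i)
  have hFM : ∀ i, (FM i).IsHomogeneous (d i) := fun i => (hF i).map _
  have hae : ∀ (L : Type) [Field L] [Algebra M L] (x : Fin (r + 1) → L)
      (p : MvPolynomial (Fin (r + 1)) k),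
      aeval x (map (algebraMap k M) p) = @aeval k L (Fin (r + 1)) _ _
        ((algebraMap M L).comp (algebraMap k M)).toAlgebra x p := by
    intro L _ _ x p
    rw [aeval_def, eval₂_map]
    rfl
  have hYM : ∀ σ, ∀ y ∈ YM σ, ∃ y0 ∈ T σ, up1 (Z y0) = y := fun σ y hy => Finset.mem_image.1 hy
  have hy0 : ∀ σ : Fin r → Fin q, Function.Injective σ → ∀ y ∈ T σ, up1 (Z y) ≠ 0 := by
    intro σ hσ y hy h0
    apply (hT0 σ hσ y hy).1
    funext b
    have h1 := congrFun h0 b
    rw [← hψ σ y hy b, h1]
    exact map_zero _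
  have hD : Dat FM d YM gof := by
    refine ⟨hr, hr0, hd, hFM, ?_, ?_, ?_⟩
    · intro T hT L _ _ x hx
      let _ : Algebra k L := ((algebraMap M L).comp (algebraMap k M)).toAlgebra
      refine hno T hT L x fun i hi => ?_
      rw [← hx i hi]
      exact (hae L x _).symm
    · intro σ hσ
      refine ⟨?_, ?_, ?_⟩
      · intro y hy
        obtain ⟨y0, hy0', rfl⟩ := hYM σ y hy
        exact hy0 σ hσ y0 hy0'
      · intro y hy j
        obtain ⟨y0, hy0', rfl⟩ := hYM σ y hy
        have h1 := hψe σ y0 hy0' (F (σ j))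
        rw [(hT0 σ hσ y0 hy0').2 j] at h1
        exact (map_eq_zero ψ).1 h1
      · intro L _ _ x hx hxJ
        let _ : Algebra K1 L := ((algebraMap M L).comp (algebraMap K1 M)).toAlgebra
        obtain ⟨y, hy, c, hc⟩ := transfer (K1 := K1) (Ω := AlgebraicClosure k)
          (fun j => map (algebraMap k K1) (F (σ j)))
          (T σ) (fun y hy => (hT0 σ hσ y hy).1) (by
            intro x hx h
            refine hTc σ hσ x hx fun j => ?_
            have h1 := h j
            rw [aeval_map_alg] at h1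
            exact h1) Z (hZ σ) L x hx (by
            have h3 : ∀ p : MvPolynomial (Fin (r + 1)) k, aeval x (map (algebraMap k K1) p) =
                aeval x (map (algebraMap k M) p) := by
              intro p
              rw [aeval_def, eval₂_map, aeval_def, eval₂_map]
              rfl
            intro j
            rw [h3]
            refine hxJ _ ?_
            rw [Jf_lst]
            exact Ideal.mem_sup_right (Ideal.subset_span ⟨j, rfl⟩))
        exact ⟨_, Finset.mem_image_of_mem _ hy, c, hc⟩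
    · intro σ hσ y hy
      obtain ⟨y0, hy0', rfl⟩ := hYM σ y hy
      refine trans_of_indep (fun j => hFM (σ j)) _ _ (gof_one (hy0 σ hσ y0 hy0')) ?_ ?_
      · intro j
        have h1 := hψe σ y0 hy0' (F (σ j))
        rw [(hT0 σ hσ y0 hy0').2 j] at h1
        exact (map_eq_zero ψ).1 h1
      · have h1 := htr σ hσ y0 (hT0 σ hσ y0 hy0').1 (hT0 σ hσ y0 hy0').2
        rw [Fintype.linearIndependent_iff] at h1 ⊢
        intro c hc j
        have h2 := h1 (fun j => ψ (c j)) (by
          funext a
          have h3 := congrArg ψ (congrFun hc a)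
          simp only [Finset.sum_apply, Pi.smul_apply, smul_eq_mul, map_sum, map_mul,
            Pi.zero_apply, map_zero] at h3 ⊢
          rw [← h3]
          refine Finset.sum_congr rfl fun j _ => ?_
          congr 1
          rw [← hψe σ y0 hy0']
          show ψ _ = ψ (eval (up1 (Z y0)) (pderiv a (map (algebraMap k M) (F (σ j)))))
          rw [pderiv_map]) j
        exact (map_eq_zero ψ).1 h2
  -- the places
  have hgood := fun v : Pl k => exists_good (K := M) v
  choose f hf using hgood
  have hlam : ∀ v i (x : Fin (r + 1) → k), x ≠ 0 → eval x (F i) ≠ 0 →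
      lam (f v) (d i) (FM i) (up M x) = lam (av v) (d i) (F i) x := fun v i x hx hxF =>
    lam_up (hf v) (d i) (F i) hx hxF
  -- the constant
  have hliou := fun i => liou (K := k) (F i) (d i) (hF i)
  choose Cl hCl0 hCl using hliou
  set A : ℝ := ∑ i, ((d i : ℝ) + Cl i) + 1 with hA
  have hterm : ∀ i ∈ (Finset.univ : Finset (Fin q)), 0 ≤ (d i : ℝ) + Cl i := fun i _ =>
    add_nonneg (Nat.cast_nonneg _) (hCl0 i)
  have hA1 : 1 ≤ A := by
    have := Finset.sum_nonneg hterm
    linarith
  have hL : ∀ v ∈ S, ∀ i, ∀ x : Fin (r + 1) → k, x ≠ 0 →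
      eval (up M x) (FM i) ≠ 0 → lam (f v) (d i) (FM i) (up M x) ≤ A * (logHeight x + 1) := by
    intro v _ i x hx hxF
    have hxF' : eval x (F i) ≠ 0 := by
      intro h0
      apply hxF
      show eval (up M x) (map (algebraMap k M) (F i)) = 0
      rw [eval_up, h0, map_zero]
    rw [hlam v i x hx hxF']
    have h1 := hCl i {v} x hx hxF'
    rw [Finset.sum_singleton] at h1
    have hh := logHeight_nonneg x
    have hw : 1 ≤ wt v := by
      rcases v with w | p
      · show (1 : ℝ) ≤ (w.mult : ℝ)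
        exact_mod_cast InfinitePlace.mult_pos
      · exact le_rfl
    have h2 : lam (av v) (d i) (F i) x ≤ wt v * max 0 (lam (av v) (d i) (F i) x) := by
      have h3 := le_max_left 0 (lam (av v) (d i) (F i) x)
      have h4 := le_max_right 0 (lam (av v) (d i) (F i) x)
      nlinarith
    have h5 : (d i : ℝ) + Cl i ≤ A := by
      have := Finset.single_le_sum (f := fun i => (d i : ℝ) + Cl i) hterm (Finset.mem_univ i)
      linarith
    have h6 : 0 ≤ Cl i * logHeight x := mul_nonneg (hCl0 i) hh
    have h7 : ((d i : ℝ) + Cl i) * (logHeight x + 1) ≤ A * (logHeight x + 1) :=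
      mul_le_mul_of_nonneg_right h5 (by linarith)
    have h8 : 0 ≤ (d i : ℝ) := Nat.cast_nonneg _
    nlinarith
  obtain ⟨t, N, E, Z', C, hE, hZ0, hC⟩ := mainK (k := k) (K := M) hi hD S f
    (fun v _ => hf v) hA1 hL hε
  -- descend
  have hdesc : ∀ z : Fin N → M, ∃ m : Fin N → k, z ∈ Z' → m ≠ 0 ∧ ∀ x : Fin N → k,
      ∑ j, m j * x j ≠ 0 → ∑ j, z j * algebraMap k M (x j) ≠ 0 := by
    intro z
    by_cases hz : z ∈ Z'
    · obtain ⟨m, h1, h2⟩ := descend (k := k) z (hZ0 z hz)
      exact ⟨m, fun _ => ⟨h1, h2⟩⟩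
    · exact ⟨0, fun h => absurd h hz⟩
  choose md hmd using hdesc
  refine ⟨t, Z'.image fun z => ∑ j, MvPolynomial.C (md z j) * word k (E j), C, ?_, ?_⟩
  · intro Φ hΦ
    obtain ⟨z, hz, rfl⟩ := Finset.mem_image.1 hΦ
    refine ⟨IsHomogeneous.sum _ _ _ fun j _ => ?_, fun hmemI => ?_⟩
    · simpa using (isHomogeneous_C (Fin (r + 1)) (md z j)).mul (word_hom (K := k) (E j))
    · apply (hmd z hz).1
      have h1 : ∑ j, MvPolynomial.C (algebraMap k M (md z j)) * word M (E j) = 0 := by
        have h2 := congrArg (map (algebraMap k M)) hmemI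
        rw [map_sum, map_zero] at h2
        have h3 : ∀ j, map (algebraMap k M) (MvPolynomial.C (md z j) * word k (E j)) =
            MvPolynomial.C (algebraMap k M (md z j)) * word M (E j) := by
          intro j
          rw [map_mul, map_C, word, word, map_prod]
          simp
        rw [Finset.sum_congr rfl fun j _ => h3 j] at h2
        exact h2
      funext j
      exact (map_eq_zero (algebraMap k M)).1 (hE _ h1 j)
  · intro x hx hxF hxZ τ hτ y z hy hz hyz hzz
    have hxF' : ∀ i, eval (up M x) (FM i) ≠ 0 := by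
      intro i
      show eval (up M x) (map (algebraMap k M) (F i)) ≠ 0
      rw [eval_up, Ne, map_eq_zero]
      exact hxF i
    have hlam' : ∀ v i, lam (f v) (d i) (FM i) (up M x) = lam (av v) (d i) (F i) x :=
      fun v i => hlam v i x hx (hxF i)
    have h1 := hC x hx hxF' (by
      intro z hz
      refine (hmd z hz).2 (fun j => ∏ a, x (E j a)) ?_
      have h2 := hxZ _ (Finset.mem_image_of_mem _ hz)
      rw [map_sum] at h2
      have h3 : ∀ j, eval x (MvPolynomial.C (md z j) * word k (E j)) =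
          md z j * ∏ a, x (E j a) := by
        intro j
        rw [map_mul, eval_C, eval_word]
      rw [Finset.sum_congr rfl fun j _ => h3 j] at h2
      exact h2) τ hτ y z hy hz (by
      intro v hv j
      rw [hlam']
      exact hyz v hv j) hzz
    simp only [hlam'] at h1
    exact h1

end Run7.h684.VC
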