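import Mathlib
import Pool.Agent.Run7.h684.Ov

set_option autoImplicit false
set_option linter.unusedSectionVars false

/-!
The inequality: final form.
-/

namespace Run7.h684.VC

open MvPolynomial Finset Module Height NumberField
open Pool.Agent.W180.OP (Pl av wt nrm le_nrm nrm_pos nrm_nonneg exists_nrm lam lam_eq wt_nonneg
  cs cs_nonneg abv_mv not_small)
open Pool.Agent.R404.TC

variable {k : Type} [Field k] [NumberField k] {r q : ℕ}

/-- the defect -/
noncomputable def defect {r : ℕ} (d : Fin r → ℕ) (a y z : Fin r → ℝ) : ℝ :=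
  ∑ j, (1 - 1 / (d j : ℝ)) * (a j - z j) + ∑ j, y j / d j - r * (∏ j, y j) ^ ((1 : ℝ) / r)

/-- common zeros over all extensions -/
theorem no_all {F : Fin q → MvPolynomial (Fin (r + 1)) k}
    (hno : ∀ T : Finset (Fin q), T.card = r + 1 → ∀ x : Fin (r + 1) → AlgebraicClosure k,
      (∀ i ∈ T, aeval x (F i) = 0) → x = 0) :
    ∀ T : Finset (Fin q), T.card = r + 1 → ∀ (L : Type) [Field L] [Algebra k L]
      (x : Fin (r + 1) → L), (∀ i ∈ T, aeval x (F i) = 0) → x = 0 := by
  intro T hT L _ _ x hx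
  by_contra hx0
  obtain ⟨y, hy, -⟩ := transfer (K1 := k) (Ω := AlgebraicClosure k)
    (fun i : T => F i.1) ∅ (fun y hy => absurd hy (Finset.notMem_empty y)) (by
      intro x hx h
      exact absurd (hno T hT x fun i hi => h ⟨i, hi⟩) hx) (fun _ _ => 0)
    (fun y hy => absurd hy (Finset.notMem_empty y)) L x hx0 (fun i => hx i.1 i.2)
  exact Finset.notMem_empty y hy

theorem final (hr0 : 0 < r) (hr : r < q)
    (F : Fin q → MvPolynomial (Fin (r + 1)) k) (d : Fin q → ℕ) (hd : ∀ i, 0 < d i)
    (hF : ∀ i, (F i).IsHomogeneous (d i))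
    (hno : ∀ T : Finset (Fin q), T.card = r + 1 → ∀ x : Fin (r + 1) → AlgebraicClosure k,
      (∀ i ∈ T, aeval x (F i) = 0) → x = 0)
    (htr : ∀ σ : Fin r → Fin q, Function.Injective σ → ∀ y : Fin (r + 1) → AlgebraicClosure k,
      y ≠ 0 → (∀ j, aeval y (F (σ j)) = 0) → LinearIndependent (AlgebraicClosure k)
        fun (j : Fin r) (a : Fin (r + 1)) => aeval y (pderiv a (F (σ j))))
    (S : Finset (Pl k)) (ε : ℝ) (hε : 0 < ε) :
    ∃ (t : ℕ) (Z : Finset (MvPolynomial (Fin (r + 1)) k)) (C : ℝ),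
      (∀ Φ ∈ Z, Φ.IsHomogeneous t ∧ Φ ≠ 0) ∧
      ∀ x : Fin (r + 1) → k, x ≠ 0 → (∀ i, eval x (F i) ≠ 0) → (∀ Φ ∈ Z, eval x Φ ≠ 0) →
        ∀ τ : Pl k → Fin r → Fin q, (∀ v ∈ S, Function.Injective (τ v)) →
          (∀ v ∈ S, ∀ i, i ∉ Set.range (τ v) → ∀ j,
            lam (av v) (d i) (F i) x ≤ lam (av v) (d (τ v j)) (F (τ v j)) x) →
        ∀ y z : Pl k → Fin r → ℝ, (∀ v ∈ S, ∀ j, 0 ≤ y v j) → (∀ v ∈ S, ∀ j, 0 ≤ z v j) →
          (∀ v ∈ S, ∀ j, y v j + z v j ≤ lam (av v) (d (τ v j)) (F (τ v j)) x) →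
          (∀ v ∈ S, ∀ i j, z v i ≤ 2 * z v j) →
          ∑ v ∈ S, wt v * (∑ i, lam (av v) (d i) (F i) x) ≤ (r + 1 + ε) * logHeight x + C +
            ∑ v ∈ S, wt v * defect (fun j => d (τ v j))
              (fun j => lam (av v) (d (τ v j)) (F (τ v j)) x) (y v) (z v) := by
  classical
  have hnoL := no_all hno
  -- the points
  have hzeros : ∀ σ : Fin r → Fin q, ∃ T : Finset (Fin (r + 1) → AlgebraicClosure k),
      Function.Injective σ → (∀ y ∈ T, y ≠ 0 ∧ ∀ j, aeval y (F (σ j)) = 0) ∧
      ∀ x : Fin (r + 1) → AlgebraicClosure k, x ≠ 0 →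
      (∀ j, aeval x (F (σ j)) = 0) → ∃ y ∈ T, ∃ c : AlgebraicClosure k, x = c • y := by
    intro σ
    by_cases hσ : Function.Injective σ
    · obtain ⟨i0, T0, hT0, hT0'⟩ := exists_more hr σ hσ
      have hae : ∀ (x : Fin (r + 1) → AlgebraicClosure k) (p : MvPolynomial (Fin (r + 1)) k),
          eval x (map (algebraMap k (AlgebraicClosure k)) p) = aeval x p := by
        intro x p
        rw [eval_map]
        rfl
      by_cases hF0 : F i0 = 0
      · refine ⟨∅, fun _ => ⟨fun y hy => absurd hy (Finset.notMem_empty y),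
          fun x hx h2 => ?_⟩⟩
        exfalso
        apply hx
        refine hno T0 hT0 x fun i hi => ?_
        rcases hT0' i hi with rfl | ⟨j, rfl⟩
        · rw [hF0, map_zero]
        · exact h2 j
      set J : Ideal (MvPolynomial (Fin (r + 1)) (AlgebraicClosure k)) :=
        Ideal.span (Set.range fun j => map (algebraMap k (AlgebraicClosure k)) (F (σ j))) with hJ
      have hHI : HI J := by
        refine HI.of_span ?_
        rintro _ ⟨j, rfl⟩
        exact ⟨_, (hF (σ j)).map _⟩
      obtain ⟨T, h1, h2, h3⟩ := exists_zeros hHI (hd i0)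
        ((hF i0).map (algebraMap k (AlgebraicClosure k))) (by
          intro h
          apply hF0
          apply MvPolynomial.map_injective _ (algebraMap k (AlgebraicClosure k)).injective
          rw [h, map_zero]) (by
          intro L _ _ x hx
          let _ : Algebra k L := ((algebraMap (AlgebraicClosure k) L).comp
            (algebraMap k (AlgebraicClosure k))).toAlgebra
          have h1 : ∀ p : MvPolynomial (Fin (r + 1)) k,
              aeval x (map (algebraMap k (AlgebraicClosure k)) p) = aeval x p := by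
            intro p
            rw [aeval_def, eval₂_map, aeval_def]
            rfl
          refine hnoL T0 hT0 L x fun i hi => ?_
          rw [← h1]
          rcases hT0' i hi with rfl | ⟨j, rfl⟩
          · exact hx _ (Ideal.mem_sup_right (Ideal.mem_span_singleton_self _))
          · exact hx _ (Ideal.mem_sup_left (Ideal.subset_span ⟨j, rfl⟩)))
      refine ⟨T, fun _ => ⟨fun y hy => ⟨(h1 y hy).1, fun j => ?_⟩,
        fun x hx hx2 => h3 x hx fun p hp => ?_⟩⟩
      · rw [← hae]
        exact (h1 y hy).2 _ (Ideal.subset_span ⟨j, rfl⟩)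
      · refine Submodule.span_induction (p := fun p _ => eval x p = 0) ?_ ?_ ?_ ?_ hp
        · rintro _ ⟨j, rfl⟩
          simp only
          rw [hae]
          exact hx2 j
        · rw [map_zero]
        · intro a b _ _ ha hb
          rw [map_add, ha, hb, add_zero]
        · intro a b _ hb
          rw [smul_eq_mul, map_mul, hb, mul_zero]
    · exact ⟨∅, fun h => absurd h hσ⟩
  choose T hT using hzeros
  obtain ⟨t, Z, C, hZ, hC⟩ := overK hr0 hr F d hd hF hnoL htr T (fun σ hσ => (hT σ hσ).1)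
    (fun σ hσ => (hT σ hσ).2) S ε hε
  -- the bound for the other components
  have hfew := fun v : Pl k => few (I := (⊥ : Ideal (MvPolynomial (Fin (r + 1)) k)))
    (fun j : Fin 0 => (0 : MvPolynomial (Fin (r + 1)) k)) (fun _ => 0) (fun j => j.elim0)
    (by rw [Set.range_eq_empty, Ideal.span_empty]) (Nat.succ_pos r) hr.le F d hF
    (fun T hT L _ _ x _ hx => hnoL T hT L x hx) (av v)
  choose Cf hCf0 hCf using hfew
  set C1 : ℝ := ∑ v ∈ S, wt v * (q * Cf v) with hC1
  have hC10 : 0 ≤ C1 := Finset.sum_nonneg fun v _ =>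
    mul_nonneg (wt_nonneg v) (mul_nonneg (Nat.cast_nonneg _) (hCf0 v))
  have hmain : ∀ x : Fin (r + 1) → k, x ≠ 0 → (∀ i, eval x (F i) ≠ 0) →
      (∀ Φ ∈ Z, eval x Φ ≠ 0) →
        ∀ τ : Pl k → Fin r → Fin q, (∀ v ∈ S, Function.Injective (τ v)) →
        ∀ y z : Pl k → Fin r → ℝ, (∀ v ∈ S, ∀ j, 0 ≤ y v j) → (∀ v ∈ S, ∀ j, 0 ≤ z v j) →
          (∀ v ∈ S, ∀ j, y v j + z v j ≤ lam (av v) (d (τ v j)) (F (τ v j)) x) →
          (∀ v ∈ S, ∀ i j, z v i ≤ 2 * z v j) →
          ∑ v ∈ S, wt v * (∑ i, lam (av v) (d i) (F i) x / d i +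
            gain (fun j => d (τ v j)) (y v) (z v)) ≤ (r + 1 + ε) * logHeight x + C := by
    intro x hx hxF hxZ τ hτ y z hy hz hyz hzz
    set τ' : Pl k → Fin r → Fin q := fun v => if v ∈ S then τ v else Fin.castLE hr.le with hτ'
    have hτe : ∀ v ∈ S, τ' v = τ v := fun v hv => if_pos hv
    have h1 := hC x hx hxF hxZ τ' (by
      intro v
      by_cases hv : v ∈ S
      · rw [hτe v hv]
        exact hτ v hv
      · have h2 : τ' v = Fin.castLE hr.le := if_neg hv
        rw [h2]
        exact Fin.castLE_injective hr.le) y z hy hz (by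
      intro v hv j
      rw [hτe v hv]
      exact hyz v hv j) hzz
    refine le_trans (le_of_eq ?_) h1
    refine Finset.sum_congr rfl fun v hv => ?_
    rw [hτe v hv]
  refine ⟨t, Z, C + C1, hZ, fun x hx hxF hxZ τ hτ hoth y z hy hz hyz hzz => ?_⟩
  have h1 := hmain x hx hxF hxZ τ hτ y z hy hz hyz hzz
  have hplace : ∀ v ∈ S, ∑ i, lam (av v) (d i) (F i) x ≤
      (∑ i, lam (av v) (d i) (F i) x / d i + gain (fun j => d (τ v j)) (y v) (z v)) +
        (defect (fun j => d (τ v j)) (fun j => lam (av v) (d (τ v j)) (F (τ v j)) x)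
          (y v) (z v) + q * Cf v) := by
    intro v hv
    obtain ⟨σ, hσm, hσ⟩ := hCf v x hx (fun p hp => by rw [Ideal.mem_bot.1 hp, map_zero]) hxF
    set a : Fin q → ℝ := fun i => lam (av v) (d i) (F i) x with ha
    -- the others are bounded
    have hb : ∀ i, i ∉ Set.range (τ v) → a i ≤ Cf v := by
      intro i hi
      by_contra hcon
      push Not at hcon
      have h2 : ∀ j, Cf v < a (τ v j) := fun j => lt_of_lt_of_le hcon (hoth v hv i hi j)
      have h3 := range_le a σ (τ v) hσm.injective (hτ v hv) hσ h2 i hi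
      linarith
    have hdR : ∀ i, (1 : ℝ) ≤ d i := fun i => by exact_mod_cast hd i
    show ∑ i, a i ≤ (∑ i, a i / d i + gain (fun j => d (τ v j)) (y v) (z v)) +
      (defect (fun j => d (τ v j)) (fun j => a (τ v j)) (y v) (z v) + q * Cf v)
    have h2 : ∑ i, (1 - 1 / (d i : ℝ)) * a i ≤
        ∑ j, (1 - 1 / (d (τ v j) : ℝ)) * a (τ v j) + q * Cf v := by
      have e1 : ∑ j, (1 - 1 / (d (τ v j) : ℝ)) * a (τ v j) =
          ∑ i ∈ Finset.univ.image (τ v), (1 - 1 / (d i : ℝ)) * a i := by
        rw [Finset.sum_image (hτ v hv).injOn]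
      rw [e1, ← Finset.sum_sdiff (Finset.subset_univ (Finset.univ.image (τ v))), add_comm]
      have e2 : ∑ i ∈ Finset.univ \ Finset.univ.image (τ v), (1 - 1 / (d i : ℝ)) * a i ≤
          ∑ _i ∈ Finset.univ \ Finset.univ.image (τ v), Cf v := by
        refine Finset.sum_le_sum fun i hi => ?_
        have hi' : i ∉ Set.range (τ v) := by
          rintro ⟨j, hj⟩
          rw [Finset.mem_sdiff] at hi
          exact hi.2 (Finset.mem_image.2 ⟨j, Finset.mem_univ _, hj⟩)
        have e3 := hb i hi'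
        have e4 := hdR i
        have e5 : 0 ≤ 1 - 1 / (d i : ℝ) := by
          have : (1 : ℝ) / d i ≤ 1 := by
            rw [div_le_one (by linarith)]
            exact e4
          linarith
        have e6 : 1 - 1 / (d i : ℝ) ≤ 1 := by
          have : 0 ≤ (1 : ℝ) / d i := by positivity
          linarith
        have e7 := mul_le_mul_of_nonneg_left e3 e5
        have e8 := mul_le_mul_of_nonneg_right e6 (hCf0 v)
        linarith
      rw [Finset.sum_const, nsmul_eq_mul] at e2
      have e3 : ((Finset.univ \ Finset.univ.image (τ v)).card : ℝ) ≤ q := by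
        have := Finset.card_le_univ (Finset.univ \ Finset.univ.image (τ v))
        rw [Fintype.card_fin] at this
        exact_mod_cast this
      have e4 := mul_le_mul_of_nonneg_right e3 (hCf0 v)
      linarith
    have h3 : ∑ i, a i = ∑ i, a i / d i + ∑ i, (1 - 1 / (d i : ℝ)) * a i := by
      rw [← Finset.sum_add_distrib]
      refine Finset.sum_congr rfl fun i _ => ?_
      ring
    have h4 : gain (fun j => d (τ v j)) (y v) (z v) +
        defect (fun j => d (τ v j)) (fun j => a (τ v j)) (y v) (z v) =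
        ∑ j, (1 - 1 / (d (τ v j) : ℝ)) * a (τ v j) := by
      unfold gain defect
      simp only [mul_sub, Finset.sum_sub_distrib]
      ring
    rw [h3]
    linarith
  have h2 : ∑ v ∈ S, wt v * (∑ i, lam (av v) (d i) (F i) x) ≤
      ∑ v ∈ S, wt v * (∑ i, lam (av v) (d i) (F i) x / d i +
          gain (fun j => d (τ v j)) (y v) (z v)) +
        (∑ v ∈ S, wt v * defect (fun j => d (τ v j))
              (fun j => lam (av v) (d (τ v j)) (F (τ v j)) x) (y v) (z v) + C1) := by
    rw [hC1, ← Finset.sum_add_distrib, ← Finset.sum_add_distrib]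
    refine Finset.sum_le_sum fun v hv => ?_
    rw [← mul_add, ← mul_add]
    exact mul_le_mul_of_nonneg_left (hplace v hv) (wt_nonneg v)
  linarith

/-- homogeneity of the defect -/
theorem defect_smul {r : ℕ} (hr : 0 < r) (d : Fin r → ℕ) (a y z : Fin r → ℝ)
    (hy : ∀ j, 0 ≤ y j) {c : ℝ} (hc : 0 ≤ c) :
    defect d (fun j => c * a j) (fun j => c * y j) (fun j => c * z j) = c * defect d a y z := by
  unfold defect
  have h1 : (∏ j, c * y j) ^ ((1 : ℝ) / r) = c * (∏ j, y j) ^ ((1 : ℝ) / r) := by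
    rw [Finset.prod_mul_distrib, Finset.prod_const, Finset.card_univ, Fintype.card_fin,
      Real.mul_rpow (by positivity) (Finset.prod_nonneg fun j _ => hy j), one_div,
      Real.pow_rpow_inv_natCast hc hr.ne']
  rw [h1, mul_sub, mul_add, Finset.mul_sum, Finset.mul_sum]
  congr 1
  · congr 1
    · refine Finset.sum_congr rfl fun j _ => ?_
      ring
    · refine Finset.sum_congr rfl fun j _ => ?_
      ring
  · ring

end Run7.h684.VC
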